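import Mathlib

/-! Locally constant `GL(2, ℂ)` cocycles over Bernoulli shifts: definitions. -/

set_option autoImplicit false
open MeasureTheory Filter Topology

namespace H215LE

/-- The operator norm of a complex `2 × 2` matrix acting on Euclidean `ℂ²`. -/
noncomputable def opN (M : Matrix (Fin 2) (Fin 2) ℂ) : ℝ :=
  ‖Matrix.toEuclideanCLM (n := Fin 2) (𝕜 := ℂ) M‖

/-- A locally constant cocycle of range `N` over the alphabet `X`: a measurable map `A` from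
`X^ℤ` to `GL(2, ℂ)` that depends only on the coordinates `-N, ..., N`, with `log ‖A‖` and
`log ‖A⁻¹‖` bounded. -/
structure Cocycle (X : Type) [MeasurableSpace X] (N : ℕ) where
  toFun : (ℤ → X) → GL (Fin 2) ℂ
  meas : ∀ i j, Measurable fun x => (toFun x : Matrix (Fin 2) (Fin 2) ℂ) i j
  loc : ∀ x x' : ℤ → X, (∀ i : ℤ, |i| ≤ N → x i = x' i) → toFun x = toFun x'
  bdd : ∃ C : ℝ, ∀ x, |Real.log (opN (toFun x : Matrix (Fin 2) (Fin 2) ℂ))| ≤ C ∧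
    |Real.log (opN ((toFun x)⁻¹ : GL (Fin 2) ℂ))| ≤ C

variable {X : Type} [MeasurableSpace X] {N : ℕ}

/-- The shift `(f x)_n = x_{n+1}`. -/
def shift (x : ℤ → X) : ℤ → X := fun n => x (n + 1)

/-- `A^n(x) = A(f^{n-1} x) ⋯ A(f x) A(x)`. -/
noncomputable def Cocycle.iter (A : Cocycle X N) : ℕ → (ℤ → X) → GL (Fin 2) ℂ
  | 0, _ => 1
  | n + 1, x => A.toFun (shift^[n] x) * A.iter n x

/-- The Bernoulli measure `p^ℤ`. -/
noncomputable def bern (p : Measure X) [IsProbabilityMeasure p] : Measure (ℤ → X) :=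
  Measure.infinitePi (fun _ : ℤ => p)

/-- `l = λ₊(A, p)`: almost surely `(1/n) log ‖A^n(x)‖ → l`. -/
def IsTopExp (A : Cocycle X N) (p : Measure X) [IsProbabilityMeasure p] (l : ℝ) : Prop :=
  ∀ᵐ x ∂(bern p), Tendsto (fun n : ℕ =>
    (1 / (n : ℝ)) * Real.log (opN (A.iter n x : GL (Fin 2) ℂ))) atTop (𝓝 l)

/-- `l = λ₋(A, p)`: almost surely `(1/n) log ‖A^n(x)⁻¹‖⁻¹ → l`. -/
def IsBotExp (A : Cocycle X N) (p : Measure X) [IsProbabilityMeasure p] (l : ℝ) : Prop :=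
  ∀ᵐ x ∂(bern p), Tendsto (fun n : ℕ =>
    (1 / (n : ℝ)) * Real.log (opN ((A.iter n x)⁻¹ : GL (Fin 2) ℂ))⁻¹) atTop (𝓝 l)

/-- `d(A, B) = sup_x ‖A(x) - B(x)‖`. -/
noncomputable def cocDist (A B : Cocycle X N) : ℝ :=
  ⨆ x : ℤ → X, opN ((A.toFun x : Matrix (Fin 2) (Fin 2) ℂ) - (B.toFun x : Matrix (Fin 2) (Fin 2) ℂ))

/-- `d(p, q) = sup |∫ φ d(p - q)|` over measurable `φ` with `|φ| ≤ 1`. -/
noncomputable def tvDist (p q : Measure X) : ℝ :=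
  ⨆ φ : {φ : X → ℝ // Measurable φ ∧ ∀ x, |φ x| ≤ 1}, |∫ x, φ.1 x ∂p - ∫ x, φ.1 x ∂q|

end H215LE
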