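import Mathlib
import Pool.Agent.H215Z.LE.Defs

/-! Linear algebra in dimension two. -/

set_option autoImplicit false
open Matrix

namespace H215LE

abbrev Mat := Matrix (Fin 2) (Fin 2) ℂ
abbrev Vec := Fin 2 → ℂ

/-- entrywise norm -/
noncomputable def en (M : Mat) : ℝ := ‖M 0 0‖ + ‖M 0 1‖ + ‖M 1 0‖ + ‖M 1 1‖

/-- wedge product -/
def wd (v w : Vec) : ℂ := v 0 * w 1 - v 1 * w 0

/-- projective distance -/
noncomputable def pd (v w : Vec) : ℝ := ‖wd v w‖ / (‖v‖ * ‖w‖)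

/-- normalised logarithmic growth -/
noncomputable def Ph (M : Mat) (v : Vec) : ℝ :=
  Real.log ‖M *ᵥ v‖ - Real.log ‖v‖ - Real.log ‖M.det‖ / 2

lemma en_nonneg (M : Mat) : 0 ≤ en M := by unfold en; positivity

lemma norm_vec_le {v : Vec} {r : ℝ} (h0 : ‖v 0‖ ≤ r) (h1 : ‖v 1‖ ≤ r) : ‖v‖ ≤ r := by
  rw [pi_norm_le_iff_of_nonneg ((norm_nonneg _).trans h0)]
  intro i; fin_cases i
  · exact h0
  · exact h1

lemma mulVec0 (M : Mat) (v : Vec) : (M *ᵥ v) 0 = M 0 0 * v 0 + M 0 1 * v 1 := by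
  simp [mulVec, dotProduct, Fin.sum_univ_two]
lemma mulVec1 (M : Mat) (v : Vec) : (M *ᵥ v) 1 = M 1 0 * v 0 + M 1 1 * v 1 := by
  simp [mulVec, dotProduct, Fin.sum_univ_two]

lemma norm_mulVec_le (M : Mat) (v : Vec) : ‖M *ᵥ v‖ ≤ en M * ‖v‖ := by
  have h0 := norm_le_pi_norm v 0
  have h1 := norm_le_pi_norm v 1
  have hv := norm_nonneg v
  have a := norm_nonneg (M 0 0)
  have b := norm_nonneg (M 0 1)
  have c := norm_nonneg (M 1 0)
  have d := norm_nonneg (M 1 1)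
  unfold en
  apply norm_vec_le
  · rw [mulVec0]
    refine (norm_add_le _ _).trans ?_
    rw [norm_mul, norm_mul]
    nlinarith [mul_le_mul_of_nonneg_left h0 a, mul_le_mul_of_nonneg_left h1 b]
  · rw [mulVec1]
    refine (norm_add_le _ _).trans ?_
    rw [norm_mul, norm_mul]
    nlinarith [mul_le_mul_of_nonneg_left h0 c, mul_le_mul_of_nonneg_left h1 d]

lemma en_adj (M : Mat) : en M.adjugate = en M := by
  unfold en
  rw [adjugate_fin_two]
  simp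
  ring

lemma det_mul_le (M : Mat) (v : Vec) : ‖M.det‖ * ‖v‖ ≤ en M * ‖M *ᵥ v‖ := by
  have h := norm_mulVec_le M.adjugate (M *ᵥ v)
  rw [mulVec_mulVec, adjugate_mul, en_adj, smul_mulVec, one_mulVec, norm_smul] at h
  exact h

lemma mulVec_ne {M : Mat} (hM : M.det ≠ 0) {v : Vec} (hv : v ≠ 0) : M *ᵥ v ≠ 0 := by
  intro h
  have := det_mul_le M v
  rw [h, norm_zero, mul_zero] at this
  have h2 : 0 < ‖M.det‖ * ‖v‖ := mul_pos (norm_pos_iff.2 hM) (norm_pos_iff.2 hv)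
  linarith

lemma en_pos {M : Mat} (hM : M.det ≠ 0) : 0 < en M := by
  rcases (en_nonneg M).lt_or_eq with h | h
  · exact h
  · have h1 := det_mul_le M (fun _ => 1)
    rw [← h, zero_mul] at h1
    have : 0 < ‖M.det‖ * ‖(fun _ => 1 : Vec)‖ := by
      apply mul_pos (norm_pos_iff.2 hM)
      simp
    linarith

lemma en_mul (M N : Mat) : en (M * N) ≤ en M * en N := by
  unfold en
  simp only [mul_apply, Fin.sum_univ_two]
  have h : ∀ a b c d : ℂ, ‖a * b + c * d‖ ≤ ‖a‖ * ‖b‖ + ‖c‖ * ‖d‖ := fun a b c d =>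
    (norm_add_le _ _).trans (by rw [norm_mul, norm_mul])
  have h1 := h (M 0 0) (N 0 0) (M 0 1) (N 1 0)
  have h2 := h (M 0 0) (N 0 1) (M 0 1) (N 1 1)
  have h3 := h (M 1 0) (N 0 0) (M 1 1) (N 1 0)
  have h4 := h (M 1 0) (N 0 1) (M 1 1) (N 1 1)
  have a := norm_nonneg (M 0 0)
  have b := norm_nonneg (M 0 1)
  have c := norm_nonneg (M 1 0)
  have d := norm_nonneg (M 1 1)
  have a' := norm_nonneg (N 0 0)
  have b' := norm_nonneg (N 0 1)
  have c' := norm_nonneg (N 1 0)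
  have d' := norm_nonneg (N 1 1)
  nlinarith [mul_nonneg a c', mul_nonneg a d', mul_nonneg b a', mul_nonneg b b', mul_nonneg c c',
    mul_nonneg c d', mul_nonneg d a', mul_nonneg d b']

lemma en_add (M N : Mat) : en (M + N) ≤ en M + en N := by
  unfold en
  simp only [Matrix.add_apply]
  linarith [norm_add_le (M 0 0) (N 0 0), norm_add_le (M 0 1) (N 0 1), norm_add_le (M 1 0) (N 1 0),
    norm_add_le (M 1 1) (N 1 1)]

lemma en_sub_comm (M N : Mat) : en (M - N) = en (N - M) := by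
  unfold en
  simp only [Matrix.sub_apply]
  rw [norm_sub_rev (M 0 0), norm_sub_rev (M 0 1), norm_sub_rev (M 1 0), norm_sub_rev (M 1 1)]

lemma en_one : en 1 = 2 := by
  unfold en; simp; norm_num

lemma det_le_en_sq (M : Mat) : ‖M.det‖ ≤ en M ^ 2 := by
  rw [det_fin_two]
  refine (norm_sub_le _ _).trans ?_
  rw [norm_mul, norm_mul]
  unfold en
  have a := norm_nonneg (M 0 0)
  have b := norm_nonneg (M 0 1)
  have c := norm_nonneg (M 1 0)
  have d := norm_nonneg (M 1 1)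
  nlinarith [mul_nonneg a b, mul_nonneg a c, mul_nonneg a d, mul_nonneg b c, mul_nonneg b d,
    mul_nonneg c d]

lemma det_sub_le (M N : Mat) : ‖M.det - N.det‖ ≤ en (M - N) * (en M + en N) := by
  have e : M.det - N.det = (M 0 0 - N 0 0) * M 1 1 + N 0 0 * (M 1 1 - N 1 1) -
      (M 0 1 - N 0 1) * M 1 0 - N 0 1 * (M 1 0 - N 1 0) := by
    rw [det_fin_two, det_fin_two]; ring
  rw [e]
  have h1 := norm_sub_le ((M 0 0 - N 0 0) * M 1 1 + N 0 0 * (M 1 1 - N 1 1) -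
      (M 0 1 - N 0 1) * M 1 0) (N 0 1 * (M 1 0 - N 1 0))
  have h2 := norm_sub_le ((M 0 0 - N 0 0) * M 1 1 + N 0 0 * (M 1 1 - N 1 1))
      ((M 0 1 - N 0 1) * M 1 0)
  have h3 := norm_add_le ((M 0 0 - N 0 0) * M 1 1) (N 0 0 * (M 1 1 - N 1 1))
  rw [norm_mul] at h1 h2
  rw [norm_mul, norm_mul] at h3
  unfold en
  simp only [Matrix.sub_apply]
  set a := ‖M 0 0 - N 0 0‖
  set b := ‖M 0 1 - N 0 1‖
  set c := ‖M 1 0 - N 1 0‖
  set d := ‖M 1 1 - N 1 1‖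
  have ha : 0 ≤ a := norm_nonneg _
  have hb : 0 ≤ b := norm_nonneg _
  have hc : 0 ≤ c := norm_nonneg _
  have hd : 0 ≤ d := norm_nonneg _
  set T := ‖M 0 0‖ + ‖M 0 1‖ + ‖M 1 0‖ + ‖M 1 1‖ + (‖N 0 0‖ + ‖N 0 1‖ + ‖N 1 0‖ + ‖N 1 1‖) with hT
  have p1 := norm_nonneg (M 0 0)
  have p2 := norm_nonneg (M 0 1)
  have p3 := norm_nonneg (M 1 0)
  have p4 := norm_nonneg (M 1 1)
  have q1 := norm_nonneg (N 0 0)
  have q2 := norm_nonneg (N 0 1)
  have q3 := norm_nonneg (N 1 0)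
  have q4 := norm_nonneg (N 1 1)
  have k1 : a * ‖M 1 1‖ ≤ a * T := mul_le_mul_of_nonneg_left (by linarith) ha
  have k2 : ‖N 0 0‖ * d ≤ d * T := by rw [mul_comm]; exact mul_le_mul_of_nonneg_left (by linarith) hd
  have k3 : b * ‖M 1 0‖ ≤ b * T := mul_le_mul_of_nonneg_left (by linarith) hb
  have k4 : ‖N 0 1‖ * c ≤ c * T := by rw [mul_comm]; exact mul_le_mul_of_nonneg_left (by linarith) hc
  nlinarith

lemma wd_mulVec (M : Mat) (v w : Vec) : wd (M *ᵥ v) (M *ᵥ w) = M.det * wd v w := by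
  unfold wd
  rw [mulVec0, mulVec1, mulVec0, mulVec1, det_fin_two]; ring

lemma norm_wd_le (v w : Vec) : ‖wd v w‖ ≤ 2 * (‖v‖ * ‖w‖) := by
  unfold wd
  refine (norm_sub_le _ _).trans ?_
  rw [norm_mul, norm_mul]
  have h1 : ‖v 0‖ * ‖w 1‖ ≤ ‖v‖ * ‖w‖ :=
    mul_le_mul (norm_le_pi_norm v 0) (norm_le_pi_norm w 1) (norm_nonneg _) (norm_nonneg _)
  have h2 : ‖v 1‖ * ‖w 0‖ ≤ ‖v‖ * ‖w‖ :=
    mul_le_mul (norm_le_pi_norm v 1) (norm_le_pi_norm w 0) (norm_nonneg _) (norm_nonneg _)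
  linarith

lemma pd_nonneg (v w : Vec) : 0 ≤ pd v w := by unfold pd; positivity

lemma pd_le_two (v w : Vec) : pd v w ≤ 2 := by
  unfold pd
  rcases (mul_nonneg (norm_nonneg v) (norm_nonneg w)).lt_or_eq with h | h
  · rw [div_le_iff₀ h]; exact norm_wd_le v w
  · rw [← h]; simp

lemma pd_comm (v w : Vec) : pd v w = pd w v := by
  unfold pd
  rw [mul_comm ‖v‖, show wd v w = -wd w v by unfold wd; ring, norm_neg]

lemma pd_self (v : Vec) : pd v v = 0 := by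
  unfold pd; rw [show wd v v = 0 by unfold wd; ring]; simp

lemma pd_eq_zero {v w : Vec} (hv : v ≠ 0) (hw : w ≠ 0) : pd v w = 0 ↔ wd v w = 0 := by
  unfold pd
  rw [div_eq_zero_iff, norm_eq_zero]
  have : ‖v‖ * ‖w‖ ≠ 0 := mul_ne_zero (norm_ne_zero_iff.2 hv) (norm_ne_zero_iff.2 hw)
  tauto

lemma pd_triangle {u v w : Vec} (hu : u ≠ 0) (hv : v ≠ 0) (hw : w ≠ 0) :
    pd u w ≤ pd u v + pd v w := by
  have hu' := norm_pos_iff.2 hu
  have hv' := norm_pos_iff.2 hv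
  have hw' := norm_pos_iff.2 hw
  have e : wd u w • v = wd u v • w + wd v w • u := by
    ext i; fin_cases i <;> simp [wd] <;> ring
  have h : ‖wd u w‖ * ‖v‖ ≤ ‖wd u v‖ * ‖w‖ + ‖wd v w‖ * ‖u‖ := by
    rw [← norm_smul, ← norm_smul, ← norm_smul, e]; exact norm_add_le _ _
  unfold pd
  rw [div_add_div _ _ (by positivity) (by positivity), div_le_div_iff₀ (by positivity) (by positivity)]
  have := mul_le_mul_of_nonneg_right h (show 0 ≤ ‖u‖ * ‖v‖ * ‖w‖ by positivity)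
  nlinarith

lemma pd_le_sub {u w : Vec} (hu : u ≠ 0) (hw : w ≠ 0) : pd u w ≤ 2 * ‖u - w‖ / ‖w‖ := by
  have hu' := norm_pos_iff.2 hu
  have hw' := norm_pos_iff.2 hw
  have e : wd u w = wd u (w - u) := by simp [wd]; ring
  have h := norm_wd_le u (w - u)
  unfold pd
  rw [e, div_le_div_iff₀ (by positivity) hw', norm_sub_rev u w]
  have := mul_le_mul_of_nonneg_right h hw'.le
  nlinarith

lemma pd_smul {c : ℂ} (hc : c ≠ 0) (v w : Vec) : pd (c • v) w = pd v w := by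
  unfold pd
  have : wd (c • v) w = c * wd v w := by simp [wd]; ring
  rw [this, norm_mul, norm_smul, mul_assoc, mul_div_mul_left _ _ (norm_ne_zero_iff.2 hc)]

lemma Ph_mul {M N : Mat} (hM : M.det ≠ 0) (hN : N.det ≠ 0) (v : Vec) :
    Ph (M * N) v = Ph M (N *ᵥ v) + Ph N v := by
  unfold Ph
  rw [mulVec_mulVec, det_mul, norm_mul,
    Real.log_mul (norm_ne_zero_iff.2 hM) (norm_ne_zero_iff.2 hN)]
  ring

lemma Ph_one (v : Vec) : Ph 1 v = 0 := by simp [Ph]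

lemma log_pd {M : Mat} (hM : M.det ≠ 0) {v w : Vec} (hv : v ≠ 0) (hw : w ≠ 0) (h : wd v w ≠ 0) :
    Real.log (pd (M *ᵥ v) (M *ᵥ w)) = Real.log (pd v w) - Ph M v - Ph M w := by
  have h1 := norm_ne_zero_iff.2 (mulVec_ne hM hv)
  have h2 := norm_ne_zero_iff.2 (mulVec_ne hM hw)
  have h3 := norm_ne_zero_iff.2 hv
  have h4 := norm_ne_zero_iff.2 hw
  have h5 := norm_ne_zero_iff.2 hM
  have h6 := norm_ne_zero_iff.2 h
  unfold pd Ph
  rw [wd_mulVec, norm_mul, Real.log_div (mul_ne_zero h5 h6) (mul_ne_zero h1 h2),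
    Real.log_div h6 (mul_ne_zero h3 h4), Real.log_mul h5 h6, Real.log_mul h1 h2,
    Real.log_mul h3 h4]
  ring

lemma Ph_add_ge {M : Mat} (hM : M.det ≠ 0) {v w : Vec} (hv : v ≠ 0) (hw : w ≠ 0) (h : wd v w ≠ 0) :
    Real.log (pd v w) - 1 ≤ Ph M v + Ph M w := by
  have h1 := log_pd hM hv hw h
  have h2 : Real.log (pd (M *ᵥ v) (M *ᵥ w)) ≤ 1 := by
    have := Real.log_le_sub_one_of_pos (x := pd (M *ᵥ v) (M *ᵥ w)) (by
      refine lt_of_le_of_ne (pd_nonneg _ _) (Ne.symm ?_)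
      rw [Ne, pd_eq_zero (mulVec_ne hM hv) (mulVec_ne hM hw), wd_mulVec]
      exact mul_ne_zero hM h)
    linarith [pd_le_two (M *ᵥ v) (M *ᵥ w)]
  linarith

/-- matrices with controlled norm and determinant -/
def Good (C : ℝ) (M : Mat) : Prop := en M ≤ C ∧ 1 ≤ C * ‖M.det‖

lemma Good.det_ne {C : ℝ} {M : Mat} (h : Good C M) : M.det ≠ 0 := by
  intro h0
  have := h.2
  rw [h0, norm_zero, mul_zero] at this
  linarith

lemma Good.pos {C : ℝ} {M : Mat} (h : Good C M) : 0 < C := (en_pos h.det_ne).trans_le h.1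

lemma Good.one_le {C : ℝ} {M : Mat} (h : Good C M) : 1 ≤ C := by
  by_contra hc
  push Not at hc
  have h1 := det_le_en_sq M
  have h2 : en M ^ 2 ≤ C ^ 2 := pow_le_pow_left₀ (en_nonneg M) h.1 2
  have h3 := h.2
  have h4 := h.pos
  have h5 : C * ‖M.det‖ ≤ C * C ^ 2 := mul_le_mul_of_nonneg_left (h1.trans h2) h4.le
  have h6 : C ^ 2 < 1 := by nlinarith
  nlinarith

lemma Good.mono {C C' : ℝ} {M : Mat} (h : Good C M) (hC : C ≤ C') : Good C' M :=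
  ⟨h.1.trans hC, h.2.trans (mul_le_mul_of_nonneg_right hC (norm_nonneg _))⟩

lemma Good.mul {C C' : ℝ} {M N : Mat} (h : Good C M) (h' : Good C' N) : Good (C * C') (M * N) := by
  refine ⟨(en_mul M N).trans (mul_le_mul h.1 h'.1 (en_nonneg _) h.pos.le), ?_⟩
  rw [det_mul, norm_mul]
  have := mul_le_mul h.2 h'.2 zero_le_one (zero_le_one.trans h.2)
  nlinarith

lemma good_one : Good 2 (1 : Mat) := ⟨en_one.le, by simp⟩

lemma Good.lower {C : ℝ} {M : Mat} (h : Good C M) (v : Vec) : ‖v‖ ≤ C ^ 2 * ‖M *ᵥ v‖ := by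
  have h1 := det_mul_le M v
  have h2 : en M * ‖M *ᵥ v‖ ≤ C * ‖M *ᵥ v‖ := mul_le_mul_of_nonneg_right h.1 (norm_nonneg _)
  have h3 : ‖v‖ ≤ C * ‖M.det‖ * ‖v‖ := by
    have := mul_le_mul_of_nonneg_right h.2 (norm_nonneg v); linarith
  have h4 : C * (‖M.det‖ * ‖v‖) ≤ C * (C * ‖M *ᵥ v‖) := mul_le_mul_of_nonneg_left (h1.trans h2) h.pos.le
  nlinarith

lemma Good.upper {C : ℝ} {M : Mat} (h : Good C M) (v : Vec) : ‖M *ᵥ v‖ ≤ C * ‖v‖ :=
  (norm_mulVec_le M v).trans (mul_le_mul_of_nonneg_right h.1 (norm_nonneg _))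

lemma Good.log_det {C : ℝ} {M : Mat} (h : Good C M) : |Real.log ‖M.det‖| ≤ 2 * Real.log C := by
  have hd := norm_pos_iff.2 h.det_ne
  have hC := h.pos
  have hl : 0 ≤ Real.log C := Real.log_nonneg h.one_le
  rw [abs_le]
  constructor
  · have := Real.log_nonneg h.2
    rw [Real.log_mul hC.ne' hd.ne'] at this
    linarith
  · have h2 : ‖M.det‖ ≤ C ^ 2 := (det_le_en_sq M).trans (pow_le_pow_left₀ (en_nonneg M) h.1 2)
    have := Real.log_le_log hd h2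
    rw [Real.log_pow] at this
    exact_mod_cast this

lemma Good.Ph_bd {C : ℝ} {M : Mat} (h : Good C M) {v : Vec} (hv : v ≠ 0) :
    |Ph M v| ≤ 3 * Real.log C := by
  have hC := h.pos
  have hv' := norm_pos_iff.2 hv
  have hMv := norm_pos_iff.2 (mulVec_ne h.det_ne hv)
  have h1 := Real.log_le_log hMv (h.upper v)
  have h2 := Real.log_le_log hv' (h.lower v)
  rw [Real.log_mul hC.ne' hv'.ne'] at h1
  rw [Real.log_mul (by positivity) hMv.ne', Real.log_pow] at h2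
  have h3 := abs_le.1 h.log_det
  have hl : 0 ≤ Real.log C := Real.log_nonneg h.one_le
  unfold Ph
  push_cast at h2
  rw [abs_le]; constructor <;> linarith

lemma log_sub_le {x y : ℝ} (hx : 0 < x) (hy : 0 < y) : Real.log x - Real.log y ≤ (x - y) / y := by
  rw [← Real.log_div hx.ne' hy.ne']
  have := Real.log_le_sub_one_of_pos (div_pos hx hy)
  rwa [sub_div, div_self hy.ne']

/-- decomposition along another vector -/
lemma exists_decomp (v : Vec) {w : Vec} (hw : w ≠ 0) :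
    ∃ (c : ℂ) (e : Vec), v = c • w + e ∧ ‖c‖ * ‖w‖ ≤ ‖v‖ ∧ ‖e‖ * ‖w‖ = ‖wd v w‖ := by
  have key : ∀ i : Fin 2, ‖w‖ = ‖w i‖ → ‖(w i) • v - (v i) • w‖ = ‖wd v w‖ →
      ∃ (c : ℂ) (e : Vec), v = c • w + e ∧ ‖c‖ * ‖w‖ ≤ ‖v‖ ∧ ‖e‖ * ‖w‖ = ‖wd v w‖ := by
    intro i h1 h2
    have hwi : w i ≠ 0 := by
      rw [← norm_ne_zero_iff, ← h1]; exact norm_ne_zero_iff.2 hw
    refine ⟨v i / w i, (w i)⁻¹ • ((w i) • v - (v i) • w), ?_, ?_, ?_⟩
    · ext j
      simp only [Pi.add_apply, Pi.smul_apply, Pi.sub_apply, smul_eq_mul]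
      field_simp
      ring
    · rw [norm_div, h1, div_mul_cancel₀ _ (norm_ne_zero_iff.2 hwi)]
      exact norm_le_pi_norm v i
    · rw [norm_smul, h2, h1, norm_inv]
      field_simp
  have hn : ∀ u : Vec, ‖u‖ = max ‖u 0‖ ‖u 1‖ := fun u =>
    le_antisymm (norm_vec_le (le_max_left _ _) (le_max_right _ _))
      (max_le (norm_le_pi_norm u 0) (norm_le_pi_norm u 1))
  rcases le_total ‖w 0‖ ‖w 1‖ with h | h
  · refine key 1 (by rw [hn, max_eq_right h]) ?_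
    rw [hn]
    simp only [Pi.sub_apply, Pi.smul_apply, smul_eq_mul]
    rw [show w 1 * v 0 - v 1 * w 0 = wd v w by unfold wd; ring,
      show w 1 * v 1 - v 1 * w 1 = 0 by ring]
    simp
  · refine key 0 (by rw [hn, max_eq_left h]) ?_
    rw [hn]
    simp only [Pi.sub_apply, Pi.smul_apply, smul_eq_mul]
    rw [show w 0 * v 1 - v 0 * w 1 = -wd v w by unfold wd; ring,
      show w 0 * v 0 - v 0 * w 0 = 0 by ring]
    simp

lemma Good.Ph_lip {C : ℝ} {M : Mat} (h : Good C M) {v w : Vec} (hv : v ≠ 0) (hw : w ≠ 0) :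
    Ph M v - Ph M w ≤ C ^ 3 * pd v w := by
  obtain ⟨c, e, h1, h2, h3⟩ := exists_decomp v hw
  have hC := h.pos
  have hv' := norm_pos_iff.2 hv
  have hw' := norm_pos_iff.2 hw
  have hMv := norm_pos_iff.2 (mulVec_ne h.det_ne hv)
  have hMw := norm_pos_iff.2 (mulVec_ne h.det_ne hw)
  have h4 : ‖M *ᵥ v‖ ≤ ‖c‖ * ‖M *ᵥ w‖ + C * ‖e‖ := by
    conv_lhs => rw [h1, mulVec_add, mulVec_smul]
    refine (norm_add_le _ _).trans ?_
    rw [norm_smul]
    linarith [h.upper e]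
  have h5 := log_sub_le (mul_pos hMv hw') (mul_pos hMw hv')
  rw [Real.log_mul hMv.ne' hw'.ne', Real.log_mul hMw.ne' hv'.ne'] at h5
  have h6 : (‖M *ᵥ v‖ * ‖w‖ - ‖M *ᵥ w‖ * ‖v‖) / (‖M *ᵥ w‖ * ‖v‖) ≤ C ^ 3 * pd v w := by
    unfold pd
    rw [div_le_iff₀ (mul_pos hMw hv')]
    have h7 : ‖M *ᵥ v‖ * ‖w‖ - ‖M *ᵥ w‖ * ‖v‖ ≤ C * ‖wd v w‖ := by
      have a1 := mul_le_mul_of_nonneg_right h4 hw'.le
      have a2 := mul_le_mul_of_nonneg_right h2 hMw.le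
      rw [← h3]
      nlinarith
    refine h7.trans ?_
    have h8 := h.lower w
    have e1 : C ^ 3 * (‖wd v w‖ / (‖v‖ * ‖w‖)) * (‖M *ᵥ w‖ * ‖v‖) =
        C * ‖wd v w‖ * (C ^ 2 * ‖M *ᵥ w‖ / ‖w‖) := by field_simp
    rw [e1]
    have h9 : 1 ≤ C ^ 2 * ‖M *ᵥ w‖ / ‖w‖ := by rw [le_div_iff₀ hw']; linarith
    have h10 : 0 ≤ C * ‖wd v w‖ := by positivity
    nlinarith
  unfold Ph
  linarith

lemma Good.Ph_congr {C : ℝ} {M : Mat} (h : Good C M) {v w : Vec} (hv : v ≠ 0) (hw : w ≠ 0)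
    (h0 : wd v w = 0) : Ph M v = Ph M w := by
  have h1 := h.Ph_lip hv hw
  have h2 := h.Ph_lip hw hv
  rw [pd_comm] at h2
  rw [(pd_eq_zero hv hw).2 h0] at h1 h2
  linarith

lemma Good.pd_upper {C : ℝ} {M : Mat} (h : Good C M) {v w : Vec} (hv : v ≠ 0) (hw : w ≠ 0) :
    pd (M *ᵥ v) (M *ᵥ w) ≤ C ^ 6 * pd v w := by
  have hC := h.pos
  have hv' := norm_pos_iff.2 hv
  have hw' := norm_pos_iff.2 hw
  have hMv := norm_pos_iff.2 (mulVec_ne h.det_ne hv)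
  have hMw := norm_pos_iff.2 (mulVec_ne h.det_ne hw)
  have hd : ‖M.det‖ ≤ C ^ 2 := (det_le_en_sq M).trans (pow_le_pow_left₀ (en_nonneg M) h.1 2)
  unfold pd
  rw [wd_mulVec, norm_mul, ← mul_div_assoc, div_le_div_iff₀ (by positivity) (by positivity)]
  have h1 : ‖v‖ * ‖w‖ ≤ (C ^ 2 * ‖M *ᵥ v‖) * (C ^ 2 * ‖M *ᵥ w‖) :=
    mul_le_mul (h.lower v) (h.lower w) hw'.le (by positivity)
  calc ‖M.det‖ * ‖wd v w‖ * (‖v‖ * ‖w‖)
      ≤ C ^ 2 * ‖wd v w‖ * ((C ^ 2 * ‖M *ᵥ v‖) * (C ^ 2 * ‖M *ᵥ w‖)) := by gcongr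
    _ = _ := by ring

lemma Good.pd_lower {C : ℝ} {M : Mat} (h : Good C M) {v w : Vec} (hv : v ≠ 0) (hw : w ≠ 0) :
    pd v w ≤ C ^ 6 * pd (M *ᵥ v) (M *ᵥ w) := by
  have hC := h.pos
  have hC1 := h.one_le
  have hv' := norm_pos_iff.2 hv
  have hw' := norm_pos_iff.2 hw
  have hMv := norm_pos_iff.2 (mulVec_ne h.det_ne hv)
  have hMw := norm_pos_iff.2 (mulVec_ne h.det_ne hw)
  unfold pd
  rw [wd_mulVec, norm_mul, ← mul_div_assoc, div_le_div_iff₀ (by positivity) (by positivity)]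
  have h1 : ‖M *ᵥ v‖ * ‖M *ᵥ w‖ ≤ (C * ‖v‖) * (C * ‖w‖) :=
    mul_le_mul (h.upper v) (h.upper w) hMw.le (by positivity)
  have h2 : (1 : ℝ) ≤ C ^ 3 := one_le_pow₀ hC1
  have h3 := h.2
  calc ‖wd v w‖ * (‖M *ᵥ v‖ * ‖M *ᵥ w‖)
      ≤ ‖wd v w‖ * ((C * ‖v‖) * (C * ‖w‖)) := by gcongr
    _ = 1 * 1 * (‖wd v w‖ * ((C * ‖v‖) * (C * ‖w‖))) := by ring
    _ ≤ C ^ 3 * (C * ‖M.det‖) * (‖wd v w‖ * ((C * ‖v‖) * (C * ‖w‖))) := by gcongr
    _ = _ := by ring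

lemma Good.pd_pert {C : ℝ} {M N : Mat} (h : Good C M) (h' : Good C N) {v : Vec} (hv : v ≠ 0) :
    pd (M *ᵥ v) (N *ᵥ v) ≤ 2 * C ^ 2 * en (M - N) := by
  have hNv := norm_pos_iff.2 (mulVec_ne h'.det_ne hv)
  refine (pd_le_sub (mulVec_ne h.det_ne hv) (mulVec_ne h'.det_ne hv)).trans ?_
  rw [div_le_iff₀ hNv, ← sub_mulVec]
  have h1 := norm_mulVec_le (M - N) v
  have h2 := mul_le_mul_of_nonneg_left (h'.lower v) (en_nonneg (M - N))
  nlinarith

lemma Good.log_det_pert {C : ℝ} {M N : Mat} (h : Good C M) (h' : Good C N) :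
    Real.log ‖M.det‖ - Real.log ‖N.det‖ ≤ 2 * C ^ 2 * en (M - N) := by
  have hM := norm_pos_iff.2 h.det_ne
  have hN := norm_pos_iff.2 h'.det_ne
  have hC := h.pos
  refine (log_sub_le hM hN).trans ?_
  rw [div_le_iff₀ hN]
  have h1 := (norm_sub_norm_le M.det N.det).trans (det_sub_le M N)
  have h2 : en (M - N) * (en M + en N) ≤ en (M - N) * (2 * C) :=
    mul_le_mul_of_nonneg_left (by linarith [h.1, h'.1]) (en_nonneg _)
  have h3 := mul_le_mul_of_nonneg_left h'.2 (show 0 ≤ en (M - N) * (2 * C) from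
    mul_nonneg (en_nonneg _) (by positivity))
  nlinarith

lemma Good.Ph_pert {C : ℝ} {M N : Mat} (h : Good C M) (h' : Good C N) {v : Vec} (hv : v ≠ 0) :
    Ph M v - Ph N v ≤ 2 * C ^ 2 * en (M - N) := by
  have hMv := norm_pos_iff.2 (mulVec_ne h.det_ne hv)
  have hNv := norm_pos_iff.2 (mulVec_ne h'.det_ne hv)
  have h1 := log_sub_le hMv hNv
  have h2 : (‖M *ᵥ v‖ - ‖N *ᵥ v‖) / ‖N *ᵥ v‖ ≤ C ^ 2 * en (M - N) := by
    rw [div_le_iff₀ hNv]
    have a1 := norm_sub_norm_le (M *ᵥ v) (N *ᵥ v)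
    rw [← sub_mulVec] at a1
    have a2 := norm_mulVec_le (M - N) v
    have a3 := mul_le_mul_of_nonneg_left (h'.lower v) (en_nonneg (M - N))
    nlinarith
  have h3 := h'.log_det_pert h
  rw [en_sub_comm] at h3
  unfold Ph
  linarith

lemma Good.pert {C : ℝ} {M N : Mat} (h : Good C M) (hd : en (M - N) ≤ 1 / (8 * C ^ 2)) :
    Good (2 * C) N := by
  have hC := h.pos
  have hC1 := h.one_le
  have h0 : 1 / (8 * C ^ 2) ≤ C := by
    rw [div_le_iff₀ (by positivity)]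
    nlinarith [one_le_pow₀ (n := 2) hC1]
  have h1 : en N ≤ 2 * C := by
    have := en_add M (N - M)
    rw [add_sub_cancel, en_sub_comm] at this
    linarith [h.1]
  refine ⟨h1, ?_⟩
  have h2 := (norm_sub_norm_le M.det N.det).trans (det_sub_le M N)
  have h3 : en (M - N) * (en M + en N) ≤ 1 / (8 * C ^ 2) * (3 * C) :=
    mul_le_mul hd (by linarith [h.1]) (add_nonneg (en_nonneg _) (en_nonneg _)) (by positivity)
  have h4 : C * (1 / (8 * C ^ 2) * (3 * C)) = 3 / 8 := by field_simp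
  have h5 := mul_le_mul_of_nonneg_left (h2.trans h3) hC.le
  have h6 := h.2
  nlinarith

/-- the norm is controlled by the growth of the two basis vectors -/
lemma en_le_basis (M : Mat) :
    en M ≤ 2 * (‖M *ᵥ (Pi.single 0 1)‖ + ‖M *ᵥ (Pi.single 1 1)‖) := by
  have h1 := norm_le_pi_norm (M *ᵥ (Pi.single 0 1)) 0
  have h2 := norm_le_pi_norm (M *ᵥ (Pi.single 0 1)) 1
  have h3 := norm_le_pi_norm (M *ᵥ (Pi.single 1 1)) 0
  have h4 := norm_le_pi_norm (M *ᵥ (Pi.single 1 1)) 1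
  rw [mulVec0] at h1 h3
  rw [mulVec1] at h2 h4
  simp at h1 h2 h3 h4
  unfold en
  simp
  linarith

lemma entry_le_opN (M : Mat) (i j : Fin 2) : ‖M i j‖ ≤ opN M := by
  have h := (toEuclideanCLM (n := Fin 2) (𝕜 := ℂ) M).le_opNorm (EuclideanSpace.single j 1)
  have h2 := PiLp.norm_apply_le ((toEuclideanCLM (n := Fin 2) (𝕜 := ℂ) M) (EuclideanSpace.single j 1)) i
  rw [ofLp_toEuclideanCLM] at h2
  simp at h h2
  exact h2.trans h

lemma en_le_opN (M : Mat) : en M ≤ 4 * opN M := by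
  unfold en
  linarith [entry_le_opN M 0 0, entry_le_opN M 0 1, entry_le_opN M 1 0, entry_le_opN M 1 1]

lemma opN_nonneg (M : Mat) : 0 ≤ opN M := norm_nonneg _

lemma opN_le_en (M : Mat) : opN M ≤ 2 * en M := by
  unfold opN
  refine ContinuousLinearMap.opNorm_le_bound _ (by have := en_nonneg M; positivity) fun x => ?_
  have hx : ‖x.ofLp‖ ≤ ‖x‖ := norm_vec_le (PiLp.norm_apply_le x 0) (PiLp.norm_apply_le x 1)
  have h1 := norm_mulVec_le M x.ofLp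
  set y := (toEuclideanCLM (n := Fin 2) (𝕜 := ℂ) M) x with hy
  have h2 : y.ofLp = M *ᵥ x.ofLp := ofLp_toEuclideanCLM M x
  have h3 : ‖y‖ ≤ 2 * ‖y.ofLp‖ := by
    rw [EuclideanSpace.norm_eq, Fin.sum_univ_two]
    have a := norm_le_pi_norm y.ofLp 0
    have b := norm_le_pi_norm y.ofLp 1
    have c := norm_nonneg (y.ofLp 0)
    have d := norm_nonneg (y.ofLp 1)
    apply Real.sqrt_le_iff.2
    refine ⟨by positivity, ?_⟩
    nlinarith
  rw [h2] at h3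
  have h4 := mul_le_mul_of_nonneg_left hx (en_nonneg M)
  linarith

end H215LE
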