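import Mathlib

/-! Markov additive functionals driven by independent noise. -/

set_option autoImplicit false
open MeasureTheory Filter Topology Set

namespace H215LE

variable {S Y : Type} [MeasurableSpace S] [MeasurableSpace Y]

/-- the path measure -/
noncomputable abbrev PP (P : Measure Y) [IsProbabilityMeasure P] : Measure (ℕ → Y) :=
  Measure.infinitePi (fun _ : ℕ => P)

/-- concatenation of the first `k` letters of `ω` with `ω'` -/
def cat (k : ℕ) (ω ω' : ℕ → Y) : ℕ → Y := fun i => if i < k then ω i else ω' (i - k)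

lemma measurable_cat (k : ℕ) : Measurable (fun p : (ℕ → Y) × (ℕ → Y) => cat k p.1 p.2) := by
  refine measurable_pi_lambda _ fun i => ?_
  unfold cat
  by_cases h : i < k
  · simp only [h, if_true]; fun_prop
  · simp only [h, if_false]; fun_prop

lemma mp_cat (P : Measure Y) [IsProbabilityMeasure P] (k : ℕ) :
    MeasurePreserving (fun p : (ℕ → Y) × (ℕ → Y) => cat k p.1 p.2) ((PP P).prod (PP P)) (PP P) := by
  refine ⟨measurable_cat k, ?_⟩
  apply Measure.eq_infinitePi
  intro s t ht
  classical
  have hinj : Set.InjOn (fun j : ℕ => j + k) ((fun j : ℕ => j + k) ⁻¹' (s : Set ℕ)) :=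
    fun a _ b _ h => by simpa using h
  rw [Measure.map_apply (measurable_cat k) (MeasurableSet.pi s.countable_toSet fun i _ => ht i)]
  have : (fun p : (ℕ → Y) × (ℕ → Y) => cat k p.1 p.2) ⁻¹' (Set.pi s t) =
      (Set.pi (s.filter (· < k) : Finset ℕ) t) ×ˢ
        (Set.pi (s.preimage (fun j => j + k) hinj : Finset ℕ) (fun j => t (j + k))) := by
    ext p
    simp only [Set.mem_preimage, Set.mem_pi, Finset.mem_coe, Set.mem_prod, Finset.mem_filter,
      Finset.mem_preimage, cat]
    constructor
    · intro h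
      refine ⟨fun i hi => ?_, fun j hj => ?_⟩
      · have := h i hi.1
        rwa [if_pos hi.2] at this
      · have := h (j + k) hj
        rwa [if_neg (by omega), Nat.add_sub_cancel] at this
    · rintro ⟨h1, h2⟩ i hi
      by_cases h : i < k
      · rw [if_pos h]; exact h1 i ⟨hi, h⟩
      · rw [if_neg h]
        have := h2 (i - k) (by rwa [Nat.sub_add_cancel (by omega)])
        rwa [Nat.sub_add_cancel (by omega)] at this
  rw [this, Measure.prod_prod, Measure.infinitePi_pi _ (fun i _ => ht i),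
    Measure.infinitePi_pi _ (fun i _ => ht _)]
  have e : ∏ j ∈ s.preimage (fun j => j + k) hinj, P (t (j + k)) =
      ∏ i ∈ s.filter (fun i => ¬ i < k), P (t i) := by
    refine Finset.prod_bij (fun j _ => j + k) ?_ ?_ ?_ (fun _ _ => rfl)
    · intro j hj
      simp only [Finset.mem_preimage] at hj
      simp only [Finset.mem_filter]
      exact ⟨hj, by omega⟩
    · intro a _ b _ h; omega
    · intro i hi
      simp only [Finset.mem_filter] at hi
      refine ⟨i - k, ?_, by omega⟩
      simp only [Finset.mem_preimage]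
      rw [Nat.sub_add_cancel (by omega)]; exact hi.1
  rw [e, Finset.prod_filter_mul_prod_filter_not]

/-- a Markov additive functional -/
structure MAF (S Y : Type) [MeasurableSpace S] [MeasurableSpace Y] where
  τ : S → Y → S
  φ : S → Y → ℝ
  C : ℝ
  mτ : Measurable (fun p : S × Y => τ p.1 p.2)
  mφ : Measurable (fun p : S × Y => φ p.1 p.2)
  bd : ∀ s y, |φ s y| ≤ C
  hC : 0 ≤ C

namespace MAF
variable (F : MAF S Y)

def traj : ℕ → S → (ℕ → Y) → S
  | 0, s, _ => s
  | n + 1, s, ω => F.τ (traj n s ω) (ω n)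

noncomputable def psum (n : ℕ) (s : S) (ω : ℕ → Y) : ℝ :=
  ∑ k ∈ Finset.range n, F.φ (F.traj k s ω) (ω k)

lemma measurable_traj (n : ℕ) : Measurable (fun p : S × (ℕ → Y) => F.traj n p.1 p.2) := by
  induction n with
  | zero => exact measurable_fst
  | succ n ih =>
    have h2 : Measurable (fun p : S × (ℕ → Y) => p.2 n) := by fun_prop
    exact F.mτ.comp (ih.prodMk h2)

lemma measurable_psum (n : ℕ) : Measurable (fun p : S × (ℕ → Y) => F.psum n p.1 p.2) := by
  unfold psum
  refine Finset.measurable_sum _ fun k _ => ?_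
  have h2 : Measurable (fun p : S × (ℕ → Y) => p.2 k) := by fun_prop
  exact F.mφ.comp ((F.measurable_traj k).prodMk h2)

lemma measurable_traj' (n : ℕ) (s : S) : Measurable (fun ω : ℕ → Y => F.traj n s ω) :=
  (F.measurable_traj n).comp (measurable_const.prodMk measurable_id)

lemma measurable_psum' (n : ℕ) (s : S) : Measurable (fun ω : ℕ → Y => F.psum n s ω) :=
  (F.measurable_psum n).comp (measurable_const.prodMk measurable_id)

lemma psum_bd (n : ℕ) (s : S) (ω : ℕ → Y) : |F.psum n s ω| ≤ n * F.C := by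
  unfold psum
  refine (Finset.abs_sum_le_sum_abs _ _).trans ?_
  refine (Finset.sum_le_sum fun k _ => F.bd _ _).trans ?_
  simp

lemma traj_cat_le {k n : ℕ} (h : n ≤ k) (s : S) (ω ω' : ℕ → Y) :
    F.traj n s (cat k ω ω') = F.traj n s ω := by
  induction n with
  | zero => rfl
  | succ n ih =>
    simp only [traj]
    rw [ih (by omega)]
    simp [cat, show n < k by omega]

lemma traj_cat (k j : ℕ) (s : S) (ω ω' : ℕ → Y) :
    F.traj (k + j) s (cat k ω ω') = F.traj j (F.traj k s ω) ω' := by
  induction j with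
  | zero => exact F.traj_cat_le le_rfl s ω ω'
  | succ j ih =>
    show F.τ (F.traj (k + j) s (cat k ω ω')) (cat k ω ω' (k + j)) = _
    rw [ih]
    simp [cat, traj]

lemma psum_cat (k j : ℕ) (s : S) (ω ω' : ℕ → Y) :
    F.psum (k + j) s (cat k ω ω') = F.psum k s ω + F.psum j (F.traj k s ω) ω' := by
  unfold psum
  rw [Finset.sum_range_add]
  congr 1
  · refine Finset.sum_congr rfl fun i hi => ?_
    have hi' := Finset.mem_range.1 hi
    rw [F.traj_cat_le hi'.le]
    simp [cat, hi']
  · refine Finset.sum_congr rfl fun i _ => ?_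
    rw [F.traj_cat]
    simp [cat]

end MAF

lemma integrable_of_bd {Ω : Type} [MeasurableSpace Ω] {μ : Measure Ω} [IsFiniteMeasure μ]
    {f : Ω → ℝ} (hf : Measurable f) {K : ℝ} (hK : ∀ x, |f x| ≤ K) : Integrable f μ :=
  Integrable.of_bound hf.aestronglyMeasurable K (Eventually.of_forall hK)

lemma abs_integral_le_of_bd {Ω : Type} [MeasurableSpace Ω] {μ : Measure Ω} [IsProbabilityMeasure μ]
    {f : Ω → ℝ} {K : ℝ} (hK : ∀ x, |f x| ≤ K) : |∫ x, f x ∂μ| ≤ K := by
  have := norm_integral_le_of_norm_le_const (μ := μ) (f := f) (C := K) (Eventually.of_forall hK)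
  simpa using this

lemma integral_le_of_le {Ω : Type} [MeasurableSpace Ω] {μ : Measure Ω} [IsProbabilityMeasure μ]
    {f : Ω → ℝ} (hf : Integrable f μ) {K : ℝ} (hK : ∀ x, f x ≤ K) : ∫ x, f x ∂μ ≤ K := by
  have := integral_mono hf (integrable_const K) hK
  simpa using this

lemma le_integral_of_le {Ω : Type} [MeasurableSpace Ω] {μ : Measure Ω} [IsProbabilityMeasure μ]
    {f : Ω → ℝ} (hf : Integrable f μ) {K : ℝ} (hK : ∀ x, K ≤ f x) : K ≤ ∫ x, f x ∂μ := by
  have := integral_mono (integrable_const K) hf hK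
  simpa using this

/-- splitting an expectation at time `k` -/
lemma integral_split (P : Measure Y) [IsProbabilityMeasure P] (k : ℕ) {f : (ℕ → Y) → ℝ}
    (hf : Measurable f) {K : ℝ} (hK : ∀ ω, |f ω| ≤ K) :
    ∫ ω, f ω ∂(PP P) = ∫ ω, ∫ ω', f (cat k ω ω') ∂(PP P) ∂(PP P) := by
  have h1 : ∫ ω, f ω ∂(PP P) = ∫ p, f (cat k p.1 p.2) ∂((PP P).prod (PP P)) := by
    conv_lhs => rw [← (mp_cat P k).map_eq]
    rw [integral_map (measurable_cat k).aemeasurable hf.aestronglyMeasurable]
  rw [h1, integral_prod]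
  exact integrable_of_bd (hf.comp (measurable_cat k)) (fun p => hK _)

lemma integral_eval0 (P : Measure Y) [IsProbabilityMeasure P] (i : ℕ) {f : Y → ℝ}
    (hf : Measurable f) : ∫ ω, f (ω i) ∂(PP P) = ∫ y, f y ∂P := by
  have h := measurePreserving_eval_infinitePi (fun _ : ℕ => P) i
  conv_rhs => rw [← h.map_eq]
  rw [integral_map h.measurable.aemeasurable hf.aestronglyMeasurable]

namespace MAF
variable (F : MAF S Y) (P : Measure Y) [IsProbabilityMeasure P]

/-- expected sum -/
noncomputable def G (n : ℕ) (s : S) : ℝ := ∫ ω, F.psum n s ω ∂(PP P)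

lemma measurable_G (n : ℕ) : Measurable (F.G P n) :=
  ((F.measurable_psum n).stronglyMeasurable.integral_prod_right' (ν := PP P)).measurable

lemma G_bd (n : ℕ) (s : S) : |F.G P n s| ≤ n * F.C :=
  abs_integral_le_of_bd (F.psum_bd n s)

lemma int_psum (n : ℕ) (s : S) : Integrable (F.psum n s) (PP P) :=
  integrable_of_bd (F.measurable_psum' n s) (F.psum_bd n s)

lemma int_G_traj (k j : ℕ) (s : S) : Integrable (fun ω => F.G P j (F.traj k s ω)) (PP P) :=
  integrable_of_bd ((F.measurable_G P j).comp (F.measurable_traj' k s)) (fun _ => F.G_bd P j _)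

lemma G_zero (s : S) : F.G P 0 s = 0 := by simp [G, psum]

lemma G_add (k j : ℕ) (s : S) :
    F.G P (k + j) s = F.G P k s + ∫ ω, F.G P j (F.traj k s ω) ∂(PP P) := by
  conv_lhs => unfold G
  rw [integral_split P k (F.measurable_psum' _ s) (F.psum_bd _ s)]
  simp_rw [F.psum_cat]
  rw [show F.G P k s = ∫ ω, F.psum k s ω ∂(PP P) from rfl,
    ← integral_add (F.int_psum P k s) (F.int_G_traj P k j s)]
  refine integral_congr_ae (Eventually.of_forall fun ω => ?_)
  simp only
  rw [integral_add (integrable_const _) (F.int_psum P j _)]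
  simp [G]

lemma mφ' (s : S) : Measurable (F.φ s) := F.mφ.comp (measurable_const.prodMk measurable_id)
lemma mτ' (s : S) : Measurable (F.τ s) := F.mτ.comp (measurable_const.prodMk measurable_id)

lemma G_one (s : S) : F.G P 1 s = ∫ y, F.φ s y ∂P := by
  rw [← integral_eval0 P 0 (F.mφ' s)]
  simp [G, psum, traj]

lemma G_succ (n : ℕ) (s : S) : F.G P (n + 1) s = F.G P 1 s + ∫ y, F.G P n (F.τ s y) ∂P := by
  rw [add_comm n 1, G_add, ← integral_eval0 P 0 (f := fun y => F.G P n (F.τ s y))
    ((F.measurable_G P n).comp (F.mτ' s))]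
  rfl

lemma int_G_τ (n : ℕ) (s : S) : Integrable (fun y => F.G P n (F.τ s y)) P :=
  integrable_of_bd ((F.measurable_G P n).comp (F.mτ' s)) (fun _ => F.G_bd P n _)

lemma int_φ (s : S) : Integrable (F.φ s) P := integrable_of_bd (F.mφ' s) (F.bd s)

/-- the supremum of the expected sums -/
noncomputable def M (n : ℕ) : ℝ := ⨆ s, F.G P n s

lemma bddM (n : ℕ) : BddAbove (range (F.G P n)) :=
  ⟨n * F.C, by rintro _ ⟨s, rfl⟩; exact (le_abs_self _).trans (F.G_bd P n s)⟩

lemma G_le_M (n : ℕ) (s : S) : F.G P n s ≤ F.M P n := le_ciSup (F.bddM P n) s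

variable [Nonempty S]

lemma M_le {n : ℕ} {b : ℝ} (h : ∀ s, F.G P n s ≤ b) : F.M P n ≤ b := ciSup_le h

lemma M_bd (n : ℕ) : |F.M P n| ≤ n * F.C := by
  rw [abs_le]
  obtain ⟨s⟩ := ‹Nonempty S›
  exact ⟨(abs_le.1 (F.G_bd P n s)).1.trans (F.G_le_M P n s),
    F.M_le P fun s => (abs_le.1 (F.G_bd P n s)).2⟩

lemma subadd : Subadditive (F.M P) := by
  intro k j
  refine F.M_le P fun s => ?_
  rw [G_add]
  exact add_le_add (F.G_le_M P k s)
    (integral_le_of_le (F.int_G_traj P k j s) fun ω => F.G_le_M P j _)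

lemma bddBelow_M : BddBelow (range fun n : ℕ => F.M P n / n) := by
  refine ⟨-F.C, ?_⟩
  rintro _ ⟨n, rfl⟩
  rcases Nat.eq_zero_or_pos n with h | h
  · subst h; simpa using F.hC
  · have hn : (0 : ℝ) < n := by exact_mod_cast h
    simp only
    rw [le_div_iff₀ hn]
    have := (abs_le.1 (F.M_bd P n)).1
    linarith

/-- the maximal growth rate -/
noncomputable def β : ℝ := (F.subadd P).lim

lemma β_le (n : ℕ) : n * F.β P ≤ F.M P n := by
  rcases Nat.eq_zero_or_pos n with h | h
  · subst h
    have := (abs_le.1 (F.M_bd P 0)).1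
    simpa using this
  · have hn : (0 : ℝ) < n := by exact_mod_cast h
    have := (F.subadd P).lim_le_div (F.bddBelow_M P) h.ne'
    rw [le_div_iff₀ hn] at this
    unfold β; linarith

lemma tendsto_M : Tendsto (fun n : ℕ => F.M P n / n) atTop (𝓝 (F.β P)) :=
  (F.subadd P).tendsto_lim (F.bddBelow_M P)

lemma eventually_M_le {ε : ℝ} (hε : 0 < ε) : ∀ᶠ n : ℕ in atTop, F.M P n ≤ n * (F.β P + ε) := by
  filter_upwards [(F.tendsto_M P).eventually (gt_mem_nhds (lt_add_of_pos_right _ hε)),
    eventually_gt_atTop 0] with n h1 h2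
  have hn : (0 : ℝ) < n := by exact_mod_cast h2
  rw [div_lt_iff₀ hn] at h1
  linarith

lemma β_bd : |F.β P| ≤ F.C := by
  rw [abs_le]
  constructor
  · refine ge_of_tendsto (F.tendsto_M P) ?_
    filter_upwards [eventually_gt_atTop 0] with n h2
    have hn : (0 : ℝ) < n := by exact_mod_cast h2
    rw [le_div_iff₀ hn]
    have := (abs_le.1 (F.M_bd P n)).1
    linarith
  · have h1 := F.β_le P 1
    have h2 := (abs_le.1 (F.M_bd P 1)).2
    simp only [Nat.cast_one, one_mul] at h1 h2
    linarith

/-- an upper bound for `β` from an eventual linear bound -/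
lemma β_le_of {b : ℝ} (h : ∀ ε > 0, ∀ᶠ n : ℕ in atTop, F.M P n ≤ n * (b + ε)) : F.β P ≤ b := by
  refine le_of_forall_pos_le_add fun ε hε => ?_
  obtain ⟨n, h1, h2⟩ := ((h ε hε).and (eventually_gt_atTop 0)).exists
  have hn : (0 : ℝ) < n := by exact_mod_cast h2
  have := (F.β_le P n).trans h1
  exact le_of_mul_le_mul_left this hn

/-- exponential moments -/
lemma expTail {ε : ℝ} (hε : 0 < ε) : ∃ θ : ℝ, 0 < θ ∧ ∀ n s,
    ∫ ω, Real.exp (θ * (F.psum n s ω - n * (F.β P + ε))) ∂(PP P) ≤ 3 := by
  obtain ⟨m, hm1, hm2⟩ := ((F.eventually_M_le P (half_pos hε)).and (eventually_gt_atTop 0)).exists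
  set b := F.β P + ε / 2 with hb
  set D : ℝ := m * (F.C + |b|) + 1 with hD
  have hm : (1 : ℝ) ≤ m := by exact_mod_cast hm2
  have hCb : 0 ≤ F.C + |b| := add_nonneg F.hC (abs_nonneg _)
  have hD1 : 1 ≤ D := by have : 0 ≤ (m : ℝ) * (F.C + |b|) := by positivity
                         linarith
  have hD0 : 0 < D := by linarith
  set θ : ℝ := min (1 / D) (ε / 2 / D ^ 2) with hθ
  have hθ0 : 0 < θ := lt_min (by positivity) (by positivity)
  have hθ1 : θ * D ≤ 1 := by
    have := min_le_left (1 / D) (ε / 2 / D ^ 2)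
    rw [← hθ, le_div_iff₀ hD0] at this
    exact this
  have hθ2 : θ * D ^ 2 ≤ ε / 2 := by
    have := min_le_right (1 / D) (ε / 2 / D ^ 2)
    rw [← hθ, le_div_iff₀ (by positivity)] at this
    exact this
  have hbd : ∀ n : ℕ, n ≤ m → ∀ s ω, |F.psum n s ω - n * b| ≤ D := by
    intro n hn s ω
    have h1 := F.psum_bd n s ω
    have h2 : |(n : ℝ) * b| = n * |b| := by rw [abs_mul, Nat.abs_cast]
    have h3 := abs_sub (F.psum n s ω) (n * b)
    have h4 : (n : ℝ) * (F.C + |b|) ≤ m * (F.C + |b|) :=
      mul_le_mul_of_nonneg_right (by exact_mod_cast hn) hCb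
    linarith
  have hmeas : ∀ n s (c : ℝ), Measurable fun ω => Real.exp (θ * (F.psum n s ω - c)) := by
    intro n s c
    have := F.measurable_psum' n s
    fun_prop
  have hbd2 : ∀ n s (c : ℝ) ω, |Real.exp (θ * (F.psum n s ω - c))| ≤
      Real.exp (θ * (n * F.C - c)) := by
    intro n s c ω
    rw [abs_of_pos (Real.exp_pos _)]
    have := (abs_le.1 (F.psum_bd n s ω)).2
    exact Real.exp_le_exp.2 (mul_le_mul_of_nonneg_left (by linarith) hθ0.le)
  have hint : ∀ n s (c : ℝ), Integrable (fun ω => Real.exp (θ * (F.psum n s ω - c))) (PP P) :=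
    fun n s c => integrable_of_bd (hmeas n s c) (hbd2 n s c)
  have hblock : ∀ s, ∫ ω, Real.exp (θ * (F.psum m s ω - m * (F.β P + ε))) ∂(PP P) ≤ 1 := by
    intro s
    have h1 : ∀ ω, Real.exp (θ * (F.psum m s ω - m * (F.β P + ε))) ≤
        Real.exp (-(θ * (ε / 2))) * (1 + θ * (ε / 2) + θ * (F.psum m s ω - m * b)) := by
      intro ω
      have hx := hbd m le_rfl s ω
      set x := F.psum m s ω - m * b with hx'
      have hx1 : |θ * x| ≤ 1 := by
        rw [abs_mul, abs_of_pos hθ0]
        exact (mul_le_mul_of_nonneg_left hx hθ0.le).trans hθ1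
      have h2 := Real.abs_exp_sub_one_sub_id_le hx1
      have h3 : (θ * x) ^ 2 ≤ θ * (ε / 2) := by
        have : x ^ 2 ≤ D ^ 2 := by
          rw [← sq_abs x]; exact pow_le_pow_left₀ (abs_nonneg _) hx 2
        calc (θ * x) ^ 2 = θ * (θ * x ^ 2) := by ring
          _ ≤ θ * (θ * D ^ 2) := by gcongr
          _ ≤ θ * (ε / 2) := by gcongr
      have h4 : Real.exp (θ * x) ≤ 1 + θ * (ε / 2) + θ * x := by
        have := (abs_le.1 h2).2
        linarith
      have h5 : θ * (F.psum m s ω - m * (F.β P + ε)) ≤ -(θ * (ε / 2)) + θ * x := by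
        have : θ * (ε / 2) ≤ θ * (m * (ε / 2)) := by
          apply mul_le_mul_of_nonneg_left _ hθ0.le
          nlinarith
        have e : θ * (F.psum m s ω - m * (F.β P + ε)) = θ * x - θ * (m * (ε / 2)) := by
          rw [hx', hb]; ring
        linarith
      calc _ ≤ Real.exp (-(θ * (ε / 2)) + θ * x) := Real.exp_le_exp.2 h5
        _ = Real.exp (-(θ * (ε / 2))) * Real.exp (θ * x) := Real.exp_add _ _
        _ ≤ _ := mul_le_mul_of_nonneg_left h4 (Real.exp_pos _).le
    have hi : Integrable (fun ω => θ * (F.psum m s ω - m * b)) (PP P) :=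
      ((F.int_psum P m s).sub (integrable_const _)).const_mul θ
    have hi2 : Integrable (fun ω => Real.exp (-(θ * (ε / 2))) *
        (1 + θ * (ε / 2) + θ * (F.psum m s ω - m * b))) (PP P) :=
      ((integrable_const _).add hi).const_mul _
    refine (integral_mono (hint m s _) hi2 h1).trans ?_
    rw [integral_const_mul, integral_add (integrable_const _) hi, integral_const_mul,
      integral_sub (F.int_psum P m s) (integrable_const _)]
    simp only [integral_const, probReal_univ, smul_eq_mul, one_mul]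
    have h6 : ∫ ω, F.psum m s ω ∂(PP P) - m * b ≤ 0 := by
      have := (F.G_le_M P m s).trans hm1
      unfold G at this
      linarith
    have h7 : θ * (∫ ω, F.psum m s ω ∂(PP P) - m * b) ≤ 0 := mul_nonpos_of_nonneg_of_nonpos hθ0.le h6
    have h8 : 1 + θ * (ε / 2) ≤ Real.exp (θ * (ε / 2)) := by
      have := Real.add_one_le_exp (θ * (ε / 2)); linarith
    calc _ ≤ Real.exp (-(θ * (ε / 2))) * Real.exp (θ * (ε / 2)) :=
          mul_le_mul_of_nonneg_left (by linarith) (Real.exp_pos _).le
      _ = 1 := by rw [← Real.exp_add]; simp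
  refine ⟨θ, hθ0, fun n => ?_⟩
  induction n using Nat.strong_induction_on with
  | _ n ih =>
    intro s
    rcases lt_or_ge n m with h | h
    · refine integral_le_of_le (hint n s _) fun ω => ?_
      have h1 := (abs_le.1 (hbd n h.le s ω)).2
      have h2 : (0 : ℝ) ≤ n * (ε / 2) := by positivity
      have h3 : θ * (F.psum n s ω - n * (F.β P + ε)) ≤ 1 := by
        refine le_trans (mul_le_mul_of_nonneg_left ?_ hθ0.le) hθ1
        have e : F.psum n s ω - n * (F.β P + ε) = F.psum n s ω - n * b - n * (ε / 2) := by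
          rw [hb]; ring
        linarith
      exact (Real.exp_le_exp.2 h3).trans Real.exp_one_lt_three.le
    · obtain ⟨j, rfl⟩ := Nat.exists_eq_add_of_le h
      rw [integral_split P m (hmeas _ s _) (hbd2 _ s _)]
      have h1 : ∀ ω, ∫ ω', Real.exp (θ * (F.psum (m + j) s (cat m ω ω') -
          ((m + j : ℕ) : ℝ) * (F.β P + ε))) ∂(PP P) ≤
          3 * Real.exp (θ * (F.psum m s ω - m * (F.β P + ε))) := by
        intro ω
        have e : ∀ ω', Real.exp (θ * (F.psum (m + j) s (cat m ω ω') -
            ((m + j : ℕ) : ℝ) * (F.β P + ε))) =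
            Real.exp (θ * (F.psum m s ω - m * (F.β P + ε))) *
              Real.exp (θ * (F.psum j (F.traj m s ω) ω' - j * (F.β P + ε))) := by
          intro ω'
          rw [F.psum_cat, ← Real.exp_add]
          congr 1
          push_cast; ring
        simp_rw [e]
        rw [integral_const_mul, mul_comm]
        exact mul_le_mul_of_nonneg_right (ih j (by omega) _) (Real.exp_pos _).le
      refine (integral_mono_of_nonneg (Eventually.of_forall fun ω => integral_nonneg fun _ =>
        (Real.exp_pos _).le) ((hint m s _).const_mul 3) (Eventually.of_forall h1)).trans ?_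
      rw [integral_const_mul]
      have := hblock s
      linarith

/-- upper tail -/
lemma upperTail {ε : ℝ} (hε : 0 < ε) : ∃ θ : ℝ, 0 < θ ∧ ∀ (n : ℕ) s,
    (PP P).real {ω | n * (F.β P + ε) ≤ F.psum n s ω} ≤ 3 * Real.exp (-θ) ^ n := by
  obtain ⟨θ, hθ, h⟩ := F.expTail P (half_pos hε)
  refine ⟨θ * (ε / 2), by positivity, fun n s => ?_⟩
  have hm := F.measurable_psum' n s
  have hset : MeasurableSet {ω | n * (F.β P + ε) ≤ F.psum n s ω} :=
    measurableSet_le measurable_const hm
  rw [← integral_indicator_one hset]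
  have hint : Integrable (fun ω => Real.exp (θ * (F.psum n s ω - n * (F.β P + ε / 2)))) (PP P) := by
    refine integrable_of_bd (by fun_prop) (K := Real.exp (θ * (n * F.C - n * (F.β P + ε / 2))))
      fun ω => ?_
    rw [abs_of_pos (Real.exp_pos _)]
    have := (abs_le.1 (F.psum_bd n s ω)).2
    exact Real.exp_le_exp.2 (mul_le_mul_of_nonneg_left (by linarith) hθ.le)
  have h1 : ∀ ω, indicator {ω | n * (F.β P + ε) ≤ F.psum n s ω} (1 : (ℕ → Y) → ℝ) ω ≤
      Real.exp (-(θ * (ε / 2))) ^ n *
        Real.exp (θ * (F.psum n s ω - n * (F.β P + ε / 2))) := by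
    intro ω
    by_cases hω : ω ∈ {ω | n * (F.β P + ε) ≤ F.psum n s ω}
    · rw [indicator_of_mem hω, ← Real.exp_nat_mul, ← Real.exp_add]
      simp only [Pi.one_apply]
      apply Real.one_le_exp
      have h2 : n * (F.β P + ε) ≤ F.psum n s ω := hω
      nlinarith
    · rw [indicator_of_notMem hω]; positivity
  refine (integral_mono ((integrable_const (1 : ℝ)).indicator hset) (hint.const_mul _) h1).trans ?_
  rw [integral_const_mul, mul_comm]
  exact mul_le_mul_of_nonneg_right (h n s) (by positivity)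

lemma upperTail' {ε ρ : ℝ} (hε : 0 < ε) (hρ : 0 < ρ) : ∀ᶠ n : ℕ in atTop, ∀ s,
    (PP P).real {ω | n * (F.β P + ε) ≤ F.psum n s ω} ≤ ρ := by
  obtain ⟨θ, hθ, h⟩ := F.upperTail P hε
  have h1 : Tendsto (fun n : ℕ => 3 * Real.exp (-θ) ^ n) atTop (𝓝 (3 * 0)) :=
    (tendsto_pow_atTop_nhds_zero_of_lt_one (Real.exp_pos _).le
      (by rw [Real.exp_lt_one_iff]; linarith)).const_mul 3
  rw [mul_zero] at h1
  filter_upwards [h1.eventually (gt_mem_nhds hρ)] with n hn s
  exact (h n s).trans hn.le

/-- concentration for calibrated points -/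
lemma conc {η ρ : ℝ} (c : ℝ) (hη : 0 < η) (hρ : 0 < ρ) : ∀ᶠ k : ℕ in atTop, ∀ s,
    k * F.β P - c ≤ F.G P k s → (PP P).real {ω | F.psum k s ω ≤ k * (F.β P - η)} ≤ ρ := by
  set δ := η * ρ / 2 with hδ
  have hδ0 : 0 < δ := by positivity
  obtain ⟨θ, hθ, h⟩ := F.expTail P hδ0
  have h0 : Tendsto (fun k : ℕ => (k : ℝ) * δ) atTop atTop :=
    tendsto_natCast_atTop_atTop.atTop_mul_const hδ0
  filter_upwards [h0.eventually_ge_atTop (c + 3 / θ), eventually_gt_atTop 0] with k hk hk0 s hs
  have hkp : (0 : ℝ) < k := by exact_mod_cast hk0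
  have hm := F.measurable_psum' k s
  have hset : MeasurableSet {ω | F.psum k s ω ≤ k * (F.β P - η)} :=
    measurableSet_le hm measurable_const
  have hint : Integrable (fun ω => Real.exp (θ * (F.psum k s ω - k * (F.β P + δ)))) (PP P) := by
    refine integrable_of_bd (by fun_prop) (K := Real.exp (θ * (k * F.C - k * (F.β P + δ))))
      fun ω => ?_
    rw [abs_of_pos (Real.exp_pos _)]
    have := (abs_le.1 (F.psum_bd k s ω)).2
    exact Real.exp_le_exp.2 (mul_le_mul_of_nonneg_left (by linarith) hθ.le)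
  have h1 : ∀ ω, (k * η) * indicator {ω | F.psum k s ω ≤ k * (F.β P - η)} (1 : (ℕ → Y) → ℝ) ω ≤
      (k * (F.β P + δ) - F.psum k s ω) +
        θ⁻¹ * Real.exp (θ * (F.psum k s ω - k * (F.β P + δ))) := by
    intro ω
    have hx := Real.add_one_le_exp (θ * (F.psum k s ω - k * (F.β P + δ)))
    have hx2 : F.psum k s ω - k * (F.β P + δ) ≤
        θ⁻¹ * Real.exp (θ * (F.psum k s ω - k * (F.β P + δ))) := by
      rw [← div_eq_inv_mul, le_div_iff₀ hθ]; linarith
    by_cases hω : ω ∈ {ω | F.psum k s ω ≤ k * (F.β P - η)}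
    · rw [indicator_of_mem hω]
      have h2 : F.psum k s ω ≤ k * (F.β P - η) := hω
      have h3 : 0 ≤ θ⁻¹ * Real.exp (θ * (F.psum k s ω - k * (F.β P + δ))) := by positivity
      have h4 : 0 ≤ (k : ℝ) * δ := by positivity
      simp only [Pi.one_apply]
      linarith
    · rw [indicator_of_notMem hω]; linarith
  have hi1 : Integrable (fun ω => (k * η) *
      indicator {ω | F.psum k s ω ≤ k * (F.β P - η)} (1 : (ℕ → Y) → ℝ) ω) (PP P) :=
    ((integrable_const (1 : ℝ)).indicator hset).const_mul _
  have hi2 : Integrable (fun ω => k * (F.β P + δ) - F.psum k s ω) (PP P) :=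
    (integrable_const _).sub (F.int_psum P k s)
  have hi3 : Integrable (fun ω => (k * (F.β P + δ) - F.psum k s ω) +
        θ⁻¹ * Real.exp (θ * (F.psum k s ω - k * (F.β P + δ)))) (PP P) := hi2.add (hint.const_mul _)
  have h2 := integral_mono hi1 hi3 h1
  rw [integral_const_mul, integral_indicator_one hset, integral_add hi2 (hint.const_mul _),
    integral_const_mul, integral_sub (integrable_const _) (F.int_psum P k s)] at h2
  simp only [integral_const, probReal_univ, smul_eq_mul, one_mul] at h2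
  have h3 : θ⁻¹ * ∫ ω, Real.exp (θ * (F.psum k s ω - k * (F.β P + δ))) ∂(PP P) ≤ 3 / θ := by
    rw [div_eq_inv_mul]
    exact mul_le_mul_of_nonneg_left (h k s) (by positivity)
  have h4 : (k * η) * (PP P).real {ω | F.psum k s ω ≤ k * (F.β P - η)} ≤ (k * η) * ρ := by
    unfold G at hs
    have e : (k : ℝ) * η * ρ = 2 * (k * δ) := by rw [hδ]; ring
    linarith
  exact le_of_mul_le_mul_left h4 (by positivity)

/-- calibrated points lie above a set of large measure -/
lemma calib (π : S → Y) (hπ : ∀ s y, π (F.τ s y) = y) {n : ℕ} (hn : 1 ≤ n) {c : ℝ} (hc : 0 < c)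
    {Y' : Set Y} (hY' : MeasurableSet Y')
    (hsub : ∀ s, (∀ k, 1 ≤ k → k ≤ n → k * F.β P - c ≤ F.G P k s) → π s ∈ Y') :
    c ≤ (c + 2 * F.C) * P.real Y' := by
  by_contra hcon
  push Not at hcon
  set δ := c - (c + 2 * F.C) * P.real Y' with hδ
  have hδ0 : 0 < δ := by linarith
  have hn' : (0 : ℝ) < n := by exact_mod_cast hn
  have hβ := abs_le.1 (F.β_bd P)
  have hC := F.hC
  set W : ℕ → S → ℝ := fun T s => F.G P (T + 1) s - F.G P 1 s - T * F.β P with hW
  set f : ℕ → ℝ := fun T => 2 * F.C * n + δ - δ * (T / n) with hf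
  have hWm : ∀ T, Measurable (W T) := fun T =>
    ((F.measurable_G P _).sub (F.measurable_G P _)).sub measurable_const
  have hWe : ∀ T s, W T s = ∫ y, F.G P T (F.τ s y) ∂P - T * F.β P := by
    intro T s
    simp only [hW]; rw [F.G_succ]; ring
  have hWb : ∀ T s, |W T s| ≤ 2 * F.C * T := by
    intro T s
    rw [hWe]
    have h1 : |∫ y, F.G P T (F.τ s y) ∂P| ≤ T * F.C := abs_integral_le_of_bd fun y => F.G_bd P T _
    have h2 : |(T : ℝ) * F.β P| ≤ T * F.C := by
      rw [abs_mul, Nat.abs_cast]
      exact mul_le_mul_of_nonneg_left (F.β_bd P) (Nat.cast_nonneg _)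
    have := abs_sub (∫ y, F.G P T (F.τ s y) ∂P) (T * F.β P)
    linarith
  have hsplit : ∀ k T s, F.G P (k + 1 + T) s =
      F.G P (k + 1) s + ∫ ω, W T (F.traj k s ω) ∂(PP P) + T * F.β P := by
    intro k T s
    rw [show k + 1 + T = k + (T + 1) by ring, F.G_add, F.G_add P k 1]
    simp only [hW]
    have hi : Integrable (fun ω => F.G P (T + 1) (F.traj k s ω) - F.G P 1 (F.traj k s ω)) (PP P) :=
      (F.int_G_traj P k _ s).sub (F.int_G_traj P k _ s)
    rw [integral_sub hi (integrable_const _),
      integral_sub (F.int_G_traj P k _ s) (F.int_G_traj P k _ s)]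
    simp only [integral_const, probReal_univ, smul_eq_mul, one_mul]
    ring
  have key : ∀ T s, W T s ≤ f T := by
    intro T
    induction T using Nat.strong_induction_on with
    | _ T ih =>
      intro s
      rcases lt_or_ge T n with h | h
      · have h1 := (abs_le.1 (hWb T s)).2
        have h2 : (T : ℝ) ≤ n := by exact_mod_cast h.le
        have h3 : (T : ℝ) / n ≤ 1 := by rw [div_le_one hn']; exact h2
        have h4 : δ * (T / n) ≤ δ := by nlinarith
        have h5 : 2 * F.C * T ≤ 2 * F.C * n := by gcongr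
        simp only [hf]; linarith
      · have hstep : ∀ k, k + 1 ≤ n → ∀ s', F.G P T s' - T * F.β P ≤
            F.G P (k + 1) s' - (k + 1 : ℕ) * F.β P + (f T + δ) := by
          intro k hk s'
          obtain ⟨T', rfl⟩ : ∃ T', T = k + 1 + T' := ⟨T - (k + 1), by omega⟩
          rw [hsplit]
          have h1 : ∫ ω, W T' (F.traj k s' ω) ∂(PP P) ≤ f T' :=
            integral_le_of_le (integrable_of_bd ((hWm T').comp (F.measurable_traj' k s'))
              (fun ω => hWb T' _)) fun ω => ih T' (by omega) _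
          have h2 : f T' ≤ f (k + 1 + T') + δ := by
            simp only [hf]
            have h3 : ((k + 1 + T' : ℕ) : ℝ) / n ≤ T' / n + 1 := by
              rw [div_add_one hn'.ne', div_le_div_iff_of_pos_right hn']
              have : ((k + 1 : ℕ) : ℝ) ≤ n := by exact_mod_cast hk
              push_cast at this ⊢; linarith
            nlinarith
          push_cast at *
          linarith
        have hpt : ∀ y, F.G P T (F.τ s y) ≤ T * F.β P + (f T + δ) - c +
            (c + 2 * F.C) * indicator Y' (1 : Y → ℝ) y := by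
          intro y
          by_cases hy : y ∈ Y'
          · rw [indicator_of_mem hy]
            have h1 := hstep 0 (by omega) (F.τ s y)
            have h2 := (abs_le.1 (F.G_bd P 1 (F.τ s y))).2
            simp only [zero_add, Nat.cast_one, one_mul, Pi.one_apply, mul_one] at h1 h2 ⊢
            linarith
          · rw [indicator_of_notMem hy]
            have h1 : ¬ ∀ k, 1 ≤ k → k ≤ n → k * F.β P - c ≤ F.G P k (F.τ s y) := by
              intro h1
              have := hsub _ h1
              rw [hπ] at this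
              exact hy this
            push Not at h1
            obtain ⟨k, hk1, hk2, hk3⟩ := h1
            obtain ⟨k, rfl⟩ : ∃ k', k = k' + 1 := ⟨k - 1, by omega⟩
            have h2 := hstep k hk2 (F.τ s y)
            linarith
        have hi : Integrable (fun y => (c + 2 * F.C) * indicator Y' (1 : Y → ℝ) y) P :=
          ((integrable_const (1 : ℝ)).indicator hY').const_mul _
        have hi2 : Integrable (fun y => T * F.β P + (f T + δ) - c +
            (c + 2 * F.C) * indicator Y' (1 : Y → ℝ) y) P := (integrable_const _).add hi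
        have h3 := integral_mono (F.int_G_τ P T s) hi2 hpt
        rw [integral_add (integrable_const _) hi, integral_const_mul,
          integral_indicator_one hY'] at h3
        simp only [integral_const, probReal_univ, smul_eq_mul, one_mul] at h3
        rw [hWe]
        linarith
  have hlow : ∀ T : ℕ, -(2 * F.C) ≤ f T := by
    intro T
    have h1 : F.M P (T + 1) ≤ F.C + T * F.β P + f T := by
      refine F.M_le P fun s => ?_
      have h2 := key T s
      have h3 := (abs_le.1 (F.G_bd P 1 s)).2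
      simp only [hW, Nat.cast_one, one_mul] at h2 h3
      linarith
    have h4 := F.β_le P (T + 1)
    push_cast at h4
    linarith
  obtain ⟨i, hi⟩ := exists_nat_gt ((2 * F.C * n + δ + 2 * F.C) / δ)
  have h5 := hlow (i * n)
  simp only [hf] at h5
  rw [div_lt_iff₀ hδ0] at hi
  have e : ((i * n : ℕ) : ℝ) / n = i := by push_cast; field_simp
  rw [e] at h5
  linarith

/-- the functional with the opposite sign -/
def neg (F : MAF S Y) : MAF S Y where
  τ := F.τ
  φ := fun s y => -F.φ s y
  C := F.C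
  mτ := F.mτ
  mφ := F.mφ.neg
  bd := fun s y => by rw [abs_neg]; exact F.bd s y
  hC := F.hC

omit [Nonempty S] in
lemma neg_traj (n : ℕ) (s : S) (ω : ℕ → Y) : F.neg.traj n s ω = F.traj n s ω := by
  induction n with
  | zero => rfl
  | succ n ih => simp only [traj]; rw [ih]; rfl

omit [Nonempty S] in
lemma neg_psum (n : ℕ) (s : S) (ω : ℕ → Y) : F.neg.psum n s ω = -F.psum n s ω := by
  unfold psum
  rw [← Finset.sum_neg_distrib]
  refine Finset.sum_congr rfl fun k _ => ?_
  rw [neg_traj]; rfl

omit [Nonempty S] in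
lemma neg_G (n : ℕ) (s : S) : F.neg.G P n s = -F.G P n s := by
  unfold G
  simp_rw [neg_psum]
  rw [integral_neg]

end MAF

end H215LE
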