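import Mathlib
import Pool.Agent.H215Z.LE.MAF

set_option autoImplicit false
open MeasureTheory Filter Topology Set

namespace H215LE

variable {S Y : Type} [MeasurableSpace S] [MeasurableSpace Y]

lemma mp_tail (P : Measure Y) [IsProbabilityMeasure P] :
    MeasurePreserving (fun ω : ℕ → Y => (ω 0, fun k => ω (k + 1))) (PP P) (P.prod (PP P)) := by
  have hg : Measurable (fun ω : ℕ → Y => (ω 0, fun k => ω (k + 1))) := by fun_prop
  refine ⟨hg, ?_⟩
  have h1 := (measurePreserving_eval_infinitePi (fun _ : ℕ => P) 0).prod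
    (MeasurePreserving.id (PP P))
  rw [← h1.map_eq]
  conv_lhs => rw [← (mp_cat P 1).map_eq]
  rw [Measure.map_map hg (measurable_cat 1)]
  congr 1

namespace MAF
variable (F : MAF S Y) (P : Measure Y) [IsProbabilityMeasure P] [Nonempty S]

lemma ae_eventually_lt {Ω : Type} [MeasurableSpace Ω] (μ : Measure Ω) [IsProbabilityMeasure μ]
    {s0 : Ω → S} (hs : Measurable s0) {ε : ℝ} (hε : 0 < ε) :
    ∀ᵐ z ∂(μ.prod (PP P)), ∀ᶠ n : ℕ in atTop, F.psum n (s0 z.1) z.2 < n * (F.β P + ε) := by
  obtain ⟨θ, hθ, h⟩ := F.upperTail P hε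
  set E : ℕ → Set (Ω × (ℕ → Y)) := fun n => {z | n * (F.β P + ε) ≤ F.psum n (s0 z.1) z.2} with hE
  have hm : ∀ n, MeasurableSet (E n) := fun n =>
    measurableSet_le measurable_const
      ((F.measurable_psum n).comp ((hs.comp measurable_fst).prodMk measurable_snd))
  have hb : ∀ n, (μ.prod (PP P)) (E n) ≤ ENNReal.ofReal (3 * Real.exp (-θ) ^ n) := by
    intro n
    rw [Measure.prod_apply (hm n)]
    calc _ ≤ ∫⁻ _, ENNReal.ofReal (3 * Real.exp (-θ) ^ n) ∂μ := by
          refine lintegral_mono fun y => ?_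
          have := h n (s0 y)
          rw [← ENNReal.ofReal_toReal (measure_ne_top (PP P) _)]
          exact ENNReal.ofReal_le_ofReal this
      _ = _ := by simp
  have hsum : Summable fun n : ℕ => 3 * Real.exp (-θ) ^ n :=
    (summable_geometric_of_lt_one (Real.exp_pos _).le
      (by rw [Real.exp_lt_one_iff]; linarith)).mul_left 3
  have hne : ∑' n, (μ.prod (PP P)) (E n) ≠ ⊤ := by
    refine ne_top_of_le_ne_top ?_ (ENNReal.tsum_le_tsum hb)
    rw [← ENNReal.ofReal_tsum_of_nonneg (fun n => by positivity) hsum]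
    exact ENNReal.ofReal_ne_top
  filter_upwards [ae_eventually_notMem hne] with z hz
  filter_upwards [hz] with n hn
  simpa [hE] using hn

end MAF

end H215LE
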