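import Mathlib
import Pool.Agent.H215Z.LE.MAF2
import Pool.Agent.H215Z.LE.Lin

/-! The counterexample: a swap on the diagonal. -/

set_option autoImplicit false
open MeasureTheory Filter Topology Set Matrix

namespace H215LE.Cex

noncomputable def Dm : Mat := !![2, 0; 0, 1 / 2]
noncomputable def Rm : Mat := !![0, 1 / 2; 2, 0]

lemma Dm_det : Dm.det ≠ 0 := by simp [Dm, det_fin_two]
lemma Rm_det : Rm.det ≠ 0 := by simp [Rm, det_fin_two]

noncomputable def Dg : GL (Fin 2) ℂ := GeneralLinearGroup.mkOfDetNeZero Dm Dm_det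
noncomputable def Rg : GL (Fin 2) ℂ := GeneralLinearGroup.mkOfDetNeZero Rm Rm_det

open Classical in
noncomputable def Af (x : ℤ → ℝ) : GL (Fin 2) ℂ := if x 0 = x 1 then Rg else Dg

noncomputable def A : Cocycle ℝ 1 where
  toFun := Af
  meas := by
    intro i j
    have hs : MeasurableSet {x : ℤ → ℝ | x 0 = x 1} :=
      measurableSet_eq_fun (by fun_prop) (by fun_prop)
    have : (fun x => (Af x : Mat) i j) =
        fun x => {x : ℤ → ℝ | x 0 = x 1}.piecewise (fun _ => (Rg : Mat) i j)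
          (fun _ => (Dg : Mat) i j) x := by
      funext x
      by_cases h : x 0 = x 1
      · rw [piecewise_eq_of_mem _ _ _ (by exact h)]; simp [Af, h]
      · rw [piecewise_eq_of_notMem _ _ _ (by exact h)]; simp [Af, h]
    rw [this]
    exact Measurable.piecewise hs measurable_const measurable_const
  loc := by
    intro x x' h
    unfold Af
    rw [h 0 (by simp), h 1 (by simp)]
  bdd := by
    refine ⟨max (max |Real.log (opN (Rg : Mat))| |Real.log (opN (Rg⁻¹ : GL (Fin 2) ℂ))|)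
      (max |Real.log (opN (Dg : Mat))| |Real.log (opN (Dg⁻¹ : GL (Fin 2) ℂ))|), fun x => ?_⟩
    unfold Af
    split_ifs
    · exact ⟨le_max_of_le_left (le_max_left _ _), le_max_of_le_left (le_max_right _ _)⟩
    · exact ⟨le_max_of_le_right (le_max_left _ _), le_max_of_le_right (le_max_right _ _)⟩

noncomputable def sg (b : Bool) : ℝ := if b then 1 else -1

open Classical in
noncomputable def F : MAF (ℝ × Bool) ℝ where
  τ := fun s y => (y, if s.1 = y then !s.2 else s.2)
  φ := fun s _ => sg s.2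
  C := 1
  mτ := by
    refine measurable_snd.prodMk ?_
    have hs : MeasurableSet {p : (ℝ × Bool) × ℝ | p.1.1 = p.2} :=
      measurableSet_eq_fun (by fun_prop) (by fun_prop)
    have h1 : Measurable fun p : (ℝ × Bool) × ℝ => p.1.2 := by fun_prop
    exact Measurable.ite hs ((measurable_of_countable (fun b : Bool => !b)).comp h1) h1
  mφ := (measurable_of_countable sg).comp (by fun_prop)
  bd := by intro s y; unfold sg; split_ifs <;> simp
  hC := zero_le_one

noncomputable def Mm (b : Bool) (t : ℝ) : Mat :=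
  if b then !![((2 : ℝ) ^ t : ℝ), 0; 0, ((2 : ℝ) ^ (-t) : ℝ)]
  else !![0, ((2 : ℝ) ^ (-t) : ℝ); ((2 : ℝ) ^ t : ℝ), 0]

lemma p1 (t : ℝ) : (((2 : ℝ) ^ (t + 1) : ℝ) : ℂ) = 2 * (((2 : ℝ) ^ t : ℝ) : ℂ) := by
  rw [Real.rpow_add_one (by norm_num)]; push_cast; ring
lemma p2 (t : ℝ) : (((2 : ℝ) ^ (t + -1) : ℝ) : ℂ) = 1 / 2 * (((2 : ℝ) ^ t : ℝ) : ℂ) := by
  rw [Real.rpow_add (by norm_num), Real.rpow_neg_one]; push_cast; ring
lemma p3 (t : ℝ) : (((2 : ℝ) ^ (-(t + 1)) : ℝ) : ℂ) = 1 / 2 * (((2 : ℝ) ^ (-t) : ℝ) : ℂ) := by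
  rw [← p2]; congr 2; ring
lemma p4 (t : ℝ) : (((2 : ℝ) ^ (-(t + -1)) : ℝ) : ℂ) = 2 * (((2 : ℝ) ^ (-t) : ℝ) : ℂ) := by
  rw [← p1]; congr 2; ring

lemma D_mul (b : Bool) (t : ℝ) : Dm * Mm b t = Mm b (t + sg b) := by
  cases b
  · simp only [Mm, sg, Dm, Bool.false_eq_true, if_false, p2, p4]
    ext i j; fin_cases i <;> fin_cases j <;> simp [Matrix.mul_apply, Fin.sum_univ_two]
  · simp only [Mm, sg, Dm, if_true, p1, p3]
    ext i j; fin_cases i <;> fin_cases j <;> simp [Matrix.mul_apply, Fin.sum_univ_two]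

lemma R_mul (b : Bool) (t : ℝ) : Rm * Mm b t = Mm (!b) (t + sg b) := by
  cases b
  · simp only [Mm, sg, Rm, Bool.false_eq_true, if_false, p2, p4, Bool.not_false, if_true]
    ext i j; fin_cases i <;> fin_cases j <;> simp [Matrix.mul_apply, Fin.sum_univ_two]
  · simp only [Mm, sg, Rm, if_true, p1, p3, Bool.not_true, Bool.false_eq_true, if_false]
    ext i j; fin_cases i <;> fin_cases j <;> simp [Matrix.mul_apply, Fin.sum_univ_two]

lemma shift_iter {X : Type} (n : ℕ) (x : ℤ → X) (i : ℤ) : (shift^[n] x) i = x (i + n) := by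
  induction n generalizing i with
  | zero => simp
  | succ n ih =>
    rw [Function.iterate_succ_apply']
    unfold shift
    rw [show shift = (fun (x : ℤ → X) n => x (n + 1)) from rfl] at ih
    rw [ih]; congr 1; push_cast; ring

/-- the one-sided tail -/
def tl (x : ℤ → ℝ) : ℕ → ℝ := fun k => x ((k + 1 : ℕ) : ℤ)

lemma traj_fst (n : ℕ) (x : ℤ → ℝ) : (F.traj n (x 0, true) (tl x)).1 = x n := by
  cases n with
  | zero => rfl
  | succ n => rfl

lemma iter_eq (n : ℕ) (x : ℤ → ℝ) : (A.iter n x : Mat) =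
    Mm (F.traj n (x 0, true) (tl x)).2 (F.psum n (x 0, true) (tl x)) := by
  induction n with
  | zero =>
    simp only [Cocycle.iter, MAF.traj, MAF.psum, Mm]
    ext i j; fin_cases i <;> fin_cases j <;> simp
  | succ n ih =>
    simp only [Cocycle.iter, Units.val_mul]
    rw [ih, MAF.psum, MAF.psum, Finset.sum_range_succ]
    have e1 : (F.traj (n + 1) (x 0, true) (tl x)).2 =
        open Classical in if x n = x (n + 1 : ℕ) then !(F.traj n (x 0, true) (tl x)).2
        else (F.traj n (x 0, true) (tl x)).2 := by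
      rw [← traj_fst n x]; rfl
    have e2 : A.toFun (shift^[n] x) = open Classical in if x n = x (n + 1 : ℕ) then Rg else Dg := by
      show Af _ = _
      unfold Af
      rw [shift_iter, shift_iter, zero_add, show (1 : ℤ) + n = ((n + 1 : ℕ) : ℤ) by push_cast; ring]
    rw [e1, e2]
    split_ifs
    · exact R_mul _ _
    · exact D_mul _ _

lemma en_Mm (b : Bool) (t : ℝ) : en (Mm b t) = (2 : ℝ) ^ t + (2 : ℝ) ^ (-t) := by
  have h1 : 0 < (2 : ℝ) ^ t := by positivity
  have h2 : 0 < (2 : ℝ) ^ (-t) := by positivity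
  cases b
  · simp only [en, Mm, Bool.false_eq_true, if_false]
    simp only [of_apply, cons_val', cons_val_zero, cons_val_one, cons_val_fin_one, norm_zero,
      Complex.norm_real, Real.norm_eq_abs, abs_of_pos h1, abs_of_pos h2]
    ring
  · simp only [en, Mm, if_true]
    simp only [of_apply, cons_val', cons_val_zero, cons_val_one, cons_val_fin_one, norm_zero,
      Complex.norm_real, Real.norm_eq_abs, abs_of_pos h1, abs_of_pos h2]
    ring

lemma log_Mm (b : Bool) (t : ℝ) : |Real.log (opN (Mm b t)) - |t| * Real.log 2| ≤ Real.log 4 := by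
  have h1 : 0 < (2 : ℝ) ^ t := by positivity
  have h2 : 0 < (2 : ℝ) ^ (-t) := by positivity
  have h3 : 0 < (2 : ℝ) ^ |t| := by positivity
  have a1 : (2 : ℝ) ^ t ≤ 2 ^ |t| := Real.rpow_le_rpow_of_exponent_le (by norm_num) (le_abs_self t)
  have a2 : (2 : ℝ) ^ (-t) ≤ 2 ^ |t| := Real.rpow_le_rpow_of_exponent_le (by norm_num) (neg_le_abs t)
  have a3 : (2 : ℝ) ^ |t| ≤ 2 ^ t + 2 ^ (-t) := by
    rcases abs_choice t with h | h <;> rw [h] <;> linarith
  have b1 := en_le_opN (Mm b t)
  have b2 := opN_le_en (Mm b t)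
  rw [en_Mm] at b1 b2
  have hp : 0 < opN (Mm b t) := by linarith
  have c1 : Real.log (opN (Mm b t)) ≤ Real.log (4 * 2 ^ |t|) := Real.log_le_log hp (by linarith)
  have c2 : Real.log (2 ^ |t|) ≤ Real.log (4 * opN (Mm b t)) := Real.log_le_log h3 (by linarith)
  rw [Real.log_mul (by norm_num) h3.ne', Real.log_rpow (by norm_num)] at c1
  rw [Real.log_mul (by norm_num) hp.ne', Real.log_rpow (by norm_num)] at c2
  rw [abs_le]; constructor <;> linarith

lemma tendsto_of (x : ℤ → ℝ) {l : ℝ}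
    (h : Tendsto (fun n : ℕ => (1 / (n : ℝ)) * |F.psum n (x 0, true) (tl x)|) atTop (𝓝 l)) :
    Tendsto (fun n : ℕ => (1 / (n : ℝ)) * Real.log (opN (A.iter n x : GL (Fin 2) ℂ))) atTop
      (𝓝 (l * Real.log 2)) := by
  have h1 : Tendsto (fun n : ℕ => (1 / (n : ℝ)) * (Real.log (opN (A.iter n x : GL (Fin 2) ℂ)) -
      |F.psum n (x 0, true) (tl x)| * Real.log 2)) atTop (𝓝 0) := by
    have h2 : Tendsto (fun n : ℕ => (1 / (n : ℝ)) * Real.log 4) atTop (𝓝 (0 * Real.log 4)) :=
      tendsto_one_div_atTop_nhds_zero_nat.mul_const _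
    rw [zero_mul] at h2
    refine squeeze_zero_norm (fun n => ?_) h2
    rw [Real.norm_eq_abs, abs_mul, abs_of_nonneg (by positivity), iter_eq]
    exact mul_le_mul_of_nonneg_left (log_Mm _ _) (by positivity)
  have h3 := h1.add (h.mul_const (Real.log 2))
  rw [zero_add] at h3
  refine h3.congr fun n => ?_
  ring

lemma mp_split (q : Measure ℝ) [IsProbabilityMeasure q] :
    MeasurePreserving (fun x : ℤ → ℝ => (x 0, tl x)) (bern q) (q.prod (PP q)) := by
  have h1 : MeasurePreserving (fun (x : ℤ → ℝ) (k : ℕ) => x (k : ℤ)) (bern q) (PP q) :=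
    ⟨by fun_prop, Measure.map_infinitePi_infinitePi_of_inj (P := fun _ : ℤ => q)
      (f := fun k : ℕ => (k : ℤ)) Nat.cast_injective⟩
  exact (mp_tail q).comp h1

lemma top_p (p : Measure ℝ) [IsProbabilityMeasure p] [NullSingletonClass p] : IsTopExp A p (Real.log 2) := by
  have h1 : ∀ k : ℕ, ∀ᵐ x ∂(bern p), x k ≠ x (k + 1 : ℕ) := by
    intro k
    have hmp : MeasurePreserving (fun x : ℤ → ℝ => (x k, x (k + 1 : ℕ))) (bern p) (p.prod p) :=
      ⟨by fun_prop, Measure.infinitePi_map_eval_prod (P := fun _ : ℤ => p) (by push_cast; omega)⟩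
    have hs : MeasurableSet {z : ℝ × ℝ | z.1 = z.2} :=
      measurableSet_eq_fun (by fun_prop) (by fun_prop)
    have h2 : ∀ᵐ z ∂(p.prod p), z.1 ≠ z.2 := by
      rw [ae_iff]
      simp only [ne_eq, not_not]
      rw [Measure.prod_apply hs]
      have : ∀ y : ℝ, p (Prod.mk y ⁻¹' {z : ℝ × ℝ | z.1 = z.2}) = 0 := by
        intro y
        have : Prod.mk y ⁻¹' {z : ℝ × ℝ | z.1 = z.2} = {y} := by
          ext z; simp [eq_comm]
        rw [this]; simp
      simp [this]
    exact hmp.quasiMeasurePreserving.ae h2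
  unfold IsTopExp
  filter_upwards [ae_all_iff.2 h1] with x hx
  have h2 : ∀ n : ℕ, (F.traj n (x 0, true) (tl x)).2 = true := by
    intro n
    induction n with
    | zero => rfl
    | succ n ih =>
      have e1 : (F.traj (n + 1) (x 0, true) (tl x)).2 =
          open Classical in if x n = x (n + 1 : ℕ) then !(F.traj n (x 0, true) (tl x)).2
          else (F.traj n (x 0, true) (tl x)).2 := by
        rw [← traj_fst n x]; rfl
      rw [e1, if_neg (hx n), ih]
  have h3 : ∀ n : ℕ, F.psum n (x 0, true) (tl x) = n := by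
    intro n
    unfold MAF.psum
    rw [Finset.sum_congr rfl (g := fun _ => (1 : ℝ))]
    · simp
    · intro k _
      show sg _ = 1
      rw [h2]; rfl
  have h4 := tendsto_of x (l := 1) (by
    refine tendsto_const_nhds.congr' ?_
    filter_upwards [eventually_gt_atTop 0] with n hn
    have : (0 : ℝ) < n := by exact_mod_cast hn
    rw [h3, Nat.abs_cast]; field_simp)
  rwa [one_mul] at h4

/-- the perturbed measure -/
noncomputable def qm (p : Measure ℝ) (t : ℝ) (a : ℝ) : Measure ℝ :=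
  ENNReal.ofReal (1 - t) • p + ENNReal.ofReal t • Measure.dirac a

lemma qm_prob (p : Measure ℝ) [IsProbabilityMeasure p] {t : ℝ} (h0 : 0 ≤ t) (h1 : t ≤ 1) (a : ℝ) :
    IsProbabilityMeasure (qm p t a) := by
  constructor
  simp only [qm, Measure.coe_add, Measure.coe_smul, Pi.add_apply, Pi.smul_apply, measure_univ,
    smul_eq_mul, mul_one]
  rw [← ENNReal.ofReal_add (by linarith) h0]; simp

lemma integral_qm (p : Measure ℝ) [IsProbabilityMeasure p] {t : ℝ} (h0 : 0 ≤ t) (h1 : t ≤ 1) (a : ℝ)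
    {f : ℝ → ℝ} (hf : Measurable f) {K : ℝ} (hK : ∀ x, |f x| ≤ K) :
    ∫ x, f x ∂(qm p t a) = (1 - t) * ∫ x, f x ∂p + t * f a := by
  unfold qm
  rw [integral_add_measure ((integrable_of_bd hf hK).smul_measure ENNReal.ofReal_ne_top)
    ((integrable_of_bd hf hK).smul_measure ENNReal.ofReal_ne_top), integral_smul_measure,
    integral_smul_measure, integral_dirac, ENNReal.toReal_ofReal (by linarith),
    ENNReal.toReal_ofReal h0]
  rfl

lemma G_bd_q (p : Measure ℝ) [IsProbabilityMeasure p] [NullSingletonClass p] {t : ℝ} (h0 : 0 < t) (h1 : t ≤ 1)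
    (a : ℝ) [IsProbabilityMeasure (qm p t a)] :
    ∃ K : ℝ, ∀ n s, |F.G (qm p t a) n s| ≤ K := by
  classical
  set be : ℝ := 1 / (2 * t ^ 2) with hbe
  set al : ℝ := be + 1 / t with hal
  set H : ℝ × Bool → ℝ := fun s => sg s.2 * (if s.1 = a then be else al) with hH
  have hbe0 : 0 ≤ be := by positivity
  have hal0 : be ≤ al := by have : 0 ≤ 1 / t := by positivity
                            linarith
  have hHb : ∀ s, |H s| ≤ al := by
    intro s
    simp only [hH, sg]
    split_ifs <;> simp [abs_of_nonneg hbe0, abs_of_nonneg (hbe0.trans hal0), hal0]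
  have hHm : Measurable H := by
    refine ((measurable_of_countable sg).comp measurable_snd).mul ?_
    exact Measurable.ite (measurableSet_eq_fun measurable_fst measurable_const)
      measurable_const measurable_const
  have hP : ∀ s, H s = F.G (qm p t a) 1 s + ∫ y, H (F.τ s y) ∂(qm p t a) := by
    intro s
    rw [F.G_one, integral_qm p h0.le h1 a (f := fun y => H (F.τ s y)) (hHm.comp (F.mτ' s))
      (fun y => hHb _)]
    have e1 : ∫ y, F.φ s y ∂(qm p t a) = sg s.2 := by
      show ∫ _, sg s.2 ∂(qm p t a) = _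
      simp
    have e2 : ∫ y, H (F.τ s y) ∂p = sg s.2 * al := by
      have : ∀ᵐ y ∂p, H (F.τ s y) = sg s.2 * al := by
        filter_upwards [compl_mem_ae_iff.2 (measure_singleton (μ := p) a),
          compl_mem_ae_iff.2 (measure_singleton (μ := p) s.1)] with y hy1 hy2
        have hy1' : y ≠ a := hy1
        have hy2' : s.1 ≠ y := fun h => hy2 h.symm
        simp [hH, F, hy1', hy2']
      rw [integral_congr_ae this]; simp
    rw [e1, e2]
    by_cases h : s.1 = a
    · have e3 : H (F.τ s a) = -sg s.2 * be := by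
        simp only [hH, F, h, if_true]
        cases s.2 <;> simp [sg]
      rw [e3]
      simp only [hH, h, if_true, hal, hbe]
      field_simp; ring
    · have e3 : H (F.τ s a) = sg s.2 * be := by simp [hH, F, h]
      rw [e3]
      simp only [hH, h, if_false, hal, hbe]
      field_simp; ring
  have key : ∀ n s, |F.G (qm p t a) n s - H s| ≤ al := by
    intro n
    induction n with
    | zero => intro s; rw [F.G_zero, zero_sub, abs_neg]; exact hHb s
    | succ n ih =>
      intro s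
      rw [F.G_succ, hP s, add_sub_add_left_eq_sub,
        ← integral_sub (F.int_G_τ _ n s) (integrable_of_bd (f := fun y => H (F.τ s y))
          (hHm.comp (F.mτ' s)) (fun y => hHb _))]
      exact abs_integral_le_of_bd fun y => ih _
  refine ⟨2 * al, fun n s => ?_⟩
  have h2 := key n s
  have h3 := hHb s
  have := abs_add_le (F.G (qm p t a) n s - H s) (H s)
  rw [sub_add_cancel] at this
  linarith

lemma β_nonpos {S : Type} [MeasurableSpace S] [Nonempty S] (E : MAF S ℝ) (q : Measure ℝ)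
    [IsProbabilityMeasure q] {K : ℝ} (h : ∀ n s, |E.G q n s| ≤ K) : E.β q ≤ 0 := by
  refine E.β_le_of q fun ε hε => ?_
  have h0 : Tendsto (fun k : ℕ => (k : ℝ) * ε) atTop atTop :=
    tendsto_natCast_atTop_atTop.atTop_mul_const hε
  filter_upwards [h0.eventually_ge_atTop K] with n hn
  rw [zero_add]
  exact E.M_le q fun s => (le_abs_self _).trans ((h n s).trans hn)

lemma top_q (p : Measure ℝ) [IsProbabilityMeasure p] [NullSingletonClass p] {t : ℝ} (h0 : 0 < t) (h1 : t ≤ 1)
    (a : ℝ) [IsProbabilityMeasure (qm p t a)] : IsTopExp A (qm p t a) 0 := by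
  obtain ⟨K, hK⟩ := G_bd_q p h0 h1 a
  have b1 := β_nonpos F _ hK
  have b2 := β_nonpos F.neg (qm p t a) (K := K) (fun n s => by rw [F.neg_G, abs_neg]; exact hK n s)
  have hs : Measurable fun y : ℝ => (y, true) := by fun_prop
  have h2 : ∀ j : ℕ, ∀ᵐ z ∂((qm p t a).prod (PP (qm p t a))), ∀ᶠ n : ℕ in atTop,
      |F.psum n (z.1, true) z.2| ≤ n * (1 / ((j : ℝ) + 1)) := by
    intro j
    have hε : (0 : ℝ) < 1 / ((j : ℝ) + 1) := by positivity
    filter_upwards [F.ae_eventually_lt (qm p t a) (qm p t a) hs hε,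
      F.neg.ae_eventually_lt (qm p t a) (qm p t a) hs hε] with z hz1 hz2
    filter_upwards [hz1, hz2] with n a1 a2
    rw [F.neg_psum] at a2
    have hn : (0 : ℝ) ≤ n := Nat.cast_nonneg n
    rw [abs_le]
    constructor <;> nlinarith
  have h3 := (mp_split (qm p t a)).quasiMeasurePreserving.ae (ae_all_iff.2 h2)
  unfold IsTopExp
  filter_upwards [h3] with x hx
  have h4 := tendsto_of x (l := 0) (by
    rw [Metric.tendsto_atTop]
    intro ε hε
    obtain ⟨j, hj⟩ := exists_nat_one_div_lt hε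
    obtain ⟨n0, hn0⟩ := eventually_atTop.1 ((hx j).and (eventually_gt_atTop 0))
    refine ⟨n0, fun n hn => ?_⟩
    obtain ⟨a1, a2⟩ := hn0 n hn
    have hn' : (0 : ℝ) < n := by exact_mod_cast a2
    rw [Real.dist_eq, sub_zero, abs_of_nonneg (by positivity)]
    refine lt_of_le_of_lt ?_ hj
    rw [one_div, ← div_eq_inv_mul, div_le_iff₀ hn', mul_comm]
    exact a1)
  rwa [zero_mul] at h4

lemma tv_qm (p : Measure ℝ) [IsProbabilityMeasure p] {t : ℝ} (h0 : 0 ≤ t) (h1 : t ≤ 1) (a : ℝ) :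
    tvDist p (qm p t a) ≤ 2 * t := by
  unfold tvDist
  have : Nonempty {φ : ℝ → ℝ // Measurable φ ∧ ∀ x, |φ x| ≤ 1} :=
    ⟨⟨fun _ => 0, measurable_const, by simp⟩⟩
  refine ciSup_le fun φ => ?_
  rw [integral_qm p h0 h1 a φ.2.1 φ.2.2]
  have h2 : |∫ x, φ.1 x ∂p| ≤ 1 := abs_integral_le_of_bd φ.2.2
  have h3 := φ.2.2 a
  rw [show ∫ x, φ.1 x ∂p - ((1 - t) * ∫ x, φ.1 x ∂p + t * φ.1 a) =
    t * (∫ x, φ.1 x ∂p - φ.1 a) by ring, abs_mul, abs_of_nonneg h0]
  have h4 := abs_sub (∫ x, φ.1 x ∂p) (φ.1 a)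
  nlinarith

theorem main : ∃ (p : Measure ℝ) (_ : IsProbabilityMeasure p) (A : Cocycle ℝ 1),
    IsTopExp A p (Real.log 2) ∧
    ∀ γ : ℝ, 0 < γ → ∀ Z : Set ℝ, MeasurableSet Z → p Z = 1 →
      ∃ (B : Cocycle ℝ 1) (q : Measure ℝ) (_ : IsProbabilityMeasure q),
        cocDist A B < γ ∧ q Z = 1 ∧ tvDist p q < γ ∧ IsTopExp B q 0 := by
  have hp : IsProbabilityMeasure (volume.restrict (Icc (0 : ℝ) 1)) := ⟨by simp⟩
  refine ⟨volume.restrict (Icc (0 : ℝ) 1), hp, A, top_p _, fun γ hγ Z hZ hZ1 => ?_⟩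
  obtain ⟨a, ha⟩ : Z.Nonempty := by
    rw [nonempty_iff_ne_empty]
    rintro rfl
    simp at hZ1
  set t := min (γ / 3) 1 with ht
  have h0 : 0 < t := lt_min (by linarith) one_pos
  have h1 : t ≤ 1 := min_le_right _ _
  have h2 : t ≤ γ / 3 := min_le_left _ _
  have hq := qm_prob (volume.restrict (Icc (0 : ℝ) 1)) h0.le h1 a
  refine ⟨A, qm _ t a, hq, ?_, ?_, ?_, top_q _ h0 h1 a⟩
  · unfold cocDist
    simpa [opN] using hγ
  · simp only [qm, Measure.coe_add, Measure.coe_smul, Pi.add_apply, Pi.smul_apply, smul_eq_mul, hZ1,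
      mul_one, Measure.dirac_apply_of_mem ha]
    rw [← ENNReal.ofReal_add (by linarith) h0.le]; simp
  · exact (tv_qm _ h0.le h1 a).trans_lt (by linarith)

end H215LE.Cex
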