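import Mathlib

/-! An abstract recoupling argument. -/

set_option autoImplicit false
set_option linter.unusedSectionVars false
open MeasureTheory Filter Topology Set
open scoped ENNReal

namespace H215LE

section Push
variable {α β γ Y : Type} [MeasurableSpace α] [MeasurableSpace β] [MeasurableSpace γ]
  [MeasurableSpace Y] (q : Measure Y) [IsProbabilityMeasure q]

/-- one random step -/
noncomputable def push (f : α → Y → β) (μ : Measure α) : Measure β :=
  (μ.prod q).map (fun p => f p.1 p.2)

variable {f : α → Y → β}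

lemma lintegral_push (hf : Measurable fun p : α × Y => f p.1 p.2) (μ : Measure α) {g : β → ℝ≥0∞}
    (hg : Measurable g) : ∫⁻ b, g b ∂(push q f μ) = ∫⁻ a, ∫⁻ y, g (f a y) ∂q ∂μ := by
  unfold push
  rw [lintegral_map hg hf]
  exact lintegral_prod (fun p : α × Y => g (f p.1 p.2)) (hg.comp hf).aemeasurable

lemma push_apply (hf : Measurable fun p : α × Y => f p.1 p.2) (μ : Measure α) {s : Set β}
    (hs : MeasurableSet s) : push q f μ s = ∫⁻ a, q ((f a) ⁻¹' s) ∂μ := by
  unfold push
  rw [Measure.map_apply hf hs, Measure.prod_apply (hf hs)]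
  rfl

lemma push_add (hf : Measurable fun p : α × Y => f p.1 p.2) (μ ν : Measure α) :
    push q f (μ + ν) = push q f μ + push q f ν := by
  ext s hs
  rw [Measure.add_apply, push_apply q hf _ hs, push_apply q hf _ hs, push_apply q hf _ hs,
    lintegral_add_measure]

lemma push_univ (hf : Measurable fun p : α × Y => f p.1 p.2) (μ : Measure α) :
    push q f μ univ = μ univ := by
  rw [push_apply q hf _ MeasurableSet.univ]; simp

lemma push_mono (hf : Measurable fun p : α × Y => f p.1 p.2) {μ ν : Measure α} (h : μ ≤ ν) :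
    push q f μ ≤ push q f ν := by
  rw [Measure.le_iff]
  intro s hs
  rw [push_apply q hf _ hs, push_apply q hf _ hs]
  exact lintegral_mono' h le_rfl

lemma map_push (hf : Measurable fun p : α × Y => f p.1 p.2) (μ : Measure α) {r : β → γ}
    (hr : Measurable r) : (push q f μ).map r = push q (fun a y => r (f a y)) μ := by
  unfold push
  rw [Measure.map_map hr hf]; rfl

lemma push_map (hf : Measurable fun p : α × Y => f p.1 p.2) (μ : Measure γ) {r : γ → α}
    (hr : Measurable r) : push q f (μ.map r) = push q (fun a y => f (r a) y) μ := by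
  have h2 : Measurable fun p : γ × Y => f (r p.1) p.2 :=
    hf.comp ((hr.comp measurable_fst).prodMk measurable_snd)
  ext s hs
  rw [push_apply q hf _ hs, push_apply q h2 _ hs]
  exact lintegral_map (f := fun a => q (f a ⁻¹' s)) (measurable_measure_prodMk_left (hf hs)) hr

lemma push_finite (hf : Measurable fun p : α × Y => f p.1 p.2) (μ : Measure α) [IsFiniteMeasure μ] :
    IsFiniteMeasure (push q f μ) := ⟨by rw [push_univ q hf]; exact measure_lt_top _ _⟩

end Push

lemma matching {S : Type} [MeasurableSpace S] (a b : Measure S) [IsFiniteMeasure a]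
    [IsFiniteMeasure b] : ∃ (χ : Measure (S × S)) (a' b' : Measure S),
      χ.map Prod.fst + a' = a ∧ χ.map Prod.snd + b' = b ∧ (a' = 0 ∨ b' = 0) ∧ χ ≪ a.prod b := by
  have key : ∀ (t u : ℝ≥0∞) (m : Measure S), t ≤ u → u ≠ 0 → u ≠ ⊤ →
      u⁻¹ • t • m + (1 - u⁻¹ * t) • m = m ∧ u⁻¹ • u • m = m := by
    intro t u m h h0 ht
    have h1 : u⁻¹ * t ≤ 1 := by
      rw [← ENNReal.inv_mul_cancel h0 ht]; gcongr
    constructor
    · rw [smul_smul, ← add_smul, add_tsub_cancel_of_le h1, one_smul]
    · rw [smul_smul, ENNReal.inv_mul_cancel h0 ht, one_smul]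
  by_cases ha : a = 0
  · exact ⟨0, 0, b, by simp [ha], by simp, Or.inl rfl, Measure.AbsolutelyContinuous.zero _⟩
  by_cases hb : b = 0
  · exact ⟨0, a, 0, by simp, by simp [hb], Or.inr rfl, Measure.AbsolutelyContinuous.zero _⟩
  have ha' : a univ ≠ 0 := by simpa using ha
  have hb' : b univ ≠ 0 := by simpa using hb
  rcases le_total (a univ) (b univ) with h | h
  · refine ⟨(b univ)⁻¹ • a.prod b, 0, (1 - (b univ)⁻¹ * a univ) • b, ?_, ?_, Or.inl rfl,
      Measure.smul_absolutelyContinuous⟩
    · rw [Measure.map_smul, Measure.map_fst_prod, add_zero]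
      exact (key _ _ a h hb' (measure_ne_top _ _)).2
    · rw [Measure.map_smul, Measure.map_snd_prod]
      exact (key _ _ b h hb' (measure_ne_top _ _)).1
  · refine ⟨(a univ)⁻¹ • a.prod b, (1 - (a univ)⁻¹ * b univ) • a, 0, ?_, ?_, Or.inr rfl,
      Measure.smul_absolutelyContinuous⟩
    · rw [Measure.map_smul, Measure.map_fst_prod]
      exact (key _ _ a h ha' (measure_ne_top _ _)).1
    · rw [Measure.map_smul, Measure.map_snd_prod, add_zero]
      exact (key _ _ b h ha' (measure_ne_top _ _)).2

lemma restrict_map_split {X S : Type} [MeasurableSpace X] [MeasurableSpace S] (Θ : Measure X)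
    {π π' : X → S} (hπ : Measurable π) (hπ' : Measurable π') {N : Set S} (hN : MeasurableSet N) :
    (Θ.map π).restrict N = (Θ.restrict (π ⁻¹' N ∩ π' ⁻¹' N)).map π +
      (Θ.restrict (π ⁻¹' N \ π' ⁻¹' N)).map π := by
  rw [Measure.restrict_map hπ hN, ← Measure.map_add _ _ hπ,
    Measure.restrict_inter_add_sdiff _ (hπ' hN)]

section Main
variable {S X Y : Type} [MeasurableSpace S] [MeasurableSpace X] [MeasurableSpace Y]

/-- occupation measures -/
noncomputable def occ (q : Measure Y) (τ : S → Y → S) (ν0 : Measure S) : ℕ → Measure S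
  | 0 => 0
  | n + 1 => push q τ (occ q τ ν0 n) + ν0

variable (q : Measure Y) [IsProbabilityMeasure q] {τ : S → Y → S}

lemma occ_finite (hτ : Measurable fun p : S × Y => τ p.1 p.2) (ν0 : Measure S) [IsFiniteMeasure ν0]
    (n : ℕ) : IsFiniteMeasure (occ q τ ν0 n) := by
  induction n with
  | zero => exact (inferInstance : IsFiniteMeasure (0 : Measure S))
  | succ n ih =>
    have := push_finite q hτ (occ q τ ν0 n)
    exact (inferInstance : IsFiniteMeasure (push q τ (occ q τ ν0 n) + ν0))

lemma occ_mono (hτ : Measurable fun p : S × Y => τ p.1 p.2) (ν0 : Measure S) :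
    Monotone (occ q τ ν0) := by
  refine monotone_nat_of_le_succ fun n => ?_
  induction n with
  | zero => exact Measure.zero_le _
  | succ n ih => exact add_le_add (push_mono q hτ ih) le_rfl

theorem recouple (hτ : Measurable fun p : S × Y => τ p.1 p.2)
    {τ2 : X → Y → X} (hτ2 : Measurable fun p : X × Y => τ2 p.1 p.2)
    {τ3 : S × S → Y → X} (hτ3 : Measurable fun p : (S × S) × Y => τ3 p.1 p.2)
    {π1 π2 : X → S} (h1 : Measurable π1) (h2 : Measurable π2)
    (c21 : ∀ x y, π1 (τ2 x y) = τ (π1 x) y) (c22 : ∀ x y, π2 (τ2 x y) = τ (π2 x) y)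
    (c31 : ∀ z y, π1 (τ3 z y) = τ z.1 y) (c32 : ∀ z y, π2 (τ3 z y) = τ z.2 y)
    {N St Dp Zn : Set S} (mN : MeasurableSet N) (mSt : MeasurableSet St) (mDp : MeasurableSet Dp)
    (mZn : MeasurableSet Zn) (s1 : St ⊆ Zn) (s2 : N \ Dp ⊆ Zn)
    (s3 : ∀ s y, s ∉ N → τ s y ∈ N → τ s y ∈ St)
    {ψ : X → ℝ≥0∞} (hψ : Measurable ψ) {c K ζ : ℝ≥0∞}
    (drift : ∀ x, π1 x ∈ N → π2 x ∈ N →
      ∫⁻ y, (π1 ⁻¹' N ∩ π2 ⁻¹' N).indicator ψ (τ2 x y) ∂q + c ≤
        ψ x + K * (Zn.indicator 1 (π1 x) + Zn.indicator 1 (π2 x)))
    (fresh : ∀ z : S × S, z.1 ∈ Dp → z.2 ∈ St → ∀ y,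
      (π1 ⁻¹' N ∩ π2 ⁻¹' N).indicator ψ (τ3 z y) ≤ K)
    (ν0 : Measure S) [IsFiniteMeasure ν0] (hν0 : ν0 N = 0) {T : ℕ} (hζ : occ q τ ν0 T Zn ≤ ζ) :
    c * ∑ i ∈ Finset.range T, occ q τ ν0 i N ≤ T * ((4 * K + 3 * c) * ζ) := by
  set η := occ q τ ν0 with hη
  set W := π1 ⁻¹' N ∩ π2 ⁻¹' N with hW
  have mW : MeasurableSet W := (h1 mN).inter (h2 mN)
  have hζ' : ∀ n, n ≤ T → η n Zn ≤ ζ := fun n hn => (occ_mono q hτ ν0 hn Zn).trans hζ
  have key : ∀ n, n ≤ T → ∃ (ξ : Measure X) (χ : Measure (S × S)) (ω : Measure S),
      ξ.map π1 + ξ.map π2 + χ.map Prod.fst + χ.map Prod.snd + ω = (η n).restrict N ∧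
      (∀ᵐ z ∂χ, z.1 ∈ Dp ∧ z.2 ∈ St) ∧ ω univ ≤ ζ ∧
      2 * ∫⁻ x, ψ x ∂ξ + c * ∑ i ∈ Finset.range n, η i N ≤ n * ((4 * K + 3 * c) * ζ) := by
    intro n
    induction n with
    | zero => intro _; exact ⟨0, 0, 0, by simp [hη, occ], by simp, by simp, by simp⟩
    | succ n ih =>
      intro hn
      obtain ⟨ξ, χ, ω, e1, e2, e3, e4⟩ := ih (by omega)
      have fη : ∀ k, IsFiniteMeasure (η k) := fun k => occ_finite q hτ ν0 k
      have fηn := fη n
      -- basic mass bounds at time `n`
      have hle : ∀ A : Set S, (ξ.map π1) A + (ξ.map π2) A + (χ.map Prod.fst) A +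
          (χ.map Prod.snd) A + ω A = (η n).restrict N A := by
        intro A
        rw [← e1]; simp only [Measure.add_apply]
      have hχ : χ univ ≤ ζ := by
        have a1 : χ univ = (χ.map Prod.snd) St := by
          rw [Measure.map_apply measurable_snd mSt]
          refine (measure_congr ?_).symm
          rw [ae_eq_univ]
          have e2' : ∀ᵐ z ∂χ, z.2 ∈ St := e2.mono fun z h => h.2
          exact mem_ae_iff.1 e2'
        have a2 := hle St
        have a3 : (η n).restrict N St ≤ ζ :=
          (Measure.restrict_le_self St).trans ((measure_mono s1).trans (hζ' n (by omega)))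
        rw [a1]
        refine le_trans ?_ a3
        rw [← a2]
        exact le_add_right le_add_self
      have hξZ : ξ (π1 ⁻¹' Zn) + ξ (π2 ⁻¹' Zn) ≤ ζ := by
        rw [← Measure.map_apply h1 mZn, ← Measure.map_apply h2 mZn]
        refine le_trans ?_ ((Measure.restrict_le_self (s := N) Zn).trans (hζ' n (by omega)))
        rw [← hle Zn]
        exact le_add_right (le_add_right le_self_add)
      have hξW : ∀ᵐ x ∂ξ, π1 x ∈ N ∧ π2 x ∈ N := by
        have a1 := hle Nᶜ
        rw [Measure.restrict_apply mN.compl, compl_inter_self, measure_empty] at a1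
        simp only [add_eq_zero] at a1
        have a2 := a1.1.1.1.1
        have a3 := a1.1.1.1.2
        rw [Measure.map_apply h1 mN.compl] at a2
        rw [Measure.map_apply h2 mN.compl] at a3
        have b2 : ∀ᵐ x ∂ξ, π1 x ∈ N := mem_ae_iff.2 a2
        have b3 : ∀ᵐ x ∂ξ, π2 x ∈ N := mem_ae_iff.2 a3
        exact b2.and b3
      have hmass : η n N ≤ 2 * ξ univ + 3 * ζ := by
        have a1 := hle univ
        rw [Measure.restrict_apply_univ, Measure.map_apply h1 .univ, Measure.map_apply h2 .univ,
          Measure.map_apply measurable_fst .univ, Measure.map_apply measurable_snd .univ] at a1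
        simp only [preimage_univ] at a1
        rw [← a1]
        calc _ ≤ ξ univ + ξ univ + ζ + ζ + ζ := by gcongr
          _ = _ := by ring
      -- the step
      set Θ := push q τ2 ξ + push q τ3 χ with hΘ
      have hΘ1 : Θ.map π1 + Θ.map π2 + push q τ ω = push q τ ((η n).restrict N) := by
        rw [← e1, push_add q hτ, push_add q hτ, push_add q hτ, push_add q hτ,
          push_map q hτ _ h1, push_map q hτ _ h2, push_map q hτ _ measurable_fst,
          push_map q hτ _ measurable_snd, hΘ, Measure.map_add _ _ h1, Measure.map_add _ _ h2,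
          map_push q hτ2 _ h1, map_push q hτ2 _ h2, map_push q hτ3 _ h1, map_push q hτ3 _ h2]
        simp only [c21, c22, c31, c32]
        abel
      set I := (push q τ ((η n).restrict Nᶜ)).restrict N with hI
      set O1 := (Θ.restrict (π1 ⁻¹' N \ π2 ⁻¹' N)).map π1 with hO1
      set O2 := (Θ.restrict (π2 ⁻¹' N \ π1 ⁻¹' N)).map π2 with hO2
      set R := O1 + O2 + (push q τ ω).restrict N with hR
      have hstep : η (n + 1) = push q τ ((η n).restrict N) + push q τ ((η n).restrict Nᶜ) + ν0 := by
        rw [← push_add q hτ, Measure.restrict_add_restrict_compl mN]; rfl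
      have hnew : (Θ.restrict W).map π1 + (Θ.restrict W).map π2 + R + I = (η (n + 1)).restrict N := by
        rw [hstep, ← hΘ1]
        simp only [Measure.restrict_add]
        rw [restrict_map_split Θ h1 h2 mN, restrict_map_split Θ h2 h1 mN,
          Measure.restrict_eq_zero.2 hν0, inter_comm (π2 ⁻¹' N), hR]
        abel
      have fnew := fη (n + 1)
      have fR : IsFiniteMeasure R := isFiniteMeasure_of_le ((η (n + 1)).restrict N) (by
        rw [← hnew]; exact Measure.le_add_right (Measure.le_add_left le_rfl))
      have fI : IsFiniteMeasure I := isFiniteMeasure_of_le ((η (n + 1)).restrict N) (by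
        rw [← hnew]; exact Measure.le_add_left le_rfl)
      have hISt : I Stᶜ = 0 := by
        rw [hI, Measure.restrict_apply mSt.compl, push_apply q hτ _ (mSt.compl.inter mN),
          setLIntegral_congr_fun mN.compl (g := fun _ => 0)]
        · simp
        · intro s hs
          have : τ s ⁻¹' (Stᶜ ∩ N) = ∅ := by
            ext y
            simp only [mem_preimage, mem_inter_iff, mem_compl_iff, mem_empty_iff_false, iff_false,
              not_and]
            exact fun a b => a (s3 s y hs b)
          simp [this]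
      have hflux : O1 univ + O2 univ ≤ I univ := by
        have a1 : O1 univ + O2 univ ≤ push q τ ((η n).restrict N) Nᶜ := by
          rw [← hΘ1]
          simp only [Measure.add_apply]
          rw [hO1, hO2, Measure.map_apply h1 .univ, Measure.map_apply h2 .univ,
            Measure.map_apply h1 mN.compl, Measure.map_apply h2 mN.compl, preimage_univ,
            preimage_univ, Measure.restrict_apply_univ, Measure.restrict_apply_univ, add_comm]
          refine le_add_right (add_le_add (measure_mono ?_) (measure_mono ?_))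
          · exact fun x hx => hx.2
          · exact fun x hx => hx.2
        have fp := push_finite q hτ ((η n).restrict N)
        have a2 : push q τ ((η n).restrict N) N + push q τ ((η n).restrict N) Nᶜ = η n N := by
          rw [measure_add_measure_compl mN, push_univ q hτ, Measure.restrict_apply_univ]
        have a3 : η (n + 1) N = push q τ ((η n).restrict N) N + I univ := by
          rw [hstep, hI, Measure.restrict_apply_univ]
          simp only [Measure.add_apply, hν0, add_zero]
        have a4 : η n N ≤ η (n + 1) N := occ_mono q hτ ν0 (Nat.le_succ n) N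
        rw [← a2, a3] at a4
        exact a1.trans ((ENNReal.add_le_add_iff_left (measure_ne_top _ _)).1 a4)
      obtain ⟨χ', a', b', m1, m2, m3, m4⟩ := matching (R.restrict Dp) I
      refine ⟨Θ.restrict W, χ', R.restrict Dpᶜ + a' + b', ?_, ?_, ?_, ?_⟩
      · rw [← hnew]
        conv_rhs => rw [← Measure.restrict_add_restrict_compl (μ := R) mDp, ← m1, ← m2]
        abel
      · refine m4 ?_
        have a1 : ∀ᵐ s ∂(R.restrict Dp), s ∈ Dp := ae_restrict_mem mDp
        have a2 : ∀ᵐ s ∂I, s ∈ St := mem_ae_iff.2 hISt
        have a3 := (Measure.quasiMeasurePreserving_fst (μ := R.restrict Dp) (ν := I)).ae a1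
        have a4 := (Measure.quasiMeasurePreserving_snd (μ := R.restrict Dp) (ν := I)).ae a2
        exact a3.and a4
      · rcases m3 with m3 | m3
        · have a1 : b' ≤ I := by rw [← m2]; exact Measure.le_add_left le_rfl
          have a2 : b' univ ≤ I Zn := by
            rw [← measure_add_measure_compl mSt]
            have : b' Stᶜ = 0 := le_antisymm ((a1 _).trans hISt.le) zero_le
            rw [this, add_zero]
            exact (a1 St).trans (measure_mono s1)
          have a3 : R ≤ (η (n + 1)).restrict N := by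
            rw [← hnew]; exact Measure.le_add_right (Measure.le_add_left le_rfl)
          have a4 : R Dpᶜ ≤ R Zn := by
            have : R Nᶜ = 0 := by
              refine le_antisymm ((a3 _).trans ?_) zero_le
              rw [Measure.restrict_apply mN.compl, compl_inter_self, measure_empty]
            calc R Dpᶜ ≤ R (Zn ∪ Nᶜ) := measure_mono fun s hs => by
                  by_cases h : s ∈ N
                  · exact Or.inl (s2 ⟨h, hs⟩)
                  · exact Or.inr h
              _ ≤ R Zn + R Nᶜ := measure_union_le _ _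
              _ = R Zn := by rw [this, add_zero]
          have a5 : R Zn + I Zn ≤ ζ := by
            refine le_trans ?_ ((Measure.restrict_le_self (s := N) Zn).trans (hζ' (n + 1) hn))
            rw [← hnew]
            simp only [Measure.add_apply]
            exact add_le_add le_add_self le_rfl
          simp only [m3, add_zero, Measure.add_apply, Measure.restrict_apply_univ]
          exact (add_le_add a4 a2).trans a5
        · have a1 : χ' univ = I univ := by
            rw [← m2, m3, add_zero, Measure.map_apply measurable_snd .univ, preimage_univ]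
          have a2 : I univ + a' univ = R Dp := by
            rw [← a1, ← Measure.restrict_apply_univ (μ := R), ← m1, Measure.add_apply,
              Measure.map_apply measurable_fst .univ, preimage_univ]
          have a3 : R univ ≤ I univ + ζ := by
            rw [hR]
            simp only [Measure.add_apply]
            refine add_le_add hflux ?_
            refine (Measure.restrict_le_self _).trans ?_
            rw [push_univ q hτ]; exact e3
          rw [← measure_add_measure_compl mDp, ← a2, add_assoc] at a3
          have a4 := (ENNReal.add_le_add_iff_left (measure_ne_top _ _)).1 a3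
          simp only [m3, add_zero, Measure.add_apply, Measure.restrict_apply_univ]
          rwa [add_comm]
      · have mψ : Measurable (W.indicator ψ) := hψ.indicator mW
        have a1 : ∫⁻ x, ψ x ∂(Θ.restrict W) = ∫⁻ x, ∫⁻ y, W.indicator ψ (τ2 x y) ∂q ∂ξ +
            ∫⁻ z, ∫⁻ y, W.indicator ψ (τ3 z y) ∂q ∂χ := by
          rw [← lintegral_indicator mW, hΘ, lintegral_add_measure, lintegral_push q hτ2 _ mψ,
            lintegral_push q hτ3 _ mψ]
        have a2 : ∫⁻ z, ∫⁻ y, W.indicator ψ (τ3 z y) ∂q ∂χ ≤ K * ζ := by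
          calc _ ≤ ∫⁻ _, K ∂χ := by
                refine lintegral_mono_ae ?_
                filter_upwards [e2] with z hz
                calc _ ≤ ∫⁻ _, K ∂q := lintegral_mono fun y => fresh z hz.1 hz.2 y
                  _ = K := by simp
            _ = K * χ univ := by simp
            _ ≤ K * ζ := by gcongr
        have a3 : ∫⁻ x, ∫⁻ y, W.indicator ψ (τ2 x y) ∂q ∂ξ + c * ξ univ ≤
            ∫⁻ x, ψ x ∂ξ + K * ζ := by
          have i1 : Measurable fun x => Zn.indicator (1 : S → ℝ≥0∞) (π1 x) :=
            (measurable_one.indicator mZn).comp h1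
          have i2 : Measurable fun x => Zn.indicator (1 : S → ℝ≥0∞) (π2 x) :=
            (measurable_one.indicator mZn).comp h2
          calc _ = ∫⁻ x, (∫⁻ y, W.indicator ψ (τ2 x y) ∂q + c) ∂ξ := by
                rw [lintegral_add_right _ measurable_const, lintegral_const]
            _ ≤ ∫⁻ x, (ψ x + K * (Zn.indicator 1 (π1 x) + Zn.indicator 1 (π2 x))) ∂ξ := by
                refine lintegral_mono_ae ?_
                filter_upwards [hξW] with x hx
                exact drift x hx.1 hx.2
            _ = ∫⁻ x, ψ x ∂ξ + K * (ξ (π1 ⁻¹' Zn) + ξ (π2 ⁻¹' Zn)) := by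
                have i3 : Measurable fun x => Zn.indicator (1 : S → ℝ≥0∞) (π1 x) +
                    Zn.indicator (1 : S → ℝ≥0∞) (π2 x) := i1.add i2
                rw [lintegral_add_left hψ, lintegral_const_mul _ i3,
                  lintegral_add_left i1, ← lintegral_indicator_one (h1 mZn),
                  ← lintegral_indicator_one (h2 mZn)]
                rfl
            _ ≤ _ := by gcongr
        rw [a1, Finset.sum_range_succ]
        set e := ∫⁻ x, ψ x ∂ξ
        set e' := ∫⁻ x, ∫⁻ y, W.indicator ψ (τ2 x y) ∂q ∂ξ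
        set e'' := ∫⁻ z, ∫⁻ y, W.indicator ψ (τ3 z y) ∂q ∂χ
        set Sg := ∑ i ∈ Finset.range n, η i N
        calc 2 * (e' + e'') + c * (Sg + η n N)
            ≤ 2 * (e' + K * ζ) + c * (Sg + (2 * ξ univ + 3 * ζ)) := by gcongr
          _ = 2 * (e' + c * ξ univ) + c * Sg + (2 * K + 3 * c) * ζ := by ring
          _ ≤ 2 * (e + K * ζ) + c * Sg + (2 * K + 3 * c) * ζ := by gcongr
          _ = (2 * e + c * Sg) + (4 * K + 3 * c) * ζ := by ring
          _ ≤ n * ((4 * K + 3 * c) * ζ) + (4 * K + 3 * c) * ζ := by gcongr
          _ = _ := by push_cast; ring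
  obtain ⟨ξ, χ, ω, -, -, -, e4⟩ := key T le_rfl
  exact le_add_self.trans e4

end Main

end H215LE
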