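import Mathlib
import Pool.Agent.H215Z.LE.MAF2
import Pool.Agent.H215Z.LE.Lin

/-! Cocycles depending on two consecutive independent letters. -/

set_option autoImplicit false
open MeasureTheory Filter Topology Set Matrix

namespace H215LE

section Meas
variable {Ω : Type} [MeasurableSpace Ω]

/-- entrywise measurability -/
def MeasM (M : Ω → Mat) : Prop := ∀ i j, Measurable fun x => M x i j

lemma MeasM.comp {Ω' : Type} [MeasurableSpace Ω'] {M : Ω → Mat} (h : MeasM M) {f : Ω' → Ω}
    (hf : Measurable f) : MeasM (fun x => M (f x)) := fun i j => (h i j).comp hf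

lemma measM_const (M : Mat) : MeasM (fun _ : Ω => M) := fun _ _ => measurable_const

lemma MeasM.mul {M N : Ω → Mat} (h : MeasM M) (h' : MeasM N) : MeasM (fun x => M x * N x) := by
  intro i j
  simp only [Matrix.mul_apply, Fin.sum_univ_two]
  exact ((h i 0).mul (h' 0 j)).add ((h i 1).mul (h' 1 j))

lemma MeasM.mulVec {M : Ω → Mat} (h : MeasM M) {v : Ω → Vec} (hv : Measurable v) :
    Measurable fun x => M x *ᵥ v x := by
  have h0 : Measurable fun x => v x 0 := (measurable_pi_apply 0).comp hv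
  have h1 : Measurable fun x => v x 1 := (measurable_pi_apply 1).comp hv
  refine measurable_pi_lambda _ fun i => ?_
  simp only [Matrix.mulVec, dotProduct, Fin.sum_univ_two]
  exact ((h i 0).mul h0).add ((h i 1).mul h1)

lemma MeasM.det {M : Ω → Mat} (h : MeasM M) : Measurable fun x => (M x).det := by
  simp only [det_fin_two]
  exact ((h 0 0).mul (h 1 1)).sub ((h 0 1).mul (h 1 0))

lemma MeasM.en {M : Ω → Mat} (h : MeasM M) : Measurable fun x => en (M x) :=
  (((h 0 0).norm.add (h 0 1).norm).add (h 1 0).norm).add (h 1 1).norm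

lemma MeasM.Ph {M : Ω → Mat} (h : MeasM M) {v : Ω → Vec} (hv : Measurable v) :
    Measurable fun x => Ph (M x) (v x) :=
  (((h.mulVec hv).norm.log).sub hv.norm.log).sub (h.det.norm.log.div_const 2)

lemma measurable_wd {v w : Ω → Vec} (hv : Measurable v) (hw : Measurable w) :
    Measurable fun x => wd (v x) (w x) := by
  unfold wd
  exact (((measurable_pi_apply 0).comp hv).mul ((measurable_pi_apply 1).comp hw)).sub
    (((measurable_pi_apply 1).comp hv).mul ((measurable_pi_apply 0).comp hw))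

lemma measurable_pd {v w : Ω → Vec} (hv : Measurable v) (hw : Measurable w) :
    Measurable fun x => pd (v x) (w x) :=
  (measurable_wd hv hw).norm.div (hv.norm.mul hw.norm)

end Meas

/-- nonzero vectors -/
abbrev V := {v : Vec // v ≠ 0}

instance : Nonempty V := ⟨⟨fun _ => 1, fun h => by simpa using congrFun h 0⟩⟩

variable {Y : Type} [MeasurableSpace Y]

/-- a bounded measurable cocycle over pairs of letters -/
structure Coc (Y : Type) [MeasurableSpace Y] (C : ℝ) where
  A : Y → Y → Mat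
  meas : MeasM (fun p : Y × Y => A p.1 p.2)
  good : ∀ y y', Good C (A y y')
  one_le : 1 ≤ C

/-- last letter -/
def last : ℕ → Y → (ℕ → Y) → Y
  | 0, y, _ => y
  | n + 1, _, ω => ω n

namespace Coc
variable {C : ℝ} (A : Coc Y C)

noncomputable def toMAF : MAF (Y × V) Y where
  τ := fun s y => (y, ⟨A.A s.1 y *ᵥ s.2.1, mulVec_ne (A.good _ _).det_ne s.2.2⟩)
  φ := fun s y => Ph (A.A s.1 y) s.2.1
  C := 3 * Real.log C
  mτ := by
    refine measurable_snd.prodMk (Measurable.subtype_mk ?_)
    exact (A.meas.comp (f := fun p : (Y × V) × Y => (p.1.1, p.2)) (by fun_prop)).mulVec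
      (by fun_prop)
  mφ := (A.meas.comp (f := fun p : (Y × V) × Y => (p.1.1, p.2)) (by fun_prop)).Ph (by fun_prop)
  bd := fun s y => (A.good _ _).Ph_bd s.2.2
  hC := by have := Real.log_nonneg A.one_le; linarith

/-- matrix products -/
noncomputable def pr : ℕ → Y → (ℕ → Y) → Mat
  | 0, _, _ => 1
  | n + 1, y, ω => A.A (last n y ω) (ω n) * pr n y ω

lemma pr_good (n : ℕ) (y : Y) (ω : ℕ → Y) : Good (2 * C ^ n) (A.pr n y ω) := by
  induction n with
  | zero => simpa [pr] using good_one
  | succ n ih =>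
    have := (A.good (last n y ω) (ω n)).mul ih
    rwa [show C * (2 * C ^ n) = 2 * C ^ (n + 1) by ring] at this

lemma traj_fst (n : ℕ) (s : Y × V) (ω : ℕ → Y) : (A.toMAF.traj n s ω).1 = last n s.1 ω := by
  cases n <;> rfl

lemma traj_snd (n : ℕ) (s : Y × V) (ω : ℕ → Y) :
    (A.toMAF.traj n s ω).2.1 = A.pr n s.1 ω *ᵥ s.2.1 := by
  induction n with
  | zero => simp [MAF.traj, pr]
  | succ n ih =>
    show A.A (A.toMAF.traj n s ω).1 (ω n) *ᵥ (A.toMAF.traj n s ω).2.1 = _
    rw [ih, traj_fst, pr, mulVec_mulVec]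

lemma psum_eq (n : ℕ) (s : Y × V) (ω : ℕ → Y) :
    A.toMAF.psum n s ω = Ph (A.pr n s.1 ω) s.2.1 := by
  induction n with
  | zero => simp [MAF.psum, pr, Ph_one]
  | succ n ih =>
    rw [MAF.psum, Finset.sum_range_succ, ← MAF.psum, ih, pr,
      Ph_mul (A.good _ _).det_ne (A.pr_good n _ _).det_ne, add_comm]
    congr 1
    show Ph (A.A (A.toMAF.traj n s ω).1 (ω n)) (A.toMAF.traj n s ω).2.1 = _
    rw [traj_fst, traj_snd]

variable (P : Measure Y) [IsProbabilityMeasure P]

lemma G_lip (n : ℕ) (y : Y) (v w : V) :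
    A.toMAF.G P n (y, v) - A.toMAF.G P n (y, w) ≤ (2 * C ^ n) ^ 3 * pd v.1 w.1 := by
  unfold MAF.G
  rw [← integral_sub (A.toMAF.int_psum P n _) (A.toMAF.int_psum P n _)]
  refine integral_le_of_le ((A.toMAF.int_psum P n _).sub (A.toMAF.int_psum P n _)) fun ω => ?_
  rw [Pi.sub_apply, psum_eq, psum_eq]
  exact (A.pr_good n y ω).Ph_lip v.2 w.2

lemma G_congr (n : ℕ) (y : Y) {v w : V} (h : wd v.1 w.1 = 0) :
    A.toMAF.G P n (y, v) = A.toMAF.G P n (y, w) := by
  have h1 := A.G_lip P n y v w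
  have h2 := A.G_lip P n y w v
  rw [pd_comm] at h2
  rw [(pd_eq_zero v.2 w.2).2 h] at h1 h2
  linarith

lemma G_add_ge (n : ℕ) (y : Y) {v w : V} (h : wd v.1 w.1 ≠ 0) :
    Real.log (pd v.1 w.1) - 1 ≤ A.toMAF.G P n (y, v) + A.toMAF.G P n (y, w) := by
  unfold MAF.G
  rw [← integral_add (A.toMAF.int_psum P n _) (A.toMAF.int_psum P n _)]
  refine le_integral_of_le ((A.toMAF.int_psum P n _).add (A.toMAF.int_psum P n _)) fun ω => ?_
  rw [Pi.add_apply, psum_eq, psum_eq]
  exact Ph_add_ge (A.pr_good n y ω).det_ne v.2 w.2 h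

end Coc

lemma continuous_of_lip {g : V → ℝ} {K : ℝ} (h : ∀ v w : V, g v - g w ≤ K * pd v.1 w.1) :
    Continuous g := by
  rw [continuous_iff_continuousAt]
  intro v
  have h1 : Continuous fun w : V => |K| * pd w.1 v.1 := by
    refine continuous_const.mul ?_
    unfold pd wd
    have c0 : Continuous fun w : V => w.1 0 := (continuous_apply 0).comp continuous_subtype_val
    have c1 : Continuous fun w : V => w.1 1 := (continuous_apply 1).comp continuous_subtype_val
    refine Continuous.div ((c0.mul continuous_const).sub (c1.mul continuous_const)).norm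
      (continuous_subtype_val.norm.mul continuous_const) fun w => ?_
    exact mul_ne_zero (norm_ne_zero_iff.2 w.2) (norm_ne_zero_iff.2 v.2)
  have h2 : Tendsto (fun w : V => |K| * pd w.1 v.1) (𝓝 v) (𝓝 0) := by
    have := h1.tendsto v
    rwa [pd_self, mul_zero] at this
  rw [ContinuousAt, tendsto_iff_norm_sub_tendsto_zero]
  refine squeeze_zero (fun _ => norm_nonneg _) (fun w => ?_) h2
  have a1 := h w v
  have a2 := h v w
  rw [pd_comm] at a2
  have a3 : K * pd w.1 v.1 ≤ |K| * pd w.1 v.1 :=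
    mul_le_mul_of_nonneg_right (le_abs_self K) (pd_nonneg _ _)
  rw [Real.norm_eq_abs, abs_le]
  constructor <;> linarith

/-- almost every fibre contains a calibrated vector -/
lemma exists_calibrated [Nonempty Y] (E : MAF (Y × V) Y) (P : Measure Y) [IsProbabilityMeasure P]
    (hπ : ∀ s y, (E.τ s y).1 = y)
    (hlip : ∀ n, ∃ K, ∀ y (v w : V), E.G P n (y, v) - E.G P n (y, w) ≤ K * pd v.1 w.1) :
    ∀ᵐ y ∂P, ∃ (c : ℝ) (v : V), ∀ k : ℕ, k * E.β P - c ≤ E.G P k (y, v) := by
  obtain ⟨u, hu⟩ := TopologicalSpace.exists_dense_seq V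
  have hcont : ∀ k y, Continuous fun v : V => E.G P k (y, v) := fun k y => by
    obtain ⟨K, hK⟩ := hlip k
    exact continuous_of_lip (hK y)
  set T : ℕ → ℕ → Set Y := fun c n =>
    {y | ∃ j, ∀ k : ℕ, k ≤ n → k * E.β P - (c + 2) ≤ E.G P k (y, u j)} with hT
  have hTm : ∀ c n, MeasurableSet (T c n) := by
    intro c n
    simp only [hT, ofPred_exists, ofPred_forall]
    refine MeasurableSet.iUnion fun j => MeasurableSet.iInter fun k => MeasurableSet.iInter fun _ =>
      measurableSet_le measurable_const ((E.measurable_G P k).comp (by fun_prop))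
  have hT1 : ∀ c n : ℕ, ((c : ℝ) + 1) ≤ ((c : ℝ) + 1 + 2 * E.C) * P.real (T c (n + 1)) := by
    intro c n
    refine E.calib P Prod.fst hπ (n := n + 1) (by omega) (by positivity) (hTm c _) ?_
    rintro ⟨y, v⟩ hs
    have ho : IsOpen (⋂ k ∈ Finset.range (n + 2),
        {w : V | k * E.β P - (c + 2) < E.G P k (y, w)}) :=
      isOpen_biInter_finset fun k _ => isOpen_lt continuous_const (hcont k y)
    obtain ⟨j, hj⟩ := hu.exists_mem_open ho ⟨v, by
      simp only [mem_iInter, mem_ofPred_eq]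
      intro k hk
      rcases Nat.eq_zero_or_pos k with h | h
      · subst h
        rw [E.G_zero]
        have : (0 : ℝ) ≤ c := Nat.cast_nonneg c
        simp only [Nat.cast_zero, zero_mul]
        linarith
      · have := hs k h (by have := Finset.mem_range.1 hk; omega)
        linarith⟩
    refine ⟨j, fun k hk => ?_⟩
    simp only [mem_iInter, mem_ofPred_eq] at hj
    exact (hj k (Finset.mem_range.2 (by omega))).le
  have hT2 : ∀ c : ℕ, ((c : ℝ) + 1) ≤ ((c : ℝ) + 1 + 2 * E.C) * P.real (⋂ n, T c (n + 1)) := by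
    intro c
    have hanti : Antitone fun n => T c (n + 1) := by
      rintro a b hab y ⟨j, hj⟩
      exact ⟨j, fun k hk => hj k (by omega)⟩
    have h1 := tendsto_measure_iInter_atTop (μ := P) (fun n => (hTm c (n + 1)).nullMeasurableSet)
      hanti ⟨0, measure_ne_top _ _⟩
    have h2 := ((ENNReal.tendsto_toReal (measure_ne_top _ _)).comp h1).const_mul
      ((c : ℝ) + 1 + 2 * E.C)
    exact ge_of_tendsto' h2 fun n => hT1 c n
  set U := ⋃ c, ⋂ n, T c (n + 1) with hU
  have hUm : MeasurableSet U := MeasurableSet.iUnion fun c => MeasurableSet.iInter fun n => hTm c _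
  have hU1 : P.real Uᶜ = 0 := by
    refine le_antisymm (le_of_forall_pos_le_add fun ε hε => ?_) measureReal_nonneg
    obtain ⟨c, hc⟩ := exists_nat_gt (2 * E.C / ε)
    have h1 := hT2 c
    have h2 : P.real (⋂ n, T c (n + 1)) ≤ P.real U :=
      measureReal_mono (subset_iUnion (fun c => ⋂ n, T c (n + 1)) c)
    have h3 : P.real Uᶜ = 1 - P.real U := by
      rw [measureReal_compl hUm]; simp
    have hC := E.hC
    have h4 : (0 : ℝ) ≤ c := Nat.cast_nonneg c
    rw [div_lt_iff₀ hε] at hc
    have h5 : (c : ℝ) + 1 ≤ (c + 1 + 2 * E.C) * P.real U :=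
      h1.trans (mul_le_mul_of_nonneg_left h2 (by positivity))
    have h6 : P.real U ≤ 1 := measureReal_le_one
    rw [h3, zero_add]
    by_contra h7
    push Not at h7
    nlinarith
  have hU2 : ∀ᵐ y ∂P, y ∈ U := by
    rw [ae_iff]
    exact (measureReal_eq_zero_iff (measure_ne_top _ _)).1 hU1
  filter_upwards [hU2] with y hy
  obtain ⟨c, hc⟩ := mem_iUnion.1 hy
  rw [mem_iInter] at hc
  choose j hj using hc
  set w : ℕ → Vec := fun n => ((‖(u (j n)).1‖⁻¹ : ℝ) : ℂ) • (u (j n)).1 with hw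
  have hw1 : ∀ n, w n ∈ Metric.sphere (0 : Vec) 1 := by
    intro n
    rw [mem_sphere_zero_iff_norm, hw]
    simp only [norm_smul, Complex.norm_real, norm_inv, norm_norm]
    exact inv_mul_cancel₀ (norm_ne_zero_iff.2 (u (j n)).2)
  have hne : ∀ x ∈ Metric.sphere (0 : Vec) 1, x ≠ 0 := by
    intro x hx h
    rw [mem_sphere_zero_iff_norm, h, norm_zero] at hx
    exact zero_ne_one hx
  obtain ⟨x, hx, φ, hφ, hlim⟩ := (isCompact_sphere (0 : Vec) 1).tendsto_subseq hw1
  refine ⟨c + 2, ⟨x, hne x hx⟩, fun k => ?_⟩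
  have hlim2 : Tendsto (fun n => (⟨w (φ n), hne _ (hw1 _)⟩ : V)) atTop (𝓝 ⟨x, hne x hx⟩) :=
    tendsto_subtype_rng.2 hlim
  refine ge_of_tendsto (((hcont k y).tendsto _).comp hlim2) ?_
  filter_upwards [eventually_ge_atTop k] with n hn
  have h1 := hj (φ n) k (by have := hφ.id_le n; simp at this; omega)
  obtain ⟨K, hK⟩ := hlip k
  have h2 := hK y (u (j (φ n))) ⟨w (φ n), hne _ (hw1 _)⟩
  have h3 : pd (u (j (φ n))).1 (w (φ n)) = 0 := by
    rw [pd_comm, hw]
    simp only
    rw [pd_smul, pd_self]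
    exact_mod_cast inv_ne_zero (norm_ne_zero_iff.2 (u (j (φ n))).2)
  simp only [h3, mul_zero] at h2
  simp only [Function.comp]
  linarith

end H215LE
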