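import Mathlib
import Pool.Agent.H215Z.LE.Coc

/-! The dichotomy: uniform growth, or an invariant repelling section. -/

set_option autoImplicit false
open MeasureTheory Filter Topology Set Matrix

namespace H215LE

variable {Y : Type} [MeasurableSpace Y] [Nonempty Y]

namespace Coc
variable {C : ℝ} (A : Coc Y C) (P : Measure Y) [IsProbabilityMeasure P]

lemma cal_top : ∀ᵐ y ∂P, ∃ (c : ℝ) (v : V), ∀ k : ℕ,
    k * A.toMAF.β P - c ≤ A.toMAF.G P k (y, v) :=
  exists_calibrated A.toMAF P (fun _ _ => rfl) fun n => ⟨_, A.G_lip P n⟩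

lemma cal_bot : ∀ᵐ y ∂P, ∃ (c : ℝ) (v : V), ∀ k : ℕ,
    A.toMAF.G P k (y, v) ≤ -(k * A.toMAF.neg.β P) + c := by
  have := exists_calibrated A.toMAF.neg P (fun _ _ => rfl) fun n => ⟨(2 * C ^ n) ^ 3, fun y v w => by
    rw [MAF.neg_G, MAF.neg_G, pd_comm]
    have := A.G_lip P n y w v
    linarith⟩
  filter_upwards [this] with y ⟨c, v, h⟩
  refine ⟨c, v, fun k => ?_⟩
  have := h k
  rw [MAF.neg_G] at this
  linarith

lemma neg_M_ge (k : ℕ) (s : Y × V) : -A.toMAF.neg.M P k ≤ A.toMAF.G P k s := by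
  have := A.toMAF.neg.G_le_M P k s
  rw [MAF.neg_G] at this
  linarith

theorem dich : A.toMAF.β P ≤ -A.toMAF.neg.β P ∨ A.toMAF.β P ≤ A.toMAF.neg.β P := by
  by_contra hcon
  push Not at hcon
  obtain ⟨h1, h2⟩ := hcon
  set β := A.toMAF.β P with hβ
  set β' := A.toMAF.neg.β P with hβ'
  obtain ⟨y, ⟨c, w, hw⟩, ⟨c', v, hv⟩⟩ := ((A.cal_top P).and (A.cal_bot P)).exists
  rw [← hβ] at hw
  rw [← hβ'] at hv
  have hC1 := A.one_le
  have hC' := A.toMAF.hC
  set C' := A.toMAF.C with hC'def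
  have hne : wd v.1 w.1 ≠ 0 := by
    intro h0
    obtain ⟨k, hk⟩ := exists_nat_gt ((c + c') / (β + β'))
    have a1 := hw k
    have a2 := hv k
    rw [A.G_congr P k y h0] at a2
    rw [div_lt_iff₀ (by linarith)] at hk
    linarith
  set η := (β - β') / 4 with hη
  have hη0 : 0 < η := by rw [hη]; linarith
  obtain ⟨R0, hR0⟩ := exists_nat_gt (3 * Real.log C / (2 * η))
  set R := R0 + 1 with hR
  have hRpos : (0 : ℝ) < R := by rw [hR]; positivity
  have hR1 : C ^ 3 * Real.exp (-(2 * η * R)) ≤ 1 := by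
    rw [div_lt_iff₀ (by positivity)] at hR0
    have e : C ^ 3 = Real.exp (3 * Real.log C) := by
      rw [show (3 : ℝ) * Real.log C = ((3 : ℕ) : ℝ) * Real.log C by norm_num, Real.exp_nat_mul,
        Real.exp_log (by linarith)]
    rw [e, ← Real.exp_add, Real.exp_le_one_iff, hR]
    push_cast
    nlinarith
  set g := β + β' with hg
  have hg0 : 0 < g := by rw [hg]; linarith
  set δ := g / (8 * R) with hδ
  have hδ0 : 0 < δ := by positivity
  set ρ := g / (16 * (C' + 1)) with hρ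
  have hρ0 : 0 < ρ := by positivity
  have hev : ∀ᶠ k : ℕ in atTop,
      (∀ s, (PP P).real {ω | k * (β' + η) ≤ A.toMAF.neg.psum k s ω} ≤ ρ) ∧
      (∀ s, k * β - c ≤ A.toMAF.G P k s →
        (PP P).real {ω | A.toMAF.psum k s ω ≤ k * (β - η)} ≤ ρ) ∧
      A.toMAF.M P k ≤ k * (β + δ) ∧ A.toMAF.neg.M P k ≤ k * (β' + δ) :=
    (A.toMAF.neg.upperTail' P hη0 hρ0).and ((A.toMAF.conc P c hη0 hρ0).and
      ((A.toMAF.eventually_M_le P hδ0).and (A.toMAF.neg.eventually_M_le P hδ0)))
  have ht : Tendsto (fun j : ℕ => R * j) atTop atTop :=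
    tendsto_id.const_mul_atTop' (by omega)
  have hj0 : Tendsto (fun j : ℕ => (j : ℝ) * (g / 2)) atTop atTop :=
    tendsto_natCast_atTop_atTop.atTop_mul_const (by positivity)
  obtain ⟨j, ⟨e1, e2, e3, e4⟩, hj⟩ := ((ht.eventually hev).and
    (hj0.eventually_gt_atTop (24 + c + c'))).exists
  set k := R * j with hk
  have hkr : (k : ℝ) = R * j := by rw [hk]; push_cast; ring
  set B1 := {ω | k * (β' + η) ≤ A.toMAF.neg.psum k (y, v) ω} with hB1
  set B2 := {ω | A.toMAF.psum k (y, w) ω ≤ k * (β - η)} with hB2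
  have mB1 : MeasurableSet B1 :=
    measurableSet_le measurable_const (A.toMAF.neg.measurable_psum' k _)
  have mB2 : MeasurableSet B2 :=
    measurableSet_le (A.toMAF.measurable_psum' k _) measurable_const
  have hj' : (0 : ℝ) ≤ j := Nat.cast_nonneg j
  have hpt : ∀ ω, A.toMAF.G P j (A.toMAF.traj k (y, w) ω) - A.toMAF.G P j (A.toMAF.traj k (y, v) ω)
      ≤ 24 + (2 * (j * C')) * (indicator B1 (1 : (ℕ → Y) → ℝ) ω + indicator B2 1 ω) := by
    intro ω
    have b1 := (abs_le.1 (A.toMAF.G_bd P j (A.toMAF.traj k (y, w) ω))).2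
    have b2 := (abs_le.1 (A.toMAF.G_bd P j (A.toMAF.traj k (y, v) ω))).1
    have i1 : 0 ≤ indicator B1 (1 : (ℕ → Y) → ℝ) ω := indicator_nonneg (fun _ _ => zero_le_one) _
    have i2 : 0 ≤ indicator B2 (1 : (ℕ → Y) → ℝ) ω := indicator_nonneg (fun _ _ => zero_le_one) _
    have hjC : 0 ≤ 2 * (j * C') := by positivity
    by_cases m1 : ω ∈ B1
    · rw [indicator_of_mem m1, Pi.one_apply]
      nlinarith
    by_cases m2 : ω ∈ B2
    · rw [indicator_of_mem m2, Pi.one_apply]
      nlinarith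
    rw [indicator_of_notMem m1, indicator_of_notMem m2]
    simp only [hB1, hB2, mem_ofPred_eq, not_le, MAF.neg_psum, psum_eq] at m1 m2
    have hM := (A.pr_good k y ω).det_ne
    have l1 := log_pd hM v.2 w.2 hne
    have p0 : 0 < pd v.1 w.1 :=
      lt_of_le_of_ne (pd_nonneg _ _) (Ne.symm (mt (pd_eq_zero v.2 w.2).1 hne))
    have l2 : Real.log (pd v.1 w.1) ≤ 1 := by
      have := Real.log_le_sub_one_of_pos p0
      linarith [pd_le_two v.1 w.1]
    have p1 : 0 < pd (A.pr k y ω *ᵥ v.1) (A.pr k y ω *ᵥ w.1) := by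
      refine lt_of_le_of_ne (pd_nonneg _ _) (Ne.symm ?_)
      rw [Ne, pd_eq_zero (mulVec_ne hM v.2) (mulVec_ne hM w.2), wd_mulVec]
      exact mul_ne_zero hM hne
    have l3 : pd (A.pr k y ω *ᵥ v.1) (A.pr k y ω *ᵥ w.1) ≤ Real.exp (1 + j * (-(2 * η * R))) := by
      rw [← Real.log_le_iff_le_exp p1, l1]
      have : (j : ℝ) * (-(2 * η * R)) = k * (β' + η) - k * (β - η) := by
        rw [hkr, hη]; ring
      linarith
    have e5 : A.toMAF.traj k (y, w) ω = (last k y ω, (A.toMAF.traj k (y, w) ω).2) :=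
      Prod.ext (A.traj_fst k _ ω) rfl
    have e6 : A.toMAF.traj k (y, v) ω = (last k y ω, (A.toMAF.traj k (y, v) ω).2) :=
      Prod.ext (A.traj_fst k _ ω) rfl
    rw [e5, e6]
    refine (A.G_lip P j _ _ _).trans ?_
    rw [traj_snd, traj_snd, pd_comm]
    have l4 : (2 * C ^ j) ^ 3 * Real.exp (1 + j * (-(2 * η * R))) ≤ 24 := by
      rw [Real.exp_add, Real.exp_nat_mul]
      have : (C ^ 3 * Real.exp (-(2 * η * R))) ^ j ≤ 1 := pow_le_one₀ (by positivity) hR1
      have h3 := Real.exp_one_lt_three.le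
      calc (2 * C ^ j) ^ 3 * (Real.exp 1 * Real.exp (-(2 * η * R)) ^ j)
          = 8 * Real.exp 1 * (C ^ 3 * Real.exp (-(2 * η * R))) ^ j := by ring
        _ ≤ 8 * 3 * 1 := by gcongr
        _ = 24 := by norm_num
    have l5 := mul_le_mul_of_nonneg_left l3 (show 0 ≤ (2 * C ^ j) ^ 3 by positivity)
    simp only [add_zero, mul_zero]
    linarith
  have hi1 : Integrable (indicator B1 (1 : (ℕ → Y) → ℝ)) (PP P) :=
    (integrable_const (1 : ℝ)).indicator mB1
  have hi2 : Integrable (indicator B2 (1 : (ℕ → Y) → ℝ)) (PP P) :=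
    (integrable_const (1 : ℝ)).indicator mB2
  have hi3 : Integrable (fun ω => (2 * (j * C')) *
      (indicator B1 (1 : (ℕ → Y) → ℝ) ω + indicator B2 1 ω)) (PP P) := (hi1.add hi2).const_mul _
  have hi4 : Integrable (fun ω => 24 + (2 * (j * C')) *
      (indicator B1 (1 : (ℕ → Y) → ℝ) ω + indicator B2 1 ω)) (PP P) := (integrable_const _).add hi3
  have hi5 : Integrable (fun ω => A.toMAF.G P j (A.toMAF.traj k (y, w) ω) -
      A.toMAF.G P j (A.toMAF.traj k (y, v) ω)) (PP P) :=
    (A.toMAF.int_G_traj P k j _).sub (A.toMAF.int_G_traj P k j _)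
  have h3 := integral_mono hi5 hi4 hpt
  rw [integral_sub (A.toMAF.int_G_traj P k j _) (A.toMAF.int_G_traj P k j _),
    integral_add (integrable_const _) hi3, integral_const_mul, integral_add hi1 hi2,
    integral_indicator_one mB1, integral_indicator_one mB2] at h3
  simp only [integral_const, probReal_univ, smul_eq_mul, one_mul] at h3
  have f1 := e1 (y, v)
  have f2 := e2 (y, w) (hw k)
  have f3 := A.toMAF.G_add P k j (y, w)
  have f4 := A.toMAF.G_add P k j (y, v)
  have f5 := hw (k + j)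
  have f6 := hv (k + j)
  have f7 := (A.toMAF.G_le_M P k (y, w)).trans e3
  have f8 := A.neg_M_ge P k (y, v)
  have f9 : (2 * (j * C')) * ((PP P).real B1 + (PP P).real B2) ≤ j * (g / 4) := by
    have a1 : (PP P).real B1 + (PP P).real B2 ≤ 2 * ρ := by linarith
    have a2 : 4 * (C' * ρ) ≤ g / 4 := by
      rw [hρ]
      have : C' * (g / (16 * (C' + 1))) ≤ g / 16 := by
        rw [← mul_div_assoc, div_le_div_iff₀ (by positivity) (by positivity)]
        nlinarith
      linarith
    calc _ ≤ (2 * (j * C')) * (2 * ρ) := mul_le_mul_of_nonneg_left a1 (by positivity)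
      _ = j * (4 * (C' * ρ)) := by ring
      _ ≤ _ := mul_le_mul_of_nonneg_left a2 hj'
  have f10 : 2 * (k * δ) = j * (g / 4) := by
    rw [hkr, hδ]; field_simp; ring
  push_cast at f5 f6
  have f11 : (j : ℝ) * g = j * β + j * β' := by rw [hg]; ring
  nlinarith

lemma step_inv (hb : 0 < A.toMAF.neg.β P) {y : Y} {v : V} {c : ℝ}
    (hv : ∀ k : ℕ, A.toMAF.G P k (y, v) ≤ -(k * A.toMAF.neg.β P) + c) :
    ∀ᵐ y' ∂P, ∀ (c' : ℝ) (w : V),
      (∀ k : ℕ, A.toMAF.G P k (y', w) ≤ -(k * A.toMAF.neg.β P) + c') →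
      wd (A.A y y' *ᵥ v.1) w.1 = 0 := by
  set β' := A.toMAF.neg.β P with hβ'
  set f : ℕ → Y → ℝ := fun k y' => A.toMAF.G P k (A.toMAF.τ (y, v) y') + A.toMAF.neg.M P k with hf
  have hfm : ∀ k, Measurable (f k) := fun k =>
    ((A.toMAF.measurable_G P k).comp (A.toMAF.mτ' _)).add measurable_const
  have hf0 : ∀ k y', 0 ≤ f k y' := fun k y' => by
    have := A.neg_M_ge P k (A.toMAF.τ (y, v) y')
    simp only [hf]; linarith
  have hfi : ∀ k, Integrable (f k) P := fun k => (A.toMAF.int_G_τ P k _).add (integrable_const _)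
  have hfe : ∀ k, ∫ y', f k y' ∂P ≤ A.toMAF.neg.M P k - k * β' + (c + A.toMAF.C) := by
    intro k
    simp only [hf]
    rw [integral_add (A.toMAF.int_G_τ P k _) (integrable_const _)]
    simp only [integral_const, probReal_univ, smul_eq_mul, one_mul]
    have a1 := A.toMAF.G_succ P k (y, v)
    have a2 := hv (k + 1)
    have a3 := (abs_le.1 (A.toMAF.G_bd P 1 (y, v))).1
    push_cast at a2 a3
    linarith
  have hE : ∀ K : ℕ, ∀ᵐ y' ∂P, ¬ ∀ k : ℕ, K ≤ k → k * β' ≤ f k y' := by
    intro K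
    set E := {y' | ∀ k : ℕ, K ≤ k → k * β' ≤ f k y'} with hEdef
    have mE : MeasurableSet E := by
      simp only [hEdef, ofPred_forall]
      exact MeasurableSet.iInter fun k => MeasurableSet.iInter fun _ =>
        measurableSet_le measurable_const (hfm k)
    have h0 : P.real E = 0 := by
      refine le_antisymm (le_of_forall_pos_le_add fun ε hε => ?_) measureReal_nonneg
      have h1 : Tendsto (fun k : ℕ => (k : ℝ) * (β' * ε / 2)) atTop atTop :=
        tendsto_natCast_atTop_atTop.atTop_mul_const (by positivity)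
      obtain ⟨k, ⟨a1, a2⟩, a3, a4⟩ := (((A.toMAF.neg.eventually_M_le P
        (show 0 < β' * ε / 2 by positivity)).and (h1.eventually_ge_atTop (c + A.toMAF.C))).and
        ((eventually_ge_atTop K).and (eventually_gt_atTop 0))).exists
      have hk : (0 : ℝ) < k := by exact_mod_cast a4
      have a5 : ∫ y', (k * β') * indicator E (1 : Y → ℝ) y' ∂P ≤ ∫ y', f k y' ∂P := by
        refine integral_mono (((integrable_const (1 : ℝ)).indicator mE).const_mul _) (hfi k)
          fun y' => ?_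
        by_cases m : y' ∈ E
        · simp only [indicator_of_mem m, Pi.one_apply, mul_one]; exact m k a3
        · simp only [indicator_of_notMem m, mul_zero]; exact hf0 k y'
      rw [integral_const_mul, integral_indicator_one mE] at a5
      have a6 := hfe k
      rw [← hβ'] at a1
      have a7 : (k * β') * P.real E ≤ (k * β') * ε := by nlinarith
      rw [zero_add]
      exact le_of_mul_le_mul_left a7 (by positivity)
    rw [ae_iff]
    simp only [not_not]
    exact (measureReal_eq_zero_iff (measure_ne_top _ _)).1 h0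
  filter_upwards [ae_all_iff.2 hE] with y' hy' c' w hw
  by_contra hne
  set u : V := (A.toMAF.τ (y, v) y').2 with hu
  have h1 : Tendsto (fun k : ℕ => (k : ℝ) * β') atTop atTop :=
    tendsto_natCast_atTop_atTop.atTop_mul_const hb
  obtain ⟨K, hK⟩ := eventually_atTop.1
    (h1.eventually_ge_atTop (c' + 1 - Real.log (pd u.1 w.1)))
  refine hy' K fun k hk => ?_
  have a1 := A.G_add_ge P k y' (v := u) (w := w) hne
  have a2 := hw k
  have a3 := A.toMAF.neg.β_le P k
  have a4 := hK k hk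
  have e : f k y' = A.toMAF.G P k (y', u) + A.toMAF.neg.M P k := rfl
  rw [e]
  rw [← hβ'] at a3
  linarith

theorem exists_section (hb : 0 < A.toMAF.neg.β P) : ∃ L : Y → V, Measurable L ∧
    (∀ᵐ p ∂(P.prod P), wd (A.A p.1 p.2 *ᵥ (L p.1).1) (L p.2).1 = 0) ∧
    ∫ y, A.toMAF.G P 1 (y, L y) ∂P ≤ -A.toMAF.neg.β P := by
  obtain ⟨y0, c0, v0, h0⟩ := (A.cal_bot P).exists
  set L : Y → V := fun y' => (A.toMAF.τ (y0, v0) y').2 with hL
  have hLm : Measurable L := measurable_snd.comp (A.toMAF.mτ' _)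
  have hcal : ∀ᵐ y ∂P, ∃ c : ℝ, ∀ k : ℕ,
      A.toMAF.G P k (y, L y) ≤ -(k * A.toMAF.neg.β P) + c := by
    filter_upwards [A.cal_bot P, A.step_inv P hb h0] with y ⟨c, w, hw⟩ h1
    refine ⟨c, fun k => ?_⟩
    rw [A.G_congr P k y (v := L y) (w := w) (h1 c w hw)]
    exact hw k
  have hinv : ∀ᵐ y ∂P, ∀ᵐ y' ∂P, wd (A.A y y' *ᵥ (L y).1) (L y').1 = 0 := by
    filter_upwards [hcal] with y ⟨c, hc⟩
    filter_upwards [A.step_inv P hb hc, hcal] with y' h1 ⟨c', hc'⟩
    exact h1 c' _ hc'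
  have hLv : Measurable fun y => (L y).1 := measurable_subtype_coe.comp hLm
  refine ⟨L, hLm, ?_, ?_⟩
  · have hm : MeasurableSet {p : Y × Y | wd (A.A p.1 p.2 *ᵥ (L p.1).1) (L p.2).1 = 0} :=
      measurableSet_eq_fun (measurable_wd (A.meas.mulVec (hLv.comp measurable_fst))
        (hLv.comp measurable_snd)) measurable_const
    exact (Measure.ae_prod_iff_ae_ae hm).2 hinv
  · have hGm : ∀ k, Measurable fun y => A.toMAF.G P k (y, L y) := fun k =>
      (A.toMAF.measurable_G P k).comp (measurable_id.prodMk hLm)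
    have hGi : ∀ k, Integrable (fun y => A.toMAF.G P k (y, L y)) P := fun k =>
      integrable_of_bd (hGm k) fun y => A.toMAF.G_bd P k _
    have hstep : ∀ k, ∀ᵐ y ∂P, A.toMAF.G P (k + 1) (y, L y) =
        A.toMAF.G P 1 (y, L y) + ∫ y', A.toMAF.G P k (y', L y') ∂P := by
      intro k
      filter_upwards [hinv] with y hy
      rw [A.toMAF.G_succ]
      congr 1
      refine integral_congr_ae ?_
      filter_upwards [hy] with y' hy'
      exact A.G_congr P k y' (v := (A.toMAF.τ (y, L y) y').2) hy'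
    have hI : ∀ k : ℕ, ∫ y, A.toMAF.G P k (y, L y) ∂P = k * ∫ y, A.toMAF.G P 1 (y, L y) ∂P := by
      intro k
      induction k with
      | zero => simp [MAF.G_zero]
      | succ k ih =>
        rw [integral_congr_ae (hstep k), integral_add (hGi 1) (integrable_const _), ih]
        simp only [integral_const, probReal_univ, smul_eq_mul, one_mul]
        push_cast; ring
    obtain ⟨y, ⟨c, hc⟩, hy⟩ := (hcal.and (ae_all_iff.2 hstep)).exists
    by_contra hcon
    push Not at hcon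
    obtain ⟨k, hk⟩ := exists_nat_gt ((c + A.toMAF.C) /
      (∫ y, A.toMAF.G P 1 (y, L y) ∂P + A.toMAF.neg.β P))
    rw [div_lt_iff₀ (by linarith)] at hk
    have a1 := hy k
    have a2 := hc (k + 1)
    have a3 := (abs_le.1 (A.toMAF.G_bd P 1 (y, L y))).1
    rw [hI] at a1
    push_cast at a2 a3
    nlinarith

end Coc

end H215LE
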