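import Mathlib
import Pool.Agent.H215Z.LE.Dich
import Pool.Agent.H215Z.LE.Coup

/-! Perturbation estimates. -/

set_option autoImplicit false
set_option linter.unusedSectionVars false
open MeasureTheory Filter Topology Set Matrix
open scoped ENNReal

namespace H215LE

variable {S Y : Type} [MeasurableSpace S] [MeasurableSpace Y]

/-- total variation closeness -/
def TV (p q : Measure Y) (γ : ℝ) : Prop :=
  ∀ φ : Y → ℝ, Measurable φ → (∀ y, |φ y| ≤ 1) → |∫ y, φ y ∂p - ∫ y, φ y ∂q| ≤ γ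

lemma TV.symm {p q : Measure Y} {γ : ℝ} (h : TV p q γ) : TV q p γ := fun φ h1 h2 => by
  rw [abs_sub_comm]; exact h φ h1 h2

lemma TV.mono {p q : Measure Y} {γ γ' : ℝ} (h : TV p q γ) (h' : γ ≤ γ') : TV p q γ' :=
  fun φ h1 h2 => (h φ h1 h2).trans h'

lemma TV.nonneg {p q : Measure Y} {γ : ℝ} (h : TV p q γ) : 0 ≤ γ :=
  (abs_nonneg _).trans (h (fun _ => 0) measurable_const (by simp))

lemma TV.scaled {p q : Measure Y} {γ : ℝ} (h : TV p q γ) {φ : Y → ℝ} (hφ : Measurable φ) {K : ℝ}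
    (hK0 : 0 ≤ K) (hK : ∀ y, |φ y| ≤ K) : |∫ y, φ y ∂p - ∫ y, φ y ∂q| ≤ K * γ := by
  rcases hK0.lt_or_eq with h0 | h0
  · have := h (fun y => K⁻¹ * φ y) (hφ.const_mul _) fun y => by
      rw [abs_mul, abs_of_pos (inv_pos.2 h0), inv_mul_le_iff₀ h0, mul_one]; exact hK y
    rw [integral_const_mul, integral_const_mul, ← mul_sub, abs_mul, abs_of_pos (inv_pos.2 h0),
      inv_mul_le_iff₀ h0] at this
    exact this
  · have : φ = fun _ => 0 := funext fun y => abs_nonpos_iff.1 (h0 ▸ hK y)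
    subst this
    simp [← h0]

namespace MAF
variable (F : MAF S Y) (P : Measure Y) [IsProbabilityMeasure P]

lemma G_close_meas {q : Measure Y} [IsProbabilityMeasure q] {γ : ℝ} (h : TV P q γ) (n : ℕ) (s : S) :
    F.G P n s - F.G q n s ≤ n ^ 2 * F.C * γ := by
  induction n generalizing s with
  | zero => simp [G_zero]
  | succ n ih =>
    rw [F.G_succ P n, F.G_succ q n, G_one, G_one]
    have h1 := (abs_le.1 (h.scaled (F.mφ' s) F.hC (F.bd s))).2
    have hn : (0 : ℝ) ≤ n * F.C := mul_nonneg (Nat.cast_nonneg n) F.hC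
    have h2 := (abs_le.1 (h.scaled (φ := fun y => F.G P n (F.τ s y))
      ((F.measurable_G P n).comp (F.mτ' s)) hn (fun y => F.G_bd P n _))).2
    have i1 : Integrable (fun y => F.G P n (F.τ s y)) q :=
      integrable_of_bd ((F.measurable_G P n).comp (F.mτ' s)) (fun _ => F.G_bd P n _)
    have h3 : ∫ y, F.G P n (F.τ s y) ∂q - ∫ y, F.G q n (F.τ s y) ∂q ≤ n ^ 2 * F.C * γ := by
      rw [← integral_sub i1 (F.int_G_τ q n s)]
      exact integral_le_of_le (i1.sub (F.int_G_τ q n s)) fun y => ih _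
    have h4 : 0 ≤ n * F.C * γ := mul_nonneg hn h.nonneg
    push_cast
    nlinarith

lemma lintegral_occ (s0 : S) (n : ℕ) {f : S → ℝ≥0∞} (hf : Measurable f) :
    ∫⁻ s, f s ∂(occ P F.τ (Measure.dirac s0) n) =
      ∑ j ∈ Finset.range n, ∫⁻ ω, f (F.traj j s0 ω) ∂(PP P) := by
  induction n generalizing f with
  | zero => simp [occ]
  | succ n ih =>
    have hT : Measurable fun s => ∫⁻ y, f (F.τ s y) ∂P := (hf.comp F.mτ).lintegral_prod_right'
    rw [occ, lintegral_add_measure, lintegral_push P F.mτ _ hf, ih hT, lintegral_dirac' _ hf,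
      Finset.sum_range_succ']
    congr 1
    · refine Finset.sum_congr rfl fun j _ => ?_
      have hm : Measurable fun ω => f (F.traj (j + 1) s0 ω) := hf.comp (F.measurable_traj' _ _)
      rw [← (mp_cat P j).lintegral_comp hm,
        lintegral_prod (fun a : (ℕ → Y) × (ℕ → Y) => f (F.traj (j + 1) s0 (cat j a.1 a.2)))
          (hm.comp (measurable_cat j)).aemeasurable]
      refine lintegral_congr fun ω => ?_
      simp only [traj_cat]
      exact ((measurePreserving_eval_infinitePi (fun _ : ℕ => P) 0).lintegral_comp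
        (hf.comp (F.mτ' _))).symm
    · simp [traj]

lemma occ_apply (s0 : S) (n : ℕ) {N : Set S} (hN : MeasurableSet N) :
    occ P F.τ (Measure.dirac s0) n N =
      ∑ j ∈ Finset.range n, PP P {ω | F.traj j s0 ω ∈ N} := by
  rw [← lintegral_indicator_one hN, F.lintegral_occ P s0 n (measurable_one.indicator hN)]
  refine Finset.sum_congr rfl fun j _ => ?_
  exact lintegral_indicator_one (F.measurable_traj' j s0 hN)

variable [Nonempty S]

lemma β_ge_of_occ (s0 : S) (m : ℕ) {a θ : ℝ} {N : Set S} (hN : MeasurableSet N) (hθ : 0 ≤ θ)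
    (h : ∀ s, s ∉ N → a ≤ F.G P m s) (ha : a ≤ m * F.C)
    (hocc : ∀ n : ℕ, occ P F.τ (Measure.dirac s0) n N ≤ ENNReal.ofReal (θ * n)) :
    a - 2 * m * F.C * θ ≤ m * F.β P := by
  set g : ℕ → ℝ := fun j => F.G P j s0 with hg
  have hC := F.hC
  have hm : (0 : ℝ) ≤ m := Nat.cast_nonneg m
  have hstep : ∀ j, a - 2 * m * F.C * (PP P).real {ω | F.traj j s0 ω ∈ N} ≤ g (m + j) - g j := by
    intro j
    have hs : MeasurableSet {ω | F.traj j s0 ω ∈ N} := F.measurable_traj' j s0 hN
    have hi : Integrable (fun ω => 2 * m * F.C * indicator {ω | F.traj j s0 ω ∈ N}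
        (1 : (ℕ → Y) → ℝ) ω) (PP P) := ((integrable_const (1 : ℝ)).indicator hs).const_mul _
    have h1 := integral_mono ((integrable_const a).sub hi) (F.int_G_traj P j m s0) fun ω => by
      show a - 2 * m * F.C * indicator {ω | F.traj j s0 ω ∈ N} (1 : (ℕ → Y) → ℝ) ω ≤ _
      by_cases hω : F.traj j s0 ω ∈ N
      · rw [indicator_of_mem (show ω ∈ {ω | F.traj j s0 ω ∈ N} from hω)]
        have := (abs_le.1 (F.G_bd P m (F.traj j s0 ω))).1
        simp only [Pi.one_apply]
        linarith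
      · rw [indicator_of_notMem (show ω ∉ {ω | F.traj j s0 ω ∈ N} from hω)]
        have := h _ hω
        linarith
    rw [integral_sub' (integrable_const a) hi, integral_const_mul, integral_indicator_one hs] at h1
    simp only [integral_const, probReal_univ, smul_eq_mul, one_mul] at h1
    simp only [hg]
    rw [add_comm m j, G_add]
    linarith
  have hsum : ∀ n : ℕ, n * (a - 2 * m * F.C * θ) ≤ ∑ j ∈ Finset.range m, (g (n + j) - g j) := by
    intro n
    have e1 := Finset.sum_range_add g n m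
    have e2 := Finset.sum_range_add g m n
    rw [add_comm m n, e1] at e2
    have h1 := Finset.sum_le_sum fun j (_ : j ∈ Finset.range n) => hstep j
    rw [Finset.sum_sub_distrib, Finset.sum_sub_distrib, ← Finset.mul_sum] at h1
    have h2 : ∑ j ∈ Finset.range n, (PP P).real {ω | F.traj j s0 ω ∈ N} ≤ θ * n := by
      have h3 := hocc n
      rw [F.occ_apply P s0 n hN] at h3
      have h4 := ENNReal.toReal_mono ENNReal.ofReal_ne_top h3
      rw [ENNReal.toReal_sum (fun j _ => measure_ne_top _ _),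
        ENNReal.toReal_ofReal (by positivity)] at h4
      exact h4
    have h5 := mul_le_mul_of_nonneg_left h2 (show 0 ≤ 2 * m * F.C by positivity)
    rw [Finset.sum_sub_distrib]
    simp only [Finset.sum_const, Finset.card_range, nsmul_eq_mul] at h1
    nlinarith
  refine le_of_forall_pos_le_add fun ε hε => ?_
  have hε' : 0 < ε / (2 * (m + 1)) := by positivity
  obtain ⟨n0, hn0⟩ := exists_nat_gt (2 * m * m * F.C / (ε / 2))
  obtain ⟨n, h1, h2⟩ := ((F.eventually_M_le P hε').and (eventually_gt_atTop n0)).exists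
  have h3 : ∑ j ∈ Finset.range m, (g (n + j) - g j) ≤
      ∑ j ∈ Finset.range m, (n * (F.β P + ε / (2 * (m + 1))) + 2 * m * F.C) := by
    refine Finset.sum_le_sum fun j hj => ?_
    have hj' : (j : ℝ) ≤ m := by exact_mod_cast (Finset.mem_range.1 hj).le
    have a1 : g (n + j) ≤ F.M P n + j * F.C := by
      simp only [hg]
      rw [G_add]
      exact add_le_add (F.G_le_M P n s0) (integral_le_of_le (F.int_G_traj P n j s0) fun ω =>
        (abs_le.1 (F.G_bd P j _)).2)
    have a2 := (abs_le.1 (F.G_bd P j s0)).1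
    have a3 : j * F.C ≤ m * F.C := mul_le_mul_of_nonneg_right hj' hC
    simp only [hg] at a1 ⊢
    linarith
  simp only [Finset.sum_const, Finset.card_range, nsmul_eq_mul] at h3
  have h4 := (hsum n).trans h3
  have hn : (n0 : ℝ) < n := by exact_mod_cast h2
  have hn' : (0 : ℝ) < n := (Nat.cast_nonneg n0).trans_lt hn
  rw [div_lt_iff₀ (half_pos hε)] at hn0
  have h5 : m * (ε / (2 * (m + 1))) ≤ ε / 2 := by
    rw [← mul_div_assoc, div_le_div_iff₀ (by positivity) (by positivity)]
    nlinarith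
  have h6 : n * (m * (ε / (2 * (m + 1)))) ≤ n * (ε / 2) := mul_le_mul_of_nonneg_left h5 hn'.le
  have h7 : n0 * (ε / 2) ≤ n * (ε / 2) := mul_le_mul_of_nonneg_right hn.le (half_pos hε).le
  refine le_of_mul_le_mul_left ?_ hn'
  nlinarith

lemma β_ge_of (m : ℕ) {a : ℝ} (h : ∀ s, a ≤ F.G P m s) : a ≤ m * F.β P := by
  obtain ⟨s0⟩ := ‹Nonempty S›
  have := F.β_ge_of_occ P s0 m (a := a) (θ := 0) (N := ∅) MeasurableSet.empty le_rfl
    (fun s _ => h s) ((h s0).trans (abs_le.1 (F.G_bd P m s0)).2) (by simp)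
  simpa using this

end MAF

namespace Coc
variable {C : ℝ}

/-- uniform closeness -/
def Close (A B : Coc Y C) (γ : ℝ) : Prop := ∀ y y', en (A.A y y' - B.A y y') ≤ γ

lemma Close.symm {A B : Coc Y C} {γ : ℝ} (h : Close A B γ) : Close B A γ := fun y y' => by
  rw [en_sub_comm]; exact h y y'

lemma Close.mono {A B : Coc Y C} {γ γ' : ℝ} (h : Close A B γ) (h' : γ ≤ γ') : Close A B γ' :=
  fun y y' => (h y y').trans h'

lemma pr_close {A B : Coc Y C} {γ : ℝ} (h : Close A B γ) (hγ : 0 ≤ γ) (n : ℕ) (y : Y) (ω : ℕ → Y) :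
    en (A.pr n y ω - B.pr n y ω) ≤ 2 * n * C ^ n * γ := by
  induction n with
  | zero => simp [pr, en]
  | succ n ih =>
    have e : A.pr (n + 1) y ω - B.pr (n + 1) y ω =
        (A.A (last n y ω) (ω n) - B.A (last n y ω) (ω n)) * A.pr n y ω +
          B.A (last n y ω) (ω n) * (A.pr n y ω - B.pr n y ω) := by
      simp only [pr]; noncomm_ring
    rw [e]
    have hC := A.one_le
    have h1 := (en_mul (A.A (last n y ω) (ω n) - B.A (last n y ω) (ω n)) (A.pr n y ω)).trans
      (mul_le_mul (h _ _) (A.pr_good n y ω).1 (en_nonneg _) hγ)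
    have h2 := (en_mul (B.A (last n y ω) (ω n)) (A.pr n y ω - B.pr n y ω)).trans
      (mul_le_mul (B.good _ _).1 ih (en_nonneg _) (by linarith))
    refine (en_add _ _).trans ?_
    have h3 : 0 ≤ C ^ n * γ := by positivity
    have h4 : C ^ n * γ ≤ C * (C ^ n * γ) := by nlinarith
    push_cast
    rw [pow_succ]
    nlinarith

/-- the perturbation constant -/
noncomputable def KK (C : ℝ) (n : ℕ) : ℝ :=
  2 * (2 * C ^ n) ^ 2 * (2 * n * C ^ n) + n ^ 2 * (3 * Real.log C)

lemma KK_nonneg (hC : 1 ≤ C) (n : ℕ) : 0 ≤ KK C n := by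
  have := Real.log_nonneg hC
  unfold KK; positivity

lemma G_close {A B : Coc Y C} {P q : Measure Y} [IsProbabilityMeasure P] [IsProbabilityMeasure q]
    {γ : ℝ} (h : Close A B γ) (h' : TV P q γ) (n : ℕ) (s : Y × V) :
    A.toMAF.G P n s - B.toMAF.G q n s ≤ KK C n * γ := by
  have h1 := B.toMAF.G_close_meas P h' n s
  have h2 : A.toMAF.G P n s - B.toMAF.G P n s ≤ 2 * (2 * C ^ n) ^ 2 * (2 * n * C ^ n * γ) := by
    unfold MAF.G
    rw [← integral_sub (A.toMAF.int_psum P n _) (B.toMAF.int_psum P n _)]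
    refine integral_le_of_le ((A.toMAF.int_psum P n _).sub (B.toMAF.int_psum P n _)) fun ω => ?_
    rw [Pi.sub_apply, psum_eq, psum_eq]
    exact ((A.pr_good n s.1 ω).Ph_pert (B.pr_good n s.1 ω) s.2.2).trans
      (mul_le_mul_of_nonneg_left (pr_close h h'.nonneg n _ _) (by positivity))
  have h3 : B.toMAF.C = 3 * Real.log C := rfl
  rw [h3] at h1
  unfold KK
  linarith

variable [Nonempty Y] (A : Coc Y C) (P : Measure Y) [IsProbabilityMeasure P]

lemma usc {ε : ℝ} (hε : 0 < ε) : ∃ γ > 0, ∀ (B : Coc Y C) (q : Measure Y) [IsProbabilityMeasure q],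
    Close A B γ → TV P q γ → B.toMAF.β q ≤ A.toMAF.β P + ε := by
  obtain ⟨n, h1, h2⟩ := ((A.toMAF.eventually_M_le P (half_pos hε)).and
    (eventually_gt_atTop 0)).exists
  have hK := KK_nonneg A.one_le n
  refine ⟨ε / 2 / (KK C n + 1), by positivity, fun B q _ hc ht => ?_⟩
  have hn : (1 : ℝ) ≤ n := by exact_mod_cast h2
  have h3 : KK C n * (ε / 2 / (KK C n + 1)) ≤ ε / 2 := by
    rw [← mul_div_assoc, div_le_iff₀ (by positivity)]; nlinarith
  have h4 : B.toMAF.M q n ≤ A.toMAF.M P n + ε / 2 := B.toMAF.M_le q fun s => by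
    have := G_close hc.symm ht.symm n s
    have := A.toMAF.G_le_M P n s
    linarith
  have h5 := B.toMAF.β_le q n
  refine le_of_mul_le_mul_left ?_ (show (0 : ℝ) < n by linarith)
  nlinarith

lemma lsc_unif (hb : A.toMAF.β P ≤ -A.toMAF.neg.β P) {ε : ℝ} (hε : 0 < ε) :
    ∃ γ > 0, ∀ (B : Coc Y C) (q : Measure Y) [IsProbabilityMeasure q],
    Close A B γ → TV P q γ → A.toMAF.β P - ε ≤ B.toMAF.β q := by
  obtain ⟨n, h1, h2⟩ := ((A.toMAF.neg.eventually_M_le P (half_pos hε)).and
    (eventually_gt_atTop 0)).exists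
  have hK := KK_nonneg A.one_le n
  refine ⟨ε / 2 / (KK C n + 1), by positivity, fun B q _ hc ht => ?_⟩
  have hn : (1 : ℝ) ≤ n := by exact_mod_cast h2
  have h3 : KK C n * (ε / 2 / (KK C n + 1)) ≤ ε / 2 := by
    rw [← mul_div_assoc, div_le_iff₀ (by positivity)]; nlinarith
  have h4 := B.toMAF.β_ge_of q n (a := n * (A.toMAF.β P - ε)) fun s => by
    have := G_close hc ht n s
    have := A.neg_M_ge P n s
    nlinarith
  exact le_of_mul_le_mul_left h4 (show (0 : ℝ) < n by linarith)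

lemma β_nonneg : 0 ≤ A.toMAF.β P := by
  obtain ⟨y⟩ := ‹Nonempty Y›
  let e0 : V := ⟨Pi.single 0 1, fun h => by simpa using congrFun h 0⟩
  let e1 : V := ⟨Pi.single 1 1, fun h => by simpa using congrFun h 1⟩
  have hw : wd e0.1 e1.1 = 1 := by simp [wd, e0, e1]
  have hp : pd e0.1 e1.1 = 1 := by
    unfold pd; rw [hw]; simp [e0, e1, Pi.norm_single]
  have h1 : ∀ n : ℕ, -1 ≤ A.toMAF.M P n := by
    intro n
    have := A.G_add_ge P n y (v := e0) (w := e1) (by rw [hw]; exact one_ne_zero)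
    rw [hp, Real.log_one] at this
    have := A.toMAF.G_le_M P n (y, e0)
    have := A.toMAF.G_le_M P n (y, e1)
    linarith
  have h2 : Tendsto (fun n : ℕ => (-1 : ℝ) / n) atTop (𝓝 0) :=
    tendsto_const_div_atTop_nhds_zero_nat _
  exact le_of_tendsto_of_tendsto' h2 (A.toMAF.tendsto_M P) fun n =>
    div_le_div_of_nonneg_right (h1 n) (Nat.cast_nonneg n)

lemma G_congr_ae {C' : ℝ} (A' : Coc Y C') (h : ∀ᵐ p ∂(P.prod P), A.A p.1 p.2 = A'.A p.1 p.2)
    (n : ℕ) : ∀ᵐ y ∂P, ∀ v, A.toMAF.G P n (y, v) = A'.toMAF.G P n (y, v) := by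
  induction n with
  | zero => exact Eventually.of_forall fun y v => by rw [MAF.G_zero, MAF.G_zero]
  | succ n ih =>
    filter_upwards [Measure.ae_ae_of_ae_prod h] with y hy v
    rw [A.toMAF.G_succ P n, A'.toMAF.G_succ P n, MAF.G_one, MAF.G_one]
    congr 1
    · refine integral_congr_ae ?_
      filter_upwards [hy] with y' hy'
      show Ph (A.A y y') v.1 = Ph (A'.A y y') v.1
      rw [hy']
    · refine integral_congr_ae ?_
      filter_upwards [hy, ih] with y' hy' h2
      have : A.toMAF.τ (y, v) y' = A'.toMAF.τ (y, v) y' := by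
        refine Prod.ext rfl (Subtype.ext ?_)
        show A.A y y' *ᵥ v.1 = A'.A y y' *ᵥ v.1
        rw [hy']
      rw [this]
      exact h2 _

lemma β_le_of_ae {C' : ℝ} (A' : Coc Y C') (h : ∀ᵐ p ∂(P.prod P), A.A p.1 p.2 = A'.A p.1 p.2) :
    A.toMAF.β P ≤ A'.toMAF.β P := by
  have h1 : ∀ n, A.toMAF.M P (n + 1) ≤ A.toMAF.C + A'.toMAF.M P n := by
    intro n
    refine A.toMAF.M_le P fun s => ?_
    rw [MAF.G_succ]
    have h2 := (abs_le.1 (A.toMAF.G_bd P 1 s)).2
    simp only [Nat.cast_one, one_mul] at h2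
    refine add_le_add h2 ?_
    have h3 := integral_mono_ae (A.toMAF.int_G_τ P n s) (integrable_const (A'.toMAF.M P n)) (by
      filter_upwards [A.G_congr_ae P A' h n] with y hy
      exact (hy _).trans_le (A'.toMAF.G_le_M P n _))
    simpa using h3
  refine le_of_forall_pos_le_add fun ε hε => ?_
  obtain ⟨n0, hn0⟩ := exists_nat_gt (2 * A.toMAF.C / (ε / 2))
  obtain ⟨n, h2, h3⟩ := ((A'.toMAF.eventually_M_le P (half_pos hε)).and
    (eventually_gt_atTop n0)).exists
  have h4 := A.toMAF.β_le P (n + 1)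
  have h5 := h1 n
  have h6 := (abs_le.1 (A.toMAF.β_bd P)).1
  have hn : (n0 : ℝ) < n := by exact_mod_cast h3
  have hn' : (0 : ℝ) < n := (Nat.cast_nonneg n0).trans_lt hn
  rw [div_lt_iff₀ (half_pos hε)] at hn0
  have h7 : n0 * (ε / 2) ≤ n * (ε / 2) := mul_le_mul_of_nonneg_right hn.le (half_pos hε).le
  push_cast at h4
  refine le_of_mul_le_mul_left ?_ hn'
  nlinarith

lemma β_eq_of_ae {C' : ℝ} (A' : Coc Y C') (h : ∀ᵐ p ∂(P.prod P), A.A p.1 p.2 = A'.A p.1 p.2) :
    A.toMAF.β P = A'.toMAF.β P :=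
  le_antisymm (A.β_le_of_ae P A' h) (A'.β_le_of_ae P A (h.mono fun _ h => h.symm))

end Coc

/-- a matrix whose first column is proportional to `v` -/
noncomputable def U (v : Vec) : Mat :=
  !![v 0 / ‖v‖, -(starRingEnd ℂ) (v 1 / ‖v‖); v 1 / ‖v‖, (starRingEnd ℂ) (v 0 / ‖v‖)]

lemma norm_eq_or (v : Vec) : ‖v‖ = ‖v 0‖ ∨ ‖v‖ = ‖v 1‖ := by
  rcases le_total ‖v 0‖ ‖v 1‖ with h | h
  · exact Or.inr (le_antisymm (norm_vec_le h le_rfl) (norm_le_pi_norm v 1))
  · exact Or.inl (le_antisymm (norm_vec_le le_rfl h) (norm_le_pi_norm v 0))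

lemma good_U {v : Vec} (hv : v ≠ 0) : Good 4 (U v) := by
  have hn := norm_pos_iff.2 hv
  have h0 : ‖v 0 / (‖v‖ : ℂ)‖ ≤ 1 := by
    rw [norm_div, Complex.norm_real, norm_norm, div_le_one hn]; exact norm_le_pi_norm v 0
  have h1 : ‖v 1 / (‖v‖ : ℂ)‖ ≤ 1 := by
    rw [norm_div, Complex.norm_real, norm_norm, div_le_one hn]; exact norm_le_pi_norm v 1
  have h2 : ‖v 0 / (‖v‖ : ℂ)‖ = 1 ∨ ‖v 1 / (‖v‖ : ℂ)‖ = 1 := by
    rcases norm_eq_or v with h | h
    · left; rw [norm_div, Complex.norm_real, norm_norm, ← h, div_self hn.ne']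
    · right; rw [norm_div, Complex.norm_real, norm_norm, ← h, div_self hn.ne']
  unfold U
  generalize v 0 / (‖v‖ : ℂ) = a at *
  generalize v 1 / (‖v‖ : ℂ) = b at *
  constructor
  · unfold en
    simp
    linarith
  · rw [det_fin_two_of]
    have e : a * (starRingEnd ℂ) a - -(starRingEnd ℂ) b * b = ((‖a‖ ^ 2 + ‖b‖ ^ 2 : ℝ) : ℂ) := by
      rw [Complex.mul_conj', neg_mul, Complex.conj_mul']; push_cast; ring
    rw [e, Complex.norm_real, Real.norm_eq_abs, abs_of_nonneg (by positivity)]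
    rcases h2 with h | h <;> rw [h] <;> nlinarith [norm_nonneg a, norm_nonneg b]

lemma good_adj {C : ℝ} {M : Mat} (h : Good C M) : Good C M.adjugate := by
  refine ⟨by rw [en_adj]; exact h.1, ?_⟩
  rw [det_adjugate]
  simpa using h.2

lemma wd_U (v w : Vec) : wd ((U w * (U v).adjugate) *ᵥ v) w = 0 := by
  unfold wd U
  rw [adjugate_fin_two_of, mulVec0, mulVec1]
  simp [Matrix.mul_apply, Fin.sum_univ_two]
  ring

lemma measM_U {Ω : Type} [MeasurableSpace Ω] {v : Ω → Vec} (hv : Measurable v) :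
    MeasM (fun x => U (v x)) ∧ MeasM (fun x => (U (v x)).adjugate) := by
  have hn : Measurable fun x => ((‖v x‖ : ℝ) : ℂ) := Complex.measurable_ofReal.comp hv.norm
  have h0 : Measurable fun x => v x 0 / ‖v x‖ := ((measurable_pi_apply 0).comp hv).div hn
  have h1 : Measurable fun x => v x 1 / ‖v x‖ := ((measurable_pi_apply 1).comp hv).div hn
  have hc : Measurable (starRingEnd ℂ) := Complex.continuous_conj.measurable
  constructor
  · intro i j
    fin_cases i <;> fin_cases j
    · exact h0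
    · exact (hc.comp h1).neg
    · exact h1
    · exact hc.comp h0
  · intro i j
    unfold U
    simp only [adjugate_fin_two_of]
    fin_cases i <;> fin_cases j
    · exact hc.comp h0
    · exact (hc.comp h1).neg.neg
    · exact h1.neg
    · exact h0

open Classical in
/-- modification off a set -/
noncomputable def Coc.modify {C : ℝ} (A : Coc Y C) (hC : 16 ≤ C) {L : Y → V} (hL : Measurable L)
    {Z : Set (Y × Y)} (hZ : MeasurableSet Z) : Coc Y C where
  A := fun y y' => if (y, y') ∈ Z then A.A y y' else U (L y').1 * (U (L y).1).adjugate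
  meas := by
    intro i j
    have h1 : Measurable fun p : Y × Y => (L p.1).1 := by fun_prop
    have h2 : Measurable fun p : Y × Y => (L p.2).1 := by fun_prop
    have : Measurable fun p : Y × Y => if p ∈ Z then A.A p.1 p.2 i j else
        (U (L p.2).1 * (U (L p.1).1).adjugate) i j :=
      Measurable.ite hZ (A.meas i j) (((measM_U h2).1.mul (measM_U h1).2) i j)
    convert this using 2 with p
    by_cases hp : p ∈ Z <;> simp [hp]
  good := by
    intro y y'
    split_ifs
    · exact A.good y y'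
    · exact ((good_U (L y').2).mul (good_adj (good_U (L y).2))).mono (by linarith)
  one_le := A.one_le

end H215LE
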