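import Mathlib
import Pool.Agent.H215Z.LE.Pert

/-! Lower semicontinuity in the presence of an invariant repelling section. -/

set_option autoImplicit false
set_option linter.unusedSectionVars false
open MeasureTheory Filter Topology Set Matrix
open scoped ENNReal

namespace H215LE

variable {Y : Type} [MeasurableSpace Y]

lemma pd_congr {u w w' : Vec} (hu : u ≠ 0) (hw : w ≠ 0) (hw' : w' ≠ 0) (h : wd w w' = 0) :
    pd u w = pd u w' := by
  have h1 := pd_triangle hu hw hw'
  have h2 := pd_triangle hu hw' hw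
  rw [pd_comm w' w] at h2
  rw [(pd_eq_zero hw hw').2 h] at h1 h2
  linarith

lemma exists_far (w : V) : ∃ v : V, pd v.1 w.1 = 1 := by
  have hn := norm_pos_iff.2 w.2
  rcases norm_eq_or w.1 with h | h
  · refine ⟨⟨Pi.single 1 1, fun h => by simpa using congrFun h 1⟩, ?_⟩
    unfold pd wd
    simp [Pi.norm_single, ← h, hn.ne']
  · refine ⟨⟨Pi.single 0 1, fun h => by simpa using congrFun h 0⟩, ?_⟩
    unfold pd wd
    simp [Pi.norm_single, ← h, hn.ne']

lemma occ_univ {S : Type} [MeasurableSpace S] (q : Measure Y) [IsProbabilityMeasure q]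
    {τ : S → Y → S} (hτ : Measurable fun p : S × Y => τ p.1 p.2) (ν0 : Measure S)
    [IsProbabilityMeasure ν0] (n : ℕ) : occ q τ ν0 n univ = n := by
  induction n with
  | zero => simp [occ]
  | succ n ih => rw [occ, Measure.add_apply, push_univ q hτ, ih]; simp

lemma log_sub_le' {x y : ℝ} (hx : 0 < x) (hy : 0 < y) {k : ℝ} (h : x ≤ k * y) :
    Real.log x - Real.log y ≤ k := by
  refine (log_sub_le hx hy).trans ?_
  rw [div_le_iff₀ hy]; linarith

/-- distance to the section -/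
noncomputable def DD (L : Y → V) (s : Y × V) : ℝ := pd s.2.1 (L s.1).1

lemma measurable_DD {L : Y → V} (hL : Measurable L) : Measurable (DD L) :=
  measurable_pd (by fun_prop) (by fun_prop)

namespace Coc
variable {C : ℝ} {A B : Coc Y C} {L : Y → V} {γ : ℝ}

lemma DD_upper (inv : ∀ y y', wd (A.A y y' *ᵥ (L y).1) (L y').1 = 0) (hc : Close A B γ)
    (s : Y × V) (y' : Y) : DD L (B.toMAF.τ s y') ≤ C ^ 6 * DD L s + 2 * C ^ 2 * γ := by
  have hA := A.good s.1 y'
  have hB := B.good s.1 y'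
  have n1 := mulVec_ne hB.det_ne s.2.2
  have n2 := mulVec_ne hA.det_ne s.2.2
  have n3 := mulVec_ne hA.det_ne (L s.1).2
  show pd (B.A s.1 y' *ᵥ s.2.1) (L y').1 ≤ C ^ 6 * pd s.2.1 (L s.1).1 + _
  rw [← pd_congr n1 n3 (L y').2 (inv _ _)]
  have h1 := pd_triangle n1 n2 n3
  have h2 := hA.pd_upper s.2.2 (L s.1).2
  have h3 := (hB.pd_pert hA s.2.2).trans
    (mul_le_mul_of_nonneg_left (hc.symm s.1 y') (by positivity))
  linarith

lemma DD_lower (inv : ∀ y y', wd (A.A y y' *ᵥ (L y).1) (L y').1 = 0) (hc : Close A B γ)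
    (s : Y × V) (y' : Y) : DD L s ≤ C ^ 6 * (DD L (B.toMAF.τ s y') + 2 * C ^ 2 * γ) := by
  have hA := A.good s.1 y'
  have hB := B.good s.1 y'
  have n1 := mulVec_ne hB.det_ne s.2.2
  have n2 := mulVec_ne hA.det_ne s.2.2
  have n3 := mulVec_ne hA.det_ne (L s.1).2
  show pd s.2.1 (L s.1).1 ≤ C ^ 6 * (pd (B.A s.1 y' *ᵥ s.2.1) (L y').1 + _)
  rw [← pd_congr n1 n3 (L y').2 (inv _ _)]
  have h1 := pd_triangle n2 n1 n3
  have h2 := hA.pd_lower s.2.2 (L s.1).2
  have h3 := (hA.pd_pert hB s.2.2).trans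
    (mul_le_mul_of_nonneg_left (hc s.1 y') (by positivity))
  have hC := hA.pos
  exact h2.trans (mul_le_mul_of_nonneg_left (by linarith) (by positivity))

variable (P : Measure Y) [IsProbabilityMeasure P]

lemma G_sec (hL : Measurable L) (inv : ∀ y y', wd (A.A y y' *ᵥ (L y).1) (L y').1 = 0) (n : ℕ)
    (y : Y) : A.toMAF.G P (n + 1) (y, L y) =
      A.toMAF.G P 1 (y, L y) + n * ∫ y, A.toMAF.G P 1 (y, L y) ∂P := by
  have hi : Integrable (fun y => A.toMAF.G P 1 (y, L y)) P :=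
    integrable_of_bd ((A.toMAF.measurable_G P 1).comp (by fun_prop)) fun _ => A.toMAF.G_bd P 1 _
  induction n generalizing y with
  | zero => simp
  | succ n ih =>
    rw [MAF.G_succ]
    have : ∀ y', A.toMAF.G P (n + 1) (A.toMAF.τ (y, L y) y') =
        A.toMAF.G P 1 (y', L y') + n * ∫ y, A.toMAF.G P 1 (y, L y) ∂P := by
      intro y'
      rw [← ih]
      exact A.G_congr P (n + 1) y' (inv y y')
    simp_rw [this]
    rw [integral_add hi (integrable_const _)]
    simp only [integral_const, probReal_univ, smul_eq_mul, one_mul]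
    push_cast; ring

lemma zone (hL : Measurable L) (inv : ∀ y y', wd (A.A y y' *ᵥ (L y).1) (L y').1 = 0)
    (hc : Close A B γ) {q : Measure Y} [IsProbabilityMeasure q] (ht : TV P q γ) {l ρ : ℝ}
    (hl : ∫ y, A.toMAF.G P 1 (y, L y) ∂P = -l) (hl0 : 0 ≤ l) (hρ : 0 < ρ)
    (h1 : 2 * C ^ 2 * γ * (16 * (C ^ 6) ^ 2) ≤ ρ)
    (h2 : 2 * C ^ 3 * ρ + 4 * C ^ 2 * γ + 4 * (3 * Real.log C) * γ ≤ l)
    (s0 : Y × V) (hs0 : ρ ≤ DD L s0) (T : ℕ) :
    ENNReal.ofReal l * ∑ i ∈ Finset.range T,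
      occ q B.toMAF.τ (Measure.dirac s0) i {s | DD L s < ρ} ≤
    T * ((4 * ENNReal.ofReal (8 * (C ^ 6) ^ 2 + C ^ 6 + 4 * (3 * Real.log C)) +
      3 * ENNReal.ofReal l) *
      occ q B.toMAF.τ (Measure.dirac s0) T {s | ρ / (8 * (C ^ 6) ^ 3) ≤ DD L s ∧ DD L s < ρ}) := by
  classical
  set κ := C ^ 6 with hκ
  set C' := 3 * Real.log C with hC'
  set δ := 2 * C ^ 2 * γ with hδ
  have hC1 := A.one_le
  have hκ1 : 1 ≤ κ := one_le_pow₀ hC1
  have hγ := ht.nonneg
  have hδ0 : 0 ≤ δ := by positivity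
  have hC'0 : 0 ≤ C' := A.toMAF.hC
  have mD := measurable_DD hL
  have up : ∀ s y', DD L (B.toMAF.τ s y') ≤ κ * DD L s + δ := DD_upper inv hc
  have lo : ∀ s y', DD L s ≤ κ * (DD L (B.toMAF.τ s y') + δ) := DD_lower inv hc
  set h : Y → ℝ := fun y => A.toMAF.G P 1 (y, L y) with hh
  have mh : Measurable h := (A.toMAF.measurable_G P 1).comp (by fun_prop)
  have bh : ∀ y, |h y| ≤ C' := fun y => by
    have := A.toMAF.G_bd P 1 (y, L y)
    rwa [Nat.cast_one, one_mul] at this
  set Ψ : Y × V × V → ℝ := fun x =>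
    Real.log (2 * ρ) - Real.log (pd x.2.1.1 x.2.2.1) + 2 * h x.1 + (2 * C' + κ) with hΨ
  set ψ : Y × V × V → ℝ≥0∞ := fun x =>
    if pd x.2.1.1 x.2.2.1 = 0 then ⊤ else ENNReal.ofReal (Ψ x) with hψ
  have mp : Measurable fun x : Y × V × V => pd x.2.1.1 x.2.2.1 :=
    measurable_pd (by fun_prop) (by fun_prop)
  have mΨ : Measurable Ψ :=
    ((measurable_const.sub mp.log).add ((mh.comp measurable_fst).const_mul 2)).add measurable_const
  have mψ : Measurable ψ :=
    Measurable.ite (mp (measurableSet_singleton 0)) measurable_const mΨ.ennreal_ofReal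
  have mτ := B.toMAF.mτ
  -- useful inequalities
  have k1 : ρ / (8 * κ ^ 3) ≤ ρ / (2 * κ) := by
    refine div_le_div_of_nonneg_left hρ.le (by positivity) ?_
    nlinarith [pow_le_pow_right₀ hκ1 (show 1 ≤ 3 by norm_num)]
  refine recouple q (X := Y × V × V) (Zn := {s | ρ / (8 * κ ^ 3) ≤ DD L s ∧ DD L s < ρ}) mτ
    (τ2 := fun x y => (y, (B.toMAF.τ (x.1, x.2.1) y).2, (B.toMAF.τ (x.1, x.2.2) y).2))
    ?_ (τ3 := fun z y => (y, (B.toMAF.τ z.1 y).2, (B.toMAF.τ z.2 y).2)) ?_
    (π1 := fun x => (x.1, x.2.1)) (π2 := fun x => (x.1, x.2.2)) (by fun_prop) (by fun_prop)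
    (fun _ _ => rfl) (fun _ _ => rfl) (fun _ _ => rfl) (fun _ _ => rfl)
    (N := {s | DD L s < ρ}) (St := {s | ρ / (2 * κ) ≤ DD L s ∧ DD L s < ρ})
    (Dp := {s | DD L s < ρ / (8 * κ ^ 3)})
    (measurableSet_lt mD measurable_const)
    ((measurableSet_le measurable_const mD).inter (measurableSet_lt mD measurable_const))
    (measurableSet_lt mD measurable_const)
    ((measurableSet_le measurable_const mD).inter (measurableSet_lt mD measurable_const))
    (fun s hs => ⟨k1.trans hs.1, hs.2⟩) (fun s hs => ⟨le_of_not_gt hs.2, hs.1⟩) ?_ mψ ?_ ?_ _ ?_ le_rfl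
  · refine measurable_snd.prodMk (Measurable.prodMk ?_ ?_)
    · exact measurable_snd.comp
        (mτ.comp (f := fun p : (Y × V × V) × Y => ((p.1.1, p.1.2.1), p.2)) (by fun_prop))
    · exact measurable_snd.comp
        (mτ.comp (f := fun p : (Y × V × V) × Y => ((p.1.1, p.1.2.2), p.2)) (by fun_prop))
  · refine measurable_snd.prodMk (Measurable.prodMk ?_ ?_)
    · exact measurable_snd.comp
        (mτ.comp (f := fun p : ((Y × V) × (Y × V)) × Y => (p.1.1, p.2)) (by fun_prop))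
    · exact measurable_snd.comp
        (mτ.comp (f := fun p : ((Y × V) × (Y × V)) × Y => (p.1.2, p.2)) (by fun_prop))
  · intro s y hs hs'
    refine ⟨?_, hs'⟩
    have a1 := (not_lt.1 hs).trans (lo s y)
    rw [div_le_iff₀ (by positivity)]
    have a2 : δ * κ ≤ δ * κ ^ 2 := mul_le_mul_of_nonneg_left (by nlinarith) hδ0
    nlinarith
  · rintro ⟨y, v, w⟩ hv hw
    refine le_trans ?_ le_self_add
    by_cases h0 : pd v.1 w.1 = 0
    · simp only [hψ, h0, if_true]; exact le_top
    have hwd : wd v.1 w.1 ≠ 0 := fun h => h0 ((pd_eq_zero v.2 w.2).2 h)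
    have hv' : pd v.1 (L y).1 < ρ := hv
    have hw' : pd w.1 (L y).1 < ρ := hw
    have hvw : pd v.1 w.1 ≤ 2 * ρ := by
      have := pd_triangle v.2 (L y).2 w.2
      rw [pd_comm (L y).1] at this
      linarith
    set R : Y → ℝ := fun y' => (Real.log (2 * ρ) - Real.log (pd v.1 w.1) + 2 * C ^ 3 * ρ + 2 * δ +
      (2 * C' + κ)) + 2 * A.toMAF.φ (y, L y) y' + 2 * h y' with hR
    have iφ : Integrable (A.toMAF.φ (y, L y)) q := A.toMAF.int_φ q _
    have ih : Integrable h q := integrable_of_bd mh bh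
    have iR : Integrable R q := ((integrable_const _).add (iφ.const_mul 2)).add (ih.const_mul 2)
    have key : ∀ y', pd (B.A y y' *ᵥ v.1) (B.A y y' *ᵥ w.1) ≠ 0 ∧
        0 ≤ Ψ (y', (B.toMAF.τ (y, v) y').2, (B.toMAF.τ (y, w) y').2) ∧
        Ψ (y', (B.toMAF.τ (y, v) y').2, (B.toMAF.τ (y, w) y').2) ≤ R y' := by
      intro y'
      have hA := A.good y y'
      have hB := B.good y y'
      have n0 : pd (B.A y y' *ᵥ v.1) (B.A y y' *ᵥ w.1) ≠ 0 := by
        rw [Ne, pd_eq_zero (mulVec_ne hB.det_ne v.2) (mulVec_ne hB.det_ne w.2), wd_mulVec]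
        exact mul_ne_zero hB.det_ne hwd
      refine ⟨n0, ?_, ?_⟩
      · show 0 ≤ Real.log (2 * ρ) - Real.log (pd (B.A y y' *ᵥ v.1) (B.A y y' *ᵥ w.1)) + 2 * h y' +
          (2 * C' + κ)
        have a1 := log_sub_le' (lt_of_le_of_ne (pd_nonneg _ _) n0.symm) (show 0 < 2 * ρ by linarith)
          (k := κ) ((hB.pd_upper v.2 w.2).trans (mul_le_mul_of_nonneg_left hvw (by positivity)))
        have := (abs_le.1 (bh y')).1
        linarith
      · show Real.log (2 * ρ) - Real.log (pd (B.A y y' *ᵥ v.1) (B.A y y' *ᵥ w.1)) + 2 * h y' +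
          (2 * C' + κ) ≤ (Real.log (2 * ρ) - Real.log (pd v.1 w.1) + 2 * C ^ 3 * ρ + 2 * δ +
          (2 * C' + κ)) + 2 * Ph (A.A y y') (L y).1 + 2 * h y'
        rw [log_pd hB.det_ne v.2 w.2 hwd]
        have b : ∀ u : V, pd u.1 (L y).1 < ρ →
            Ph (B.A y y') u.1 ≤ Ph (A.A y y') (L y).1 + C ^ 3 * ρ + δ := by
          intro u hu
          have b1 := (hB.Ph_pert hA u.2).trans
            (mul_le_mul_of_nonneg_left (hc.symm y y') (by positivity))
          have b2 := (hA.Ph_lip u.2 (L y).2).trans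
            (mul_le_mul_of_nonneg_left hu.le (by positivity))
          linarith
        have := b v hv'
        have := b w hw'
        linarith
    have hint : ∫ y', R y' ∂q + l ≤ Ψ (y, v, w) := by
      simp only [hR]
      have i1 : Integrable (fun y' => (Real.log (2 * ρ) - Real.log (pd v.1 w.1) + 2 * C ^ 3 * ρ +
          2 * δ + (2 * C' + κ)) + 2 * A.toMAF.φ (y, L y) y') q :=
        (integrable_const _).add (iφ.const_mul 2)
      rw [integral_add i1 (ih.const_mul 2),
        integral_add (integrable_const _) (iφ.const_mul 2), integral_const_mul, integral_const_mul]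
      simp only [integral_const, probReal_univ, smul_eq_mul, one_mul]
      have a1 := (abs_le.1 (ht.scaled (A.toMAF.mφ' (y, L y)) hC'0 (A.toMAF.bd _))).1
      rw [← MAF.G_one] at a1
      have a2 := (abs_le.1 (ht.scaled mh hC'0 bh)).1
      rw [hl] at a2
      show _ ≤ Real.log (2 * ρ) - Real.log (pd v.1 w.1) + 2 * h y + (2 * C' + κ)
      have a3 : h y = A.toMAF.G P 1 (y, L y) := rfl
      linarith
    have hR0 : ∀ y', 0 ≤ R y' := fun y' => (key y').2.1.trans (key y').2.2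
    calc _ ≤ ∫⁻ y', ENNReal.ofReal (R y') ∂q + ENNReal.ofReal l := by
          refine add_le_add (lintegral_mono fun y' => ?_) le_rfl
          refine (indicator_le_self _ _ _).trans ?_
          have : ψ (y', (B.toMAF.τ (y, v) y').2, (B.toMAF.τ (y, w) y').2) =
              ENNReal.ofReal (Ψ (y', (B.toMAF.τ (y, v) y').2, (B.toMAF.τ (y, w) y').2)) :=
            if_neg (key y').1
          rw [this]
          exact ENNReal.ofReal_le_ofReal (key y').2.2
      _ = ENNReal.ofReal (∫ y', R y' ∂q + l) := by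
          rw [← ofReal_integral_eq_lintegral_ofReal iR (Eventually.of_forall hR0),
            ENNReal.ofReal_add (integral_nonneg hR0) hl0]
      _ ≤ ψ (y, v, w) := by
          have : ψ (y, v, w) = ENNReal.ofReal (Ψ (y, v, w)) := if_neg h0
          rw [this]
          exact ENNReal.ofReal_le_ofReal hint
  · rintro ⟨s, t⟩ hs ht' y
    refine (indicator_le_self _ _ _).trans ?_
    have a1 := up s y
    have a2 := ht'.1.trans (lo t y)
    have hs' : DD L s < ρ / (8 * κ ^ 3) := hs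
    have a3 : DD L (B.toMAF.τ t y) ≤
        pd (B.toMAF.τ s y).2.1 (B.toMAF.τ t y).2.1 + DD L (B.toMAF.τ s y) := by
      rw [pd_comm]
      exact pd_triangle (B.toMAF.τ t y).2.2 (B.toMAF.τ s y).2.2 (L y).2
    set d := pd (B.toMAF.τ s y).2.1 (B.toMAF.τ t y).2.1 with hd
    have a4 : 2 * ρ ≤ 8 * κ ^ 2 * d := by
      rw [lt_div_iff₀ (by positivity)] at hs'
      rw [div_le_iff₀ (by positivity)] at a2
      have b1 : 8 * κ ^ 2 * DD L (B.toMAF.τ s y) ≤ 8 * κ ^ 2 * (κ * DD L s + δ) :=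
        mul_le_mul_of_nonneg_left a1 (by positivity)
      have b2 : 8 * κ ^ 2 * DD L (B.toMAF.τ t y) ≤ 8 * κ ^ 2 * (d + DD L (B.toMAF.τ s y)) :=
        mul_le_mul_of_nonneg_left a3 (by positivity)
      nlinarith
    have hd0 : 0 < d := by
      by_contra h0
      have : 8 * κ ^ 2 * d ≤ 0 := mul_nonpos_of_nonneg_of_nonpos (by positivity) (not_lt.1 h0)
      linarith
    have : ψ (y, (B.toMAF.τ s y).2, (B.toMAF.τ t y).2) =
        ENNReal.ofReal (Ψ (y, (B.toMAF.τ s y).2, (B.toMAF.τ t y).2)) := if_neg hd0.ne'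
    rw [this]
    refine ENNReal.ofReal_le_ofReal ?_
    show Real.log (2 * ρ) - Real.log d + 2 * h y + (2 * C' + κ) ≤ _
    have a5 := log_sub_le' (show 0 < 2 * ρ by linarith) hd0 a4
    have := (abs_le.1 (bh y)).2
    linarith
  · rw [Measure.dirac_apply' _ (measurableSet_lt mD measurable_const), indicator_of_notMem]
    exact not_lt.2 hs0

variable [Nonempty Y]

theorem core (hL : Measurable L) (inv : ∀ y y', wd (A.A y y' *ᵥ (L y).1) (L y').1 = 0) {l : ℝ}
    (hl : ∫ y, A.toMAF.G P 1 (y, L y) ∂P = -l) (hl0 : 0 < l) {ε : ℝ} (hε : 0 < ε) :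
    ∃ γ > 0, ∀ (B : Coc Y C) (q : Measure Y) [IsProbabilityMeasure q],
      Close A B γ → TV P q γ → l - ε ≤ B.toMAF.β q := by
  set κ := C ^ 6 with hκ
  set C' := 3 * Real.log C with hC'
  have hC1 := A.one_le
  have hκ1 : 1 ≤ κ := one_le_pow₀ hC1
  have hC'0 : 0 ≤ C' := A.toMAF.hC
  have bh : ∀ y, |A.toMAF.G P 1 (y, L y)| ≤ C' := fun y => by
    have := A.toMAF.G_bd P 1 (y, L y)
    rwa [Nat.cast_one, one_mul] at this
  have hlC : l ≤ C' := by
    have := (abs_le.1 (abs_integral_le_of_bd (μ := P) bh)).1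
    rw [hl] at this; linarith
  set K0 := 8 * κ ^ 2 + κ + 4 * C' with hK0
  have hK00 : 0 ≤ K0 := by positivity
  set ρ0 := min 1 (l / (4 * C ^ 3)) with hρ0
  have hρ00 : 0 < ρ0 := lt_min one_pos (by positivity)
  have hρ01 : ρ0 ≤ 1 := min_le_left _ _
  have hρ02 : 2 * C ^ 3 * ρ0 ≤ l / 2 := by
    have := min_le_right 1 (l / (4 * C ^ 3))
    rw [← hρ0, le_div_iff₀ (by positivity)] at this
    linarith
  set lam := 8 * κ ^ 3 with hlam
  have hlam1 : 1 ≤ lam := by
    have := one_le_pow₀ (n := 3) hκ1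
    linarith
  set ρ : ℕ → ℝ := fun j => ρ0 / lam ^ j with hρ
  have hρp : ∀ j, 0 < ρ j := fun j => by positivity
  have hρa : Antitone ρ := fun i j hij =>
    div_le_div_of_nonneg_left hρ00.le (by positivity) (pow_le_pow_right₀ hlam1 hij)
  have hρs : ∀ j, ρ j / lam = ρ (j + 1) := fun j => by simp only [hρ]; rw [pow_succ, div_div]
  have hρ0' : ∀ j, ρ j ≤ ρ0 := fun j => (hρa (Nat.zero_le j)).trans (by simp [hρ])
  obtain ⟨J0, hJ0⟩ := exists_nat_gt (2 * C' * (4 * (4 * K0 + 3 * l) / l) / (ε / 3))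
  set J := J0 + 1 with hJ
  have hJp : (0 : ℝ) < J := by positivity
  set θ := 4 * (4 * K0 + 3 * l) / (J * l) with hθ
  have hθ0 : 0 ≤ θ := by positivity
  have hθ1 : 2 * C' * θ ≤ ε / 3 := by
    rw [div_lt_iff₀ (by positivity)] at hJ0
    have e : θ = 4 * (4 * K0 + 3 * l) / l / J := by rw [hθ, div_div, mul_comm l]
    rw [e, ← mul_div_assoc, div_le_iff₀ hJp, hJ]
    push_cast
    nlinarith
  set r := ρ J with hr
  have hr0 : 0 < r := hρp J
  have hlr : Real.log r ≤ 0 := Real.log_nonpos hr0.le ((hρ0' J).trans hρ01)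
  obtain ⟨M, hM⟩ := exists_nat_gt ((1 + C' - Real.log r + l) / (ε / 3))
  rw [div_lt_iff₀ (by positivity)] at hM
  have hK := KK_nonneg hC1 (M + 1)
  set γ := min (ε / 3 / (KK C (M + 1) + 1))
    (min (r / (2 * C ^ 2 * (16 * κ ^ 2))) (l / 2 / (4 * C ^ 2 + 4 * C'))) with hγ
  have hγ0 : 0 < γ := lt_min (by positivity) (lt_min (by positivity) (by positivity))
  have g1 : KK C (M + 1) * γ ≤ ε / 3 := by
    have := min_le_left (ε / 3 / (KK C (M + 1) + 1))
      (min (r / (2 * C ^ 2 * (16 * κ ^ 2))) (l / 2 / (4 * C ^ 2 + 4 * C')))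
    rw [← hγ, le_div_iff₀ (by positivity)] at this
    nlinarith
  have g2 : 2 * C ^ 2 * γ * (16 * κ ^ 2) ≤ r := by
    have : γ ≤ r / (2 * C ^ 2 * (16 * κ ^ 2)) := (min_le_right _ _).trans (min_le_left _ _)
    rw [le_div_iff₀ (by positivity)] at this
    linarith
  have g3 : 4 * C ^ 2 * γ + 4 * C' * γ ≤ l / 2 := by
    have : γ ≤ l / 2 / (4 * C ^ 2 + 4 * C') := (min_le_right _ _).trans (min_le_right _ _)
    rw [le_div_iff₀ (by positivity)] at this
    linarith
  refine ⟨γ, hγ0, fun B q _ hc ht => ?_⟩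
  obtain ⟨y0⟩ := ‹Nonempty Y›
  obtain ⟨v0, hv0⟩ := exists_far (L y0)
  set η := occ q B.toMAF.τ (Measure.dirac (y0, v0)) with hη
  have mD := measurable_DD hL
  have hocc : ∀ n : ℕ, η n {s | DD L s < r} ≤ ENNReal.ofReal (θ * n) := by
    intro n
    rcases Nat.eq_zero_or_pos n with hn | hn
    · subst hn; simp [hη, occ]
    have z : ∀ j ∈ Finset.range J, ENNReal.ofReal l * (n * η n {s | DD L s < r}) ≤
        (n + n : ℕ) * ((4 * ENNReal.ofReal K0 + 3 * ENNReal.ofReal l) *
          η (n + n) {s | ρ (j + 1) ≤ DD L s ∧ DD L s < ρ j}) := by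
      intro j hj
      have hjJ : r ≤ ρ j := hρa (Finset.mem_range.1 hj).le
      have z1 := zone P hL inv hc ht hl hl0.le (hρp j) (g2.trans hjJ) (by
        have : 2 * C ^ 3 * ρ j ≤ 2 * C ^ 3 * ρ0 :=
          mul_le_mul_of_nonneg_left (hρ0' j) (by positivity)
        linarith) (y0, v0) (by
          show _ ≤ pd v0.1 (L y0).1
          rw [hv0]; exact (hρ0' j).trans hρ01) (n + n)
      rw [← hκ, ← hlam, hρs] at z1
      refine le_trans ?_ z1
      gcongr
      rw [Finset.sum_range_add]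
      refine le_add_left ?_
      calc _ = ∑ i ∈ Finset.range n, η n {s | DD L s < r} := by simp
        _ ≤ _ := Finset.sum_le_sum fun i _ =>
          (measure_mono fun s hs => lt_of_lt_of_le hs hjJ).trans
            (occ_mono q B.toMAF.mτ _ (Nat.le_add_right n i) _)
    have z2 := Finset.sum_le_sum z
    rw [Finset.sum_const, ← Finset.mul_sum (Finset.range J),
      ← Finset.mul_sum (Finset.range J)] at z2
    have z3 : ∑ j ∈ Finset.range J, η (n + n) {s | ρ (j + 1) ≤ DD L s ∧ DD L s < ρ j} ≤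
        (n + n : ℕ) := by
      rw [← occ_univ q B.toMAF.mτ (Measure.dirac (y0, v0)) (n + n)]
      refine sum_measure_le_measure_univ (fun j _ => (((measurableSet_le measurable_const mD).inter
        (measurableSet_lt mD measurable_const))).nullMeasurableSet) ?_
      intro i _ j _ hij
      refine Disjoint.aedisjoint (Set.disjoint_left.2 fun s h1 h2 => ?_)
      rcases lt_or_gt_of_ne hij with h | h
      · exact absurd (h1.1.trans_lt h2.2) (not_lt.2 (hρa h))
      · exact absurd (h2.1.trans_lt h1.2) (not_lt.2 (hρa h))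
    have z4 := z2.trans (mul_le_mul_right (mul_le_mul_right z3 _) _)
    have fin := occ_finite q B.toMAF.mτ (Measure.dirac (y0, v0)) n
    have z5 := ENNReal.toReal_mono (by finiteness) z4
    simp only [Finset.card_range, nsmul_eq_mul, ENNReal.toReal_mul,
      ENNReal.toReal_natCast] at z5
    rw [ENNReal.toReal_add (by finiteness) (by finiteness)] at z5
    simp only [ENNReal.toReal_mul, ENNReal.toReal_ofNat, ENNReal.toReal_ofReal hK00,
      ENNReal.toReal_ofReal hl0.le] at z5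
    rw [ENNReal.le_ofReal_iff_toReal_le (measure_ne_top _ _) (by positivity), hθ,
      div_mul_eq_mul_div, le_div_iff₀ (by positivity)]
    have hn' : (0 : ℝ) < n := by exact_mod_cast hn
    push_cast at z5
    refine le_of_mul_le_mul_left ?_ hn'
    nlinarith
  have main := B.toMAF.β_ge_of_occ q (y0, v0) (M + 1)
    (a := M * l - (1 + C' - Real.log r) - KK C (M + 1) * γ) (measurableSet_lt mD measurable_const)
    hθ0 (by
      rintro ⟨y, v⟩ hs
      have a1 : r ≤ pd v.1 (L y).1 := not_lt.1 hs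
      have a2 : wd v.1 (L y).1 ≠ 0 := fun h => by
        rw [(pd_eq_zero v.2 (L y).2).2 h] at a1; linarith
      have a3 := A.G_add_ge P (M + 1) y a2
      rw [G_sec P hL inv, hl] at a3
      have a4 := Real.log_le_log hr0 a1
      have a5 := G_close hc ht (M + 1) (y, v)
      have a6 := (abs_le.1 (bh y)).2
      linarith) (by
      show _ ≤ ((M + 1 : ℕ) : ℝ) * C'
      have : (M : ℝ) * l ≤ M * C' := mul_le_mul_of_nonneg_left hlC (Nat.cast_nonneg M)
      have : 0 ≤ KK C (M + 1) * γ := by positivity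
      push_cast
      nlinarith) hocc
  have e : B.toMAF.C = C' := rfl
  rw [e] at main
  push_cast at main
  have hM0 : (0 : ℝ) ≤ M := Nat.cast_nonneg M
  refine le_of_mul_le_mul_left ?_ (show (0 : ℝ) < M + 1 by linarith)
  have : (M + 1) * (2 * C' * θ) ≤ (M + 1) * (ε / 3) := mul_le_mul_of_nonneg_left hθ1 (by linarith)
  nlinarith

theorem cont (hC : 16 ≤ C) (A : Coc Y C) {ε : ℝ} (hε : 0 < ε) :
    ∃ γ > 0, ∃ Z : Set (Y × Y), MeasurableSet Z ∧ (∀ᵐ p ∂(P.prod P), p ∈ Z) ∧
      ∀ (B : Coc Y C) (q : Measure Y) [IsProbabilityMeasure q], (∀ᵐ p ∂(q.prod q), p ∈ Z) →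
        Close A B γ → TV P q γ → |B.toMAF.β q - A.toMAF.β P| ≤ ε := by
  obtain ⟨γ1, h1, H1⟩ := A.usc P hε
  have low : ∃ γ > 0, ∃ Z : Set (Y × Y), MeasurableSet Z ∧ (∀ᵐ p ∂(P.prod P), p ∈ Z) ∧
      ∀ (B : Coc Y C) (q : Measure Y) [IsProbabilityMeasure q], (∀ᵐ p ∂(q.prod q), p ∈ Z) →
        Close A B γ → TV P q γ → A.toMAF.β P - ε ≤ B.toMAF.β q := by
    rcases A.dich P with hd | hd
    · obtain ⟨γ, h2, H2⟩ := A.lsc_unif P hd hε
      exact ⟨γ, h2, univ, .univ, by simp, fun B q _ _ => H2 B q⟩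
    by_cases h0 : A.toMAF.β P ≤ 0
    · refine ⟨1, one_pos, univ, .univ, by simp, fun B q _ _ _ _ => ?_⟩
      have := B.β_nonneg q
      linarith
    push Not at h0
    obtain ⟨L, hL, hinv, hl⟩ := A.exists_section P (h0.trans_le hd)
    set Z : Set (Y × Y) := {p | wd (A.A p.1 p.2 *ᵥ (L p.1).1) (L p.2).1 = 0} with hZ
    have mZ : MeasurableSet Z :=
      measurable_wd (A.meas.mulVec (by fun_prop)) (by fun_prop) (measurableSet_singleton 0)
    have hm : ∀ (B : Coc Y C) (p : Y × Y), p ∈ Z → B.A p.1 p.2 = (B.modify hC hL mZ).A p.1 p.2 :=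
      fun B p hp => (if_pos hp).symm
    have hae := (A.G_congr_ae P (A.modify hC hL mZ) (hinv.mono (hm A)) 1)
    have e : ∫ y, (A.modify hC hL mZ).toMAF.G P 1 (y, L y) ∂P =
        -(-∫ y, A.toMAF.G P 1 (y, L y) ∂P) := by
      rw [neg_neg]
      exact integral_congr_ae (hae.mono fun y hy => (hy _).symm)
    obtain ⟨γ, h2, H2⟩ := core P (A := A.modify hC hL mZ) hL (by
      intro y y'
      by_cases hp : (y, y') ∈ Z
      · rw [← hm A (y, y') hp]; exact hp
      · have : (A.modify hC hL mZ).A y y' = U (L y').1 * (U (L y).1).adjugate := if_neg hp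
        rw [this]; exact wd_U _ _) e (by linarith) hε
    refine ⟨γ, h2, Z, mZ, hinv, fun B q _ hq hc ht => ?_⟩
    have := H2 (B.modify hC hL mZ) q (by
      intro y y'
      by_cases hp : (y, y') ∈ Z
      · rw [← hm A (y, y') hp, ← hm B (y, y') hp]; exact hc y y'
      · have a1 : (A.modify hC hL mZ).A y y' = U (L y').1 * (U (L y).1).adjugate := if_neg hp
        have a2 : (B.modify hC hL mZ).A y y' = U (L y').1 * (U (L y).1).adjugate := if_neg hp
        rw [a1, a2, sub_self]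
        simpa [en] using h2.le) ht
    rw [← B.β_eq_of_ae q _ (hq.mono (hm B))] at this
    linarith
  obtain ⟨γ2, h2, Z, mZ, hZ, H2⟩ := low
  refine ⟨min γ1 γ2, lt_min h1 h2, Z, mZ, hZ, fun B q _ hq hc ht => ?_⟩
  have a1 := H1 B q (hc.mono (min_le_left _ _)) (ht.mono (min_le_left _ _))
  have a2 := H2 B q hq (hc.mono (min_le_right _ _)) (ht.mono (min_le_right _ _))
  rw [abs_le]
  constructor <;> linarith

end Coc

end H215LE
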