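import Mathlib
import Pool.Agent.H215Z.LE.MAF

/-! A Katznelson-Weiss argument and an interpolation lemma. -/

set_option autoImplicit false
open MeasureTheory Filter Topology Set

namespace H215LE

lemma tendsto_of_eventually {u : ℕ → ℝ} {b : ℝ}
    (h1 : ∀ j : ℕ, ∀ᶠ n : ℕ in atTop, u n ≤ n * (b + 1 / ((j : ℝ) + 1)))
    (h2 : ∀ j : ℕ, ∀ᶠ n : ℕ in atTop, n * (b - 1 / ((j : ℝ) + 1)) ≤ u n) :
    Tendsto (fun n : ℕ => u n / n) atTop (𝓝 b) := by
  rw [Metric.tendsto_nhds]
  intro ε hε
  obtain ⟨j, hj⟩ := exists_nat_one_div_lt hε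
  filter_upwards [h1 j, h2 j, eventually_gt_atTop 0] with n a1 a2 a3
  have hn : (0 : ℝ) < n := by exact_mod_cast a3
  rw [Real.dist_eq, abs_lt]
  constructor
  · rw [lt_sub_iff_add_lt, lt_div_iff₀ hn]; nlinarith
  · rw [sub_lt_iff_lt_add, div_lt_iff₀ hn]; nlinarith

lemma interp {g : ℕ → ℝ} {m : ℕ} (hm : 0 < m) {c b : ℝ} (h : ∀ n, |g (n + 1) - g n| ≤ c)
    (hl : Tendsto (fun k : ℕ => g (k * m) / k) atTop (𝓝 b)) :
    Tendsto (fun n : ℕ => (1 / (n : ℝ)) * g n) atTop (𝓝 (b / m)) := by
  have hm' : (0 : ℝ) < m := by exact_mod_cast hm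
  have h1 : ∀ a r : ℕ, |g (a + r) - g a| ≤ c * r := by
    intro a r
    induction r with
    | zero => simp
    | succ r ih =>
      have := h (a + r)
      have h2 := abs_sub_le (g (a + r + 1)) (g (a + r)) (g a)
      rw [← add_assoc]
      push_cast
      linarith
  have t1 : Tendsto (fun n : ℕ => ((n % m : ℕ) : ℝ) / n) atTop (𝓝 0) :=
    tendsto_mod_div_atTop_nhds_zero_nat hm
  have t2 : Tendsto (fun n : ℕ => g (n / m * m) / (n / m : ℕ)) atTop (𝓝 b) :=
    hl.comp (Nat.tendsto_div_const_atTop hm.ne')
  have t3 : Tendsto (fun n : ℕ => (g n - g (n / m * m)) / n) atTop (𝓝 0) := by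
    have t4 := t1.const_mul c
    rw [mul_zero] at t4
    refine squeeze_zero_norm (fun n => ?_) t4
    rw [Real.norm_eq_abs, abs_div, Nat.abs_cast, ← mul_div_assoc]
    refine div_le_div_of_nonneg_right ?_ (Nat.cast_nonneg n)
    have := h1 (n / m * m) (n % m)
    rwa [Nat.div_add_mod'] at this
  have t5 := (t2.mul ((t1.const_sub 1).div_const (m : ℝ))).add t3
  rw [sub_zero, add_zero, ← mul_div_assoc, mul_one] at t5
  refine t5.congr' ?_
  filter_upwards [eventually_ge_atTop m] with n hn
  have hk : (0 : ℝ) < (n / m : ℕ) := by exact_mod_cast Nat.div_pos hn hm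
  have hn' : (0 : ℝ) < n := by exact_mod_cast hm.trans_le hn
  have e : (n : ℝ) = (n / m : ℕ) * m + (n % m : ℕ) := by exact_mod_cast (Nat.div_add_mod' n m).symm
  have e2 : (1 - ((n % m : ℕ) : ℝ) / n) / m = (n / m : ℕ) / n := by
    field_simp
    linarith
  rw [e2]
  field_simp
  ring

theorem kw {Ω : Type} [MeasurableSpace Ω] (μ : Measure Ω) [IsProbabilityMeasure μ] {T : Ω → Ω}
    (hT : MeasurePreserving T μ μ) {f : ℕ → Ω → ℝ} (mf : ∀ n, Measurable (f n)) {c b : ℝ}
    (bd : ∀ n x, |f n x| ≤ c * (n + 1)) (sub : ∀ n k x, f (n + k) x ≤ f n x + f k (T^[n] x))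
    (inv : ∀ n x, f n (T x) ≤ f (n + 1) x + c)
    (up : ∀ ε > 0, ∀ᵐ x ∂μ, ∀ᶠ n : ℕ in atTop, f n x ≤ n * (b + ε))
    (low : ∀ n : ℕ, n * b - c ≤ ∫ x, f n x ∂μ) :
    ∀ᵐ x ∂μ, Tendsto (fun n : ℕ => f n x / n) atTop (𝓝 b) := by
  have hne : Nonempty Ω := nonempty_of_isProbabilityMeasure μ
  have hc : 0 ≤ c := by
    obtain ⟨x⟩ := hne
    have := (abs_nonneg _).trans (bd 0 x)
    simpa using this
  have inv' : ∀ k n x, f n (T^[k] x) ≤ f (n + k) x + k * c := by
    intro k
    induction k with
    | zero => simp
    | succ k ih =>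
      intro n x
      rw [Function.iterate_succ_apply']
      have h1 := inv n (T^[k] x)
      have h2 := ih (n + 1) x
      rw [show n + 1 + k = n + (k + 1) by ring] at h2
      push_cast
      linarith
  have lowae : ∀ ε > 0, ∀ᵐ x ∂μ, ∀ᶠ n : ℕ in atTop, n * (b - 2 * ε) ≤ f n x := by
    intro ε hε
    set B := {x | ∀ᶠ n : ℕ in atTop, n * (b - 2 * ε) ≤ f n x}ᶜ with hB
    have mB : MeasurableSet B := by
      refine MeasurableSet.compl ?_
      simp only [eventually_atTop, ofPred_exists, ofPred_forall]
      exact MeasurableSet.iUnion fun a => MeasurableSet.iInter fun n => MeasurableSet.iInter fun _ =>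
        measurableSet_le measurable_const (mf n)
    set Gd : ℕ → Set Ω := fun L => ⋃ n, ⋃ (_ : 1 ≤ n ∧ n ≤ L), {x | f n x ≤ n * (b - ε)} with hGd
    have mG : ∀ L, MeasurableSet (Gd L) := fun L => MeasurableSet.iUnion fun n =>
      MeasurableSet.iUnion fun _ => measurableSet_le (mf n) measurable_const
    set bad : ℕ → Set Ω := fun L => (⋃ L', Gd L') \ Gd L with hbad
    have mbad : ∀ L, MeasurableSet (bad L) := fun L => (MeasurableSet.iUnion mG).diff (mG L)
    have tbad : Tendsto (fun L => μ.real (bad L)) atTop (𝓝 0) := by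
      have ha : Antitone bad := by
        intro L L' h x hx
        refine ⟨hx.1, fun h2 => hx.2 ?_⟩
        simp only [hGd, mem_iUnion] at h2 ⊢
        obtain ⟨n, h3, h4⟩ := h2
        exact ⟨n, ⟨h3.1, h3.2.trans h⟩, h4⟩
      have h1 := tendsto_measure_iInter_atTop (μ := μ) (fun L => (mbad L).nullMeasurableSet) ha
        ⟨0, measure_ne_top _ _⟩
      have h2 : ⋂ L, bad L = ∅ := by
        ext x
        simp only [mem_iInter, mem_empty_iff_false, iff_false]
        intro h
        obtain ⟨L, hL⟩ := mem_iUnion.1 (h 0).1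
        exact (h L).2 hL
      rw [h2, measure_empty] at h1
      exact (ENNReal.tendsto_toReal ENNReal.zero_ne_top).comp h1
    have hBG : ∀ x ∈ B, ∀ k, T^[k] x ∈ ⋃ L', Gd L' := by
      intro x hx k
      have h1 : ∃ᶠ n : ℕ in atTop, f n x < n * (b - 2 * ε) := by
        have : ¬ ∀ᶠ n : ℕ in atTop, n * (b - 2 * ε) ≤ f n x := hx
        rw [not_eventually] at this
        exact this.mono fun n h => not_le.1 h
      obtain ⟨n0, hn0⟩ := exists_nat_gt ((k * (b - 2 * ε) + k * c) / ε)
      obtain ⟨n, h2, h3⟩ := (h1.and_eventually (eventually_gt_atTop (n0 + k))).exists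
      obtain ⟨j, rfl⟩ : ∃ j, n = j + k := ⟨n - k, by omega⟩
      have h4 := inv' k j x
      simp only [hGd, mem_iUnion]
      refine ⟨j, j, ⟨by omega, le_rfl⟩, ?_⟩
      show f j (T^[k] x) ≤ j * (b - ε)
      rw [div_lt_iff₀ hε] at hn0
      have h5 : (n0 : ℝ) * ε ≤ j * ε :=
        mul_le_mul_of_nonneg_right (by exact_mod_cast (by omega : n0 ≤ j)) hε.le
      push_cast at h2
      nlinarith
    set K := 2 * c + |b| + ε with hK
    have hK0 : 0 ≤ K := by positivity
    have hb1 := neg_abs_le b
    have hb2 := le_abs_self b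
    have dec : ∀ (L n : ℕ) x, (∀ k, T^[k] x ∈ ⋃ L', Gd L') → f n x ≤ n * (b - ε) +
        K * (L + 1 + ∑ k ∈ Finset.range n, (bad L).indicator (1 : Ω → ℝ) (T^[k] x)) := by
      intro L n
      have ind0 : ∀ x, 0 ≤ (bad L).indicator (1 : Ω → ℝ) x := fun x =>
        indicator_nonneg (fun _ _ => zero_le_one) x
      induction n using Nat.strong_induction_on with
      | _ n ih =>
        intro x hx
        have hsh : ∀ j k, T^[k] (T^[j] x) ∈ ⋃ L', Gd L' := fun j k => by
          rw [← Function.iterate_add_apply]; exact hx _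
        rcases le_or_gt n L with h | h
        · have h1 := (abs_le.1 (bd n x)).2
          have h2 : 0 ≤ ∑ k ∈ Finset.range n, (bad L).indicator (1 : Ω → ℝ) (T^[k] x) :=
            Finset.sum_nonneg fun k _ => ind0 _
          have h3 : (n : ℝ) ≤ L := by exact_mod_cast h
          have h4 : (0 : ℝ) ≤ n := Nat.cast_nonneg n
          have h5 : K * (n + 1) ≤ K * (L + 1 + ∑ k ∈ Finset.range n,
              (bad L).indicator (1 : Ω → ℝ) (T^[k] x)) :=
            mul_le_mul_of_nonneg_left (by linarith) hK0
          have h6 : 0 ≤ n * (b + |b|) := mul_nonneg h4 (by linarith)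
          have h7 : 0 ≤ n * c := mul_nonneg h4 hc
          rw [hK] at h5 ⊢
          nlinarith [abs_nonneg b]
        · have step : ∀ j r, n = j + r → 1 ≤ j → f n x ≤ f j x + r * (b - ε) +
              K * (L + 1 + ∑ k ∈ Finset.range r, (bad L).indicator (1 : Ω → ℝ) (T^[j + k] x)) := by
            intro j r e hj
            have h1 := ih r (by omega) (T^[j] x) (hsh j)
            have h2 := sub j r x
            simp only [← Function.iterate_add_apply, add_comm _ j] at h1
            rw [e]
            linarith
          by_cases hg : x ∈ Gd L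
          · simp only [hGd, mem_iUnion] at hg
            obtain ⟨j, h1, h2⟩ := hg
            obtain ⟨r, rfl⟩ : ∃ r, n = j + r := ⟨n - j, by omega⟩
            have h3 := step j r rfl h1.1
            have h2' : f j x ≤ j * (b - ε) := h2
            rw [Finset.sum_range_add]
            have h4 : 0 ≤ K * ∑ k ∈ Finset.range j, (bad L).indicator (1 : Ω → ℝ) (T^[k] x) :=
              mul_nonneg hK0 (Finset.sum_nonneg fun k _ => ind0 _)
            push_cast
            linarith
          · obtain ⟨r, rfl⟩ : ∃ r, n = 1 + r := ⟨n - 1, by omega⟩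
            have h3 := step 1 r rfl le_rfl
            have h4 : x ∈ bad L := ⟨hx 0, hg⟩
            rw [Finset.sum_range_add, Finset.sum_range_one, Function.iterate_zero_apply,
              indicator_of_mem h4]
            have h5 := (abs_le.1 (bd 1 x)).2
            simp only [Pi.one_apply]
            push_cast at h5 ⊢
            linarith
    have final : ∀ η > 0, ε * μ.real B ≤ η := by
      intro η hη
      set η' := η / 4 with hη'
      have hη0 : 0 < η' := by positivity
      set E : ℕ → Set Ω := fun n => {x | n * (b + η') < f n x} with hE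
      have mE : ∀ n, MeasurableSet (E n) := fun n => measurableSet_lt measurable_const (mf n)
      have tE : Tendsto (fun n => μ.real (E n)) atTop (𝓝 0) := by
        have := tendsto_integral_of_dominated_convergence (μ := μ)
          (F := fun n => (E n).indicator (1 : Ω → ℝ)) (f := fun _ => 0) (fun _ => 1)
          (fun n => (measurable_one.indicator (mE n)).aestronglyMeasurable) (integrable_const _)
          (fun n => Eventually.of_forall fun x => by
            by_cases h : x ∈ E n <;> simp [h]) (by
            filter_upwards [up η' hη0] with x hx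
            refine tendsto_const_nhds.congr' ?_
            filter_upwards [hx] with n hn
            rw [indicator_of_notMem]
            exact not_lt.2 hn)
        simpa [integral_indicator_one (mE _)] using this
      have t1 := tbad.const_mul K
      have t2 := tE.const_mul K
      rw [mul_zero] at t1 t2
      obtain ⟨L, hL⟩ := (t1.eventually (gt_mem_nhds hη0)).exists
      obtain ⟨n0, hn0⟩ := exists_nat_gt ((c + K * (L + 1)) / η')
      obtain ⟨n, h1, h2⟩ := ((t2.eventually (gt_mem_nhds hη0)).and (eventually_gt_atTop n0)).exists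
      have hn : (n0 : ℝ) < n := by exact_mod_cast h2
      have hn1 : (1 : ℝ) ≤ n := by exact_mod_cast (by omega : 1 ≤ n)
      have i1 : Integrable (fun x => n * ε * B.indicator (1 : Ω → ℝ) x) μ :=
        ((integrable_const (1 : ℝ)).indicator mB).const_mul _
      have i2 : ∀ k, Integrable (fun x => (bad L).indicator (1 : Ω → ℝ) (T^[k] x)) μ := fun k =>
        (integrable_const (1 : ℝ)).indicator ((hT.iterate k).measurable (mbad L))
      have e2 : ∀ k, ∫ x, (bad L).indicator (1 : Ω → ℝ) (T^[k] x) ∂μ = μ.real (bad L) := by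
        intro k
        rw [← (hT.iterate k).measureReal_preimage (mbad L).nullMeasurableSet,
          ← integral_indicator_one ((hT.iterate k).measurable (mbad L))]
        rfl
      have i3 : Integrable (fun x => K * ∑ k ∈ Finset.range n,
          (bad L).indicator (1 : Ω → ℝ) (T^[k] x)) μ :=
        (integrable_finsetSum _ fun k _ => i2 k).const_mul _
      have i4 : Integrable (fun x => n * K * (E n).indicator (1 : Ω → ℝ) x) μ :=
        ((integrable_const (1 : ℝ)).indicator (mE n)).const_mul _
      have i5 : Integrable (fun x => (n * (b + η') + K * (L + 1)) -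
          n * ε * B.indicator (1 : Ω → ℝ) x) μ := (integrable_const _).sub i1
      have i6 : Integrable (fun x => (n * (b + η') + K * (L + 1)) -
          n * ε * B.indicator (1 : Ω → ℝ) x + K * ∑ k ∈ Finset.range n,
          (bad L).indicator (1 : Ω → ℝ) (T^[k] x)) μ := i5.add i3
      have h3 := integral_mono (integrable_of_bd (mf n) (bd n)) (i6.add i4) fun x => by
        show f n x ≤ (n * (b + η') + K * (L + 1)) -
          n * ε * B.indicator (1 : Ω → ℝ) x + K * ∑ k ∈ Finset.range n,
          (bad L).indicator (1 : Ω → ℝ) (T^[k] x) + n * K * (E n).indicator (1 : Ω → ℝ) x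
        have a0 : 0 ≤ n * K * (E n).indicator (1 : Ω → ℝ) x :=
          mul_nonneg (by positivity) (indicator_nonneg (fun _ _ => zero_le_one) x)
        have a1 : 0 ≤ (n : ℝ) * η' := by positivity
        by_cases hx : x ∈ B
        · have a2 := dec L n x (hBG x hx)
          rw [indicator_of_mem hx]
          simp only [Pi.one_apply]
          linarith
        · rw [indicator_of_notMem hx]
          have a3 : 0 ≤ K * ∑ k ∈ Finset.range n, (bad L).indicator (1 : Ω → ℝ) (T^[k] x) :=
            mul_nonneg hK0 (Finset.sum_nonneg fun k _ =>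
              indicator_nonneg (fun _ _ => zero_le_one) _)
          have a4 : 0 ≤ K * (L + 1) := by positivity
          by_cases hx' : x ∈ E n
          · rw [indicator_of_mem hx']
            have a5 := (abs_le.1 (bd n x)).2
            have a6 : 0 ≤ n * (b + |b|) := mul_nonneg (by linarith) (by linarith)
            have a7 : c * 1 ≤ c * n := mul_le_mul_of_nonneg_left hn1 hc
            have a8 : 0 ≤ (n : ℝ) * ε := by positivity
            simp only [Pi.one_apply]
            rw [hK] at a3 a4 ⊢
            nlinarith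
          · have a5 : f n x ≤ n * (b + η') := not_lt.1 hx'
            linarith
      rw [integral_add' i6 i4, integral_add i5 i3, integral_sub (integrable_const _) i1,
        integral_const_mul, integral_const_mul, integral_const_mul, integral_indicator_one mB,
        integral_indicator_one (mE n), integral_finsetSum _ fun k _ => i2 k] at h3
      simp only [e2, integral_const, probReal_univ, smul_eq_mul, one_mul, Finset.sum_const,
        Finset.card_range, nsmul_eq_mul] at h3
      have h4 := low n
      rw [div_lt_iff₀ hη0] at hn0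
      have h5 : n0 * η' ≤ n * η' := mul_le_mul_of_nonneg_right hn.le hη0.le
      have h6 : n * (K * μ.real (bad L)) ≤ n * η' := mul_le_mul_of_nonneg_left hL.le (by linarith)
      have h7 : n * (K * μ.real (E n)) ≤ n * η' := mul_le_mul_of_nonneg_left h1.le (by linarith)
      refine le_of_mul_le_mul_left ?_ (show (0 : ℝ) < n by linarith)
      have e : η = 4 * η' := by rw [hη']; ring
      rw [e]
      nlinarith
    have h0 : ε * μ.real B ≤ 0 := le_of_forall_pos_le_add fun η hη => by simpa using final η hη
    have h1 : μ.real B = 0 := le_antisymm (by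
      by_contra h
      exact absurd h0 (not_le.2 (mul_pos hε (not_le.1 h)))) measureReal_nonneg
    exact mem_ae_iff.2 ((measureReal_eq_zero_iff (measure_ne_top _ _)).1 h1)
  have a1 := ae_all_iff.2 fun j : ℕ => up (1 / ((j : ℝ) + 1)) (by positivity)
  have a2 := ae_all_iff.2 fun j : ℕ => lowae (1 / ((j : ℝ) + 1) / 2) (by positivity)
  filter_upwards [a1, a2] with x h1 h2
  refine tendsto_of_eventually h1 fun j => ?_
  have := h2 j
  rwa [mul_div_cancel₀ _ (two_ne_zero)] at this

end H215LE
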