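import Mathlib
import Pool.Agent.H215Z.LE.Core
import Pool.Agent.H215Z.LE.Kw

/-! Almost sure growth rates of the matrix products. -/

set_option autoImplicit false
set_option linter.unusedSectionVars false
open MeasureTheory Filter Topology Set Matrix

namespace H215LE

variable {Y : Type} [MeasurableSpace Y]

/-- normalised logarithmic size -/
noncomputable def nf (M : Mat) : ℝ := Real.log (en M) - Real.log ‖M.det‖ / 2

lemma nf_mul {M N : Mat} (hM : M.det ≠ 0) (hN : N.det ≠ 0) : nf (M * N) ≤ nf M + nf N := by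
  unfold nf
  have h1 := Real.log_le_log (en_pos (M := M * N) (by rw [det_mul]; exact mul_ne_zero hM hN))
    (en_mul M N)
  rw [Real.log_mul (en_pos hM).ne' (en_pos hN).ne'] at h1
  rw [det_mul, norm_mul, Real.log_mul (norm_ne_zero_iff.2 hM) (norm_ne_zero_iff.2 hN)]
  linarith

lemma en_inv (M : Mat) : en M⁻¹ = en M / ‖M.det‖ := by
  rw [Matrix.inv_def, Ring.inverse_eq_inv', ← en_adj M]
  unfold en
  simp only [Matrix.smul_apply, smul_eq_mul, norm_mul, norm_inv]
  ring

lemma log_en_inv {M : Mat} (hM : M.det ≠ 0) :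
    Real.log (en M⁻¹) = Real.log (en M) - Real.log ‖M.det‖ := by
  rw [en_inv, Real.log_div (en_pos hM).ne' (norm_ne_zero_iff.2 hM)]

lemma nf_inv {M : Mat} (hM : M.det ≠ 0) : nf M⁻¹ = nf M := by
  unfold nf
  rw [log_en_inv hM, det_nonsing_inv, Ring.inverse_eq_inv', norm_inv, Real.log_inv]
  ring

lemma Good.nf_bd {C : ℝ} {M : Mat} (h : Good C M) : |nf M| ≤ 2 * Real.log C := by
  have h1 := Real.log_le_log (en_pos h.det_ne) h.1
  have h2 := abs_le.1 h.log_det
  have h3 := Real.log_le_log (norm_pos_iff.2 h.det_ne) (det_le_en_sq M)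
  rw [Real.log_pow] at h3
  have h4 := Real.log_nonneg h.one_le
  unfold nf
  rw [abs_le]
  push_cast at h3
  constructor <;> linarith

lemma Ph_le_nf {M : Mat} (hM : M.det ≠ 0) {v : Vec} (hv : v ≠ 0) : Ph M v ≤ nf M := by
  have h1 := Real.log_le_log (norm_pos_iff.2 (mulVec_ne hM hv)) (norm_mulVec_le M v)
  rw [Real.log_mul (en_pos hM).ne' (norm_ne_zero_iff.2 hv)] at h1
  unfold Ph nf
  linarith

/-- basis vectors -/
def eV (i : Fin 2) : V := ⟨Pi.single i 1, fun h => by simpa using congrFun h i⟩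

lemma nf_le {M : Mat} (hM : M.det ≠ 0) {t : ℝ} (h : ∀ i, Ph M (eV i).1 ≤ t) : nf M ≤ 3 + t := by
  have h1 : ∀ i, ‖M *ᵥ Pi.single i 1‖ ≤ Real.exp (t + Real.log ‖M.det‖ / 2) := by
    intro i
    have h2 := h i
    unfold Ph at h2
    have h3 : ‖(eV i).1‖ = 1 := by simp [eV, Pi.norm_single]
    rw [h3, Real.log_one] at h2
    exact (Real.log_le_iff_le_exp (norm_pos_iff.2 (mulVec_ne hM (eV i).2))).1 (by linarith)
  have h2 : en M ≤ 4 * Real.exp (t + Real.log ‖M.det‖ / 2) := by
    linarith [en_le_basis M, h1 0, h1 1]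
  have h3 := Real.log_le_log (en_pos hM) h2
  rw [Real.log_mul (by norm_num) (Real.exp_pos _).ne', Real.log_exp] at h3
  have h4 := Real.log_le_sub_one_of_pos (show (0 : ℝ) < 4 by norm_num)
  unfold nf
  linarith

/-- the shift on paths with a marked initial letter -/
def TT (z : Y × (ℕ → Y)) : Y × (ℕ → Y) := (z.2 0, fun k => z.2 (k + 1))

lemma mp_TT (P : Measure Y) [IsProbabilityMeasure P] :
    MeasurePreserving (TT (Y := Y)) (P.prod (PP P)) (P.prod (PP P)) :=
  (mp_tail P).comp measurePreserving_snd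

namespace MAF
variable (F : MAF Y Y) (P : Measure Y) [IsProbabilityMeasure P] [Nonempty Y]

lemma β_le_int (hτ : ∀ s y, F.τ s y = y) : F.β P ≤ ∫ y, F.G P 1 y ∂P := by
  set δ := ∫ y, F.G P 1 y ∂P with hδ
  have hi : Integrable (F.G P 1) P := integrable_of_bd (F.measurable_G P 1) (F.G_bd P 1)
  have b1 : ∀ y, |F.G P 1 y| ≤ F.C := fun y => by simpa using F.G_bd P 1 y
  have h1 : ∀ (n : ℕ) y, F.G P (n + 1) y = F.G P 1 y + n * δ := by
    intro n
    induction n with
    | zero => simp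
    | succ n ih =>
      intro y
      rw [G_succ]
      simp_rw [hτ, ih]
      rw [integral_add hi (integrable_const _)]
      simp only [integral_const, probReal_univ, smul_eq_mul, one_mul]
      push_cast; ring
  have hδ1 : |δ| ≤ F.C := abs_integral_le_of_bd b1
  refine F.β_le_of P fun ε hε => ?_
  obtain ⟨n0, hn0⟩ := exists_nat_gt (2 * F.C / ε)
  filter_upwards [eventually_gt_atTop n0] with n hn
  obtain ⟨k, rfl⟩ : ∃ k, n = k + 1 := ⟨n - 1, by omega⟩
  refine F.M_le P fun y => ?_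
  rw [h1]
  rw [div_lt_iff₀ hε] at hn0
  have h2 : (n0 : ℝ) * ε ≤ (k + 1 : ℕ) * ε :=
    mul_le_mul_of_nonneg_right (by exact_mod_cast hn.le) hε.le
  have := (abs_le.1 (b1 y)).2
  have := (abs_le.1 hδ1).1
  push_cast at *
  nlinarith

lemma slln (hτ : ∀ s y, F.τ s y = y) : ∀ᵐ z ∂(P.prod (PP P)),
    Tendsto (fun n : ℕ => F.psum n z.1 z.2 / n) atTop (𝓝 (∫ y, F.G P 1 y ∂P)) := by
  have h1 := F.β_le_int P hτ
  have h2 := F.neg.β_le_int P hτ
  simp_rw [neg_G] at h2
  rw [integral_neg] at h2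
  have a1 := ae_all_iff.2 fun j : ℕ => F.ae_eventually_lt P P measurable_id
    (ε := 1 / ((j : ℝ) + 1)) (by positivity)
  have a2 := ae_all_iff.2 fun j : ℕ => F.neg.ae_eventually_lt P P measurable_id
    (ε := 1 / ((j : ℝ) + 1)) (by positivity)
  filter_upwards [a1, a2] with z b1 b2
  refine tendsto_of_eventually (fun j => ?_) (fun j => ?_)
  · filter_upwards [b1 j] with n hn
    have h0 : (0 : ℝ) ≤ n := Nat.cast_nonneg n
    simp only [id] at hn
    nlinarith
  · filter_upwards [b2 j] with n hn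
    have h0 : (0 : ℝ) ≤ n := Nat.cast_nonneg n
    rw [neg_psum] at hn
    simp only [id] at hn
    nlinarith

end MAF

namespace Coc
variable {C : ℝ} (A : Coc Y C)

lemma pr_succ' (n : ℕ) (z : Y × (ℕ → Y)) :
    A.pr (n + 1) z.1 z.2 = A.pr n (TT z).1 (TT z).2 * A.A z.1 (z.2 0) := by
  induction n with
  | zero => simp [pr, last]
  | succ n ih =>
    rw [pr, ih, pr, Matrix.mul_assoc]
    cases n <;> rfl

lemma pr_add (n k : ℕ) (z : Y × (ℕ → Y)) :
    A.pr (n + k) z.1 z.2 = A.pr k (TT^[n] z).1 (TT^[n] z).2 * A.pr n z.1 z.2 := by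
  induction n generalizing z with
  | zero => simp [pr]
  | succ n ih =>
    rw [show n + 1 + k = n + k + 1 by ring, pr_succ', ih, pr_succ', Function.iterate_succ_apply,
      Matrix.mul_assoc]

lemma measM_pr (n : ℕ) : MeasM fun z : Y × (ℕ → Y) => A.pr n z.1 z.2 := by
  induction n with
  | zero => exact measM_const _
  | succ n ih =>
    refine MeasM.mul ?_ ih
    have : Measurable fun z : Y × (ℕ → Y) => (last n z.1 z.2, z.2 n) := by
      cases n
      · show Measurable fun z : Y × (ℕ → Y) => (z.1, z.2 0)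
        fun_prop
      · rename_i k
        show Measurable fun z : Y × (ℕ → Y) => (z.2 k, z.2 (k + 1))
        fun_prop
    exact A.meas.comp this

/-- the determinant functional -/
noncomputable def dM : MAF Y Y where
  τ := fun _ y => y
  φ := fun s y => Real.log ‖(A.A s y).det‖
  C := 2 * Real.log C
  mτ := measurable_snd
  mφ := A.meas.det.norm.log
  bd := fun s y => (A.good s y).log_det
  hC := by have := Real.log_nonneg A.one_le; linarith

lemma dM_psum (n : ℕ) (y : Y) (ω : ℕ → Y) :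
    A.dM.psum n y ω = Real.log ‖(A.pr n y ω).det‖ := by
  induction n with
  | zero => simp [MAF.psum, pr]
  | succ n ih =>
    rw [MAF.psum, Finset.sum_range_succ, ← MAF.psum, ih, pr, det_mul, norm_mul,
      Real.log_mul (norm_ne_zero_iff.2 (A.good _ _).det_ne)
        (norm_ne_zero_iff.2 (A.pr_good n _ _).det_ne), add_comm]
    cases n <;> rfl

variable (P : Measure Y) [IsProbabilityMeasure P]

/-- mean logarithmic determinant -/
noncomputable def δ : ℝ := ∫ y, A.dM.G P 1 y ∂P

lemma δ_close {B : Coc Y C} {q : Measure Y} [IsProbabilityMeasure q] {γ : ℝ} (hc : Close A B γ)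
    (ht : TV P q γ) : A.δ P - B.δ q ≤ (2 * C ^ 2 + 4 * Real.log C) * γ := by
  have b1 : ∀ y, |A.dM.G P 1 y| ≤ 2 * Real.log C := fun y => by
    have := A.dM.G_bd P 1 y
    rwa [Nat.cast_one, one_mul] at this
  have h1 := (abs_le.1 (ht.scaled (A.dM.measurable_G P 1) A.dM.hC b1)).2
  have i1 : Integrable (A.dM.G P 1) q := integrable_of_bd (A.dM.measurable_G P 1) b1
  have i2 : Integrable (B.dM.G q 1) q := integrable_of_bd (B.dM.measurable_G q 1) (B.dM.G_bd q 1)
  have h2 : ∫ y, A.dM.G P 1 y ∂q - ∫ y, B.dM.G q 1 y ∂q ≤ 2 * Real.log C * γ + 2 * C ^ 2 * γ := by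
    rw [← integral_sub i1 i2]
    refine integral_le_of_le (i1.sub i2) fun y => ?_
    have a1 := A.dM.G_close_meas P ht 1 y
    have a2 : A.dM.G q 1 y - B.dM.G q 1 y ≤ 2 * C ^ 2 * γ := by
      rw [MAF.G_one, MAF.G_one, ← integral_sub (A.dM.int_φ q y) (B.dM.int_φ q y)]
      refine integral_le_of_le ((A.dM.int_φ q y).sub (B.dM.int_φ q y)) fun y' => ?_
      exact ((A.good y y').log_det_pert (B.good y y')).trans
        (mul_le_mul_of_nonneg_left (hc y y') (by positivity))
    have e : A.dM.C = 2 * Real.log C := rfl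
    rw [e] at a1
    simp only [Nat.cast_one, one_pow, one_mul] at a1
    show A.dM.G P 1 y - B.dM.G q 1 y ≤ _
    linarith
  have e : A.dM.C = 2 * Real.log C := rfl
  rw [e] at h1
  unfold δ
  linarith

variable [Nonempty Y]

lemma ae_nf : ∀ᵐ z ∂(P.prod (PP P)),
    Tendsto (fun n : ℕ => nf (A.pr n z.1 z.2) / n) atTop (𝓝 (A.toMAF.β P)) := by
  have hl := Real.log_nonneg A.one_le
  have hC := A.one_le
  have mf : ∀ n, Measurable fun z : Y × (ℕ → Y) => nf (A.pr n z.1 z.2) := fun n =>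
    (A.measM_pr n).en.log.sub ((A.measM_pr n).det.norm.log.div_const 2)
  have bd : ∀ (n : ℕ) (z : Y × (ℕ → Y)),
      |nf (A.pr n z.1 z.2)| ≤ (2 + 3 * Real.log C) * (n + 1) := by
    intro n z
    refine (A.pr_good n _ _).nf_bd.trans ?_
    rw [Real.log_mul two_ne_zero (by positivity), Real.log_pow]
    have h4 := Real.log_le_sub_one_of_pos (show (0 : ℝ) < 2 by norm_num)
    have h0 : (0 : ℝ) ≤ n := Nat.cast_nonneg n
    nlinarith
  refine kw _ (mp_TT P) (f := fun n z => nf (A.pr n z.1 z.2)) mf bd ?_ ?_ ?_ ?_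
  · intro n k z
    simp only [pr_add]
    rw [add_comm]
    exact nf_mul (A.pr_good _ _ _).det_ne (A.pr_good _ _ _).det_ne
  · intro n z
    have hA := A.good z.1 (z.2 0)
    have e : A.pr n (TT z).1 (TT z).2 = A.pr (n + 1) z.1 z.2 * (A.A z.1 (z.2 0))⁻¹ := by
      rw [pr_succ', Matrix.mul_assoc, mul_nonsing_inv _ (Ne.isUnit hA.det_ne), Matrix.mul_one]
    rw [e]
    refine (nf_mul (A.pr_good _ _ _).det_ne ?_).trans ?_
    · rw [det_nonsing_inv, Ring.inverse_eq_inv']; exact inv_ne_zero hA.det_ne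
    · rw [nf_inv hA.det_ne]
      have := (abs_le.1 hA.nf_bd).2
      linarith
  · intro ε hε
    have a := ae_all_iff.2 fun i : Fin 2 => A.toMAF.ae_eventually_lt P P
      (s0 := fun y => (y, eV i)) (by fun_prop) (half_pos hε)
    obtain ⟨n0, hn0⟩ := exists_nat_gt (3 / (ε / 2))
    rw [div_lt_iff₀ (half_pos hε)] at hn0
    filter_upwards [a] with z hz
    filter_upwards [eventually_all.2 hz, eventually_ge_atTop n0] with n h1 h2
    have h3 := nf_le (A.pr_good n z.1 z.2).det_ne (t := n * (A.toMAF.β P + ε / 2)) fun i => by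
      have := (h1 i).le
      rwa [psum_eq] at this
    have h4 : (n0 : ℝ) * (ε / 2) ≤ n * (ε / 2) :=
      mul_le_mul_of_nonneg_right (by exact_mod_cast h2) (half_pos hε).le
    linarith
  · intro n
    have hi := integrable_of_bd (μ := P.prod (PP P)) (mf n) (bd n)
    have h1 : A.toMAF.M P (n + 1) ≤ 3 * Real.log C + ∫ z, nf (A.pr n z.1 z.2) ∂(P.prod (PP P)) := by
      refine A.toMAF.M_le P fun s => ?_
      rw [MAF.G_succ, integral_prod _ hi]
      have h2 := (abs_le.1 (A.toMAF.G_bd P 1 s)).2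
      simp only [Nat.cast_one, one_mul] at h2
      refine add_le_add h2 (integral_mono (A.toMAF.int_G_τ P n s) hi.integral_prod_left fun y => ?_)
      refine integral_mono (A.toMAF.int_psum P n _)
        (integrable_of_bd ((mf n).comp (measurable_const.prodMk measurable_id))
          fun ω => bd n (y, ω)) fun ω => ?_
      rw [psum_eq]
      exact Ph_le_nf (A.pr_good _ _ _).det_ne (A.toMAF.τ s y).2.2
    have h2 := A.toMAF.β_le P (n + 1)
    have h3 := A.β_nonneg P
    push_cast at h2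
    linarith

theorem ae_exp : ∀ᵐ z ∂(P.prod (PP P)),
    Tendsto (fun n : ℕ => Real.log (en (A.pr n z.1 z.2)) / n) atTop
      (𝓝 (A.toMAF.β P + A.δ P / 2)) ∧
    Tendsto (fun n : ℕ => Real.log (en (A.pr n z.1 z.2)⁻¹) / n) atTop
      (𝓝 (A.toMAF.β P - A.δ P / 2)) := by
  filter_upwards [A.ae_nf P, A.dM.slln P fun _ _ => rfl] with z h1 h2
  simp only [dM_psum] at h2
  constructor
  · refine (h1.add (h2.div_const 2)).congr fun n => ?_
    unfold nf; ring
  · refine (h1.sub (h2.div_const 2)).congr fun n => ?_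
    rw [log_en_inv (A.pr_good _ _ _).det_ne]
    unfold nf; ring

end Coc

end H215LE
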