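import Mathlib
import Pool.Agent.H215Z.LE.Defs
import Pool.Agent.H215Z.LE.Cex
import Pool.Agent.H215Z.LE.Grow

/-! From locally constant cocycles to cocycles over pairs of blocks. -/

set_option autoImplicit false
set_option linter.unusedSectionVars false
open MeasureTheory Filter Topology Set Matrix

namespace H215LE

section TVs
variable {Y Y' : Type} [MeasurableSpace Y] [MeasurableSpace Y']

lemma TV.map {p q : Measure Y} {p' q' : Measure Y'} {f : Y → Y'} (hp : MeasurePreserving f p p')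
    (hq : MeasurePreserving f q q') {γ : ℝ} (h : TV p q γ) : TV p' q' γ := by
  intro φ hφ hb
  rw [← hp.map_eq, ← hq.map_eq, integral_map hp.measurable.aemeasurable hφ.aestronglyMeasurable,
    integral_map hq.measurable.aemeasurable hφ.aestronglyMeasurable]
  exact h _ (hφ.comp hp.measurable) fun y => hb _

lemma TV.prod {p q : Measure Y} {p' q' : Measure Y'} [IsProbabilityMeasure p]
    [IsProbabilityMeasure q] [IsProbabilityMeasure p'] [IsProbabilityMeasure q'] {γ γ' : ℝ}
    (h : TV p q γ) (h' : TV p' q' γ') : TV (p.prod p') (q.prod q') (γ + γ') := by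
  intro φ hφ hb
  rw [integral_prod _ (integrable_of_bd hφ hb), integral_prod _ (integrable_of_bd hφ hb)]
  have m1 : Measurable fun y => ∫ y', φ (y, y') ∂p' :=
    (hφ.stronglyMeasurable.integral_prod_right' (ν := p')).measurable
  have m2 : Measurable fun y => ∫ y', φ (y, y') ∂q' :=
    (hφ.stronglyMeasurable.integral_prod_right' (ν := q')).measurable
  have b1 : ∀ y, |∫ y', φ (y, y') ∂p'| ≤ 1 := fun y => abs_integral_le_of_bd fun _ => hb _
  have b2 : ∀ y, |∫ y', φ (y, y') ∂q'| ≤ 1 := fun y => abs_integral_le_of_bd fun _ => hb _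
  have h1 := h _ m1 b1
  have h2 : |∫ y, ∫ y', φ (y, y') ∂p' ∂q - ∫ y, ∫ y', φ (y, y') ∂q' ∂q| ≤ γ' := by
    rw [← integral_sub (integrable_of_bd m1 b1) (integrable_of_bd m2 b2)]
    exact abs_integral_le_of_bd fun y =>
      h' _ (hφ.comp (measurable_const.prodMk measurable_id)) fun _ => hb _
  exact (abs_sub_le _ _ _).trans (add_le_add h1 h2)

lemma TV.pi {p q : Measure Y} [IsProbabilityMeasure p] [IsProbabilityMeasure q] {γ : ℝ}
    (h : TV p q γ) (m : ℕ) :
    TV (Measure.pi fun _ : Fin m => p) (Measure.pi fun _ : Fin m => q) (m * γ) := by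
  induction m with
  | zero =>
    intro φ _ _
    rw [Measure.pi_of_empty, Measure.pi_of_empty]
    simp
  | succ m ih =>
    have := (h.prod ih).map (measurePreserving_piFinSuccAbove (fun _ : Fin (m + 1) => p) 0).symm
      (measurePreserving_piFinSuccAbove (fun _ : Fin (m + 1) => q) 0).symm
    convert this using 1
    push_cast; ring

lemma ac_pi {p q : Measure Y} [IsProbabilityMeasure p] [IsProbabilityMeasure q] (h : q ≪ p)
    (m : ℕ) : (Measure.pi fun _ : Fin m => q) ≪ (Measure.pi fun _ : Fin m => p) := by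
  induction m with
  | zero => rw [Measure.pi_of_empty, Measure.pi_of_empty]
  | succ m ih =>
    rw [← (measurePreserving_piFinSuccAbove (fun _ : Fin (m + 1) => p) 0).symm.map_eq,
      ← (measurePreserving_piFinSuccAbove (fun _ : Fin (m + 1) => q) 0).symm.map_eq]
    exact (h.prod ih).map (MeasurableEquiv.measurable _)

lemma tv_of_tvDist {p q : Measure Y} [IsProbabilityMeasure p] [IsProbabilityMeasure q] {γ : ℝ}
    (h : tvDist p q < γ) : TV p q γ := by
  intro φ hφ hb
  refine le_trans ?_ h.le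
  refine le_ciSup (f := fun φ : {φ : Y → ℝ // Measurable φ ∧ ∀ x, |φ x| ≤ 1} =>
    |∫ x, φ.1 x ∂p - ∫ x, φ.1 x ∂q|) ⟨2, ?_⟩ ⟨φ, hφ, hb⟩
  rintro _ ⟨ψ, rfl⟩
  have h1 := abs_integral_le_of_bd (μ := p) ψ.2.2
  have h2 := abs_integral_le_of_bd (μ := q) ψ.2.2
  have := abs_sub (∫ x, ψ.1 x ∂p) (∫ x, ψ.1 x ∂q)
  simp only
  linarith

end TVs

variable {X : Type} [MeasurableSpace X] {N : ℕ}

instance bern_prob (p : Measure X) [IsProbabilityMeasure p] : IsProbabilityMeasure (bern p) := by
  unfold bern; infer_instance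

/-- blocks of length `2N+1` -/
def blk (N k : ℕ) (x : ℤ → X) : Fin (2 * N + 1) → X :=
  fun j => x (-N + k * (2 * N + 1) + (j : ℕ))

/-- a sequence built from two blocks -/
def ext2 (N : ℕ) (y y' : Fin (2 * N + 1) → X) : ℤ → X := fun i =>
  if h : (i + N).toNat < 2 * N + 1 then y ⟨_, h⟩
  else y' ⟨((i + N).toNat - (2 * N + 1)) % (2 * N + 1), Nat.mod_lt _ (by omega)⟩

lemma ext2_blk (k : ℕ) (x : ℤ → X) {i : ℤ} (h1 : -(N : ℤ) ≤ i) (h2 : i < (2 * N + 1 : ℕ) + N) :
    ext2 N (blk N k x) (blk N (k + 1) x) i = (shift^[k * (2 * N + 1)] x) i := by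
  rw [Cex.shift_iter]
  unfold ext2 blk
  split_ifs with h
  · congr 1
    push_cast
    omega
  · congr 1
    simp only
    rw [Nat.mod_eq_of_lt (by omega)]
    have : (((i + N).toNat - (2 * N + 1) : ℕ) : ℤ) = i + N - (2 * N + 1) := by omega
    rw [this]
    push_cast
    ring

lemma measurable_ext2 : Measurable fun p : (Fin (2 * N + 1) → X) × (Fin (2 * N + 1) → X) =>
    ext2 N p.1 p.2 := by
  refine measurable_pi_lambda _ fun i => ?_
  unfold ext2
  split_ifs <;> fun_prop

/-- the block measure -/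
noncomputable abbrev bP (N : ℕ) (p : Measure X) [IsProbabilityMeasure p] :
    Measure (Fin (2 * N + 1) → X) := Measure.pi fun _ => p

/-- block coding -/
def Φ (N : ℕ) (x : ℤ → X) : (Fin (2 * N + 1) → X) × (ℕ → Fin (2 * N + 1) → X) :=
  (blk N 0 x, fun i => blk N (i + 1) x)

lemma mp_Φ (p : Measure X) [IsProbabilityMeasure p] :
    MeasurePreserving (Φ N) (bern p) ((bP N p).prod (PP (bP N p))) := by
  have h1 : MeasurePreserving (fun (x : ℤ → X) (a : ℕ × Fin (2 * N + 1)) =>
      x (-N + a.1 * (2 * N + 1) + (a.2 : ℕ))) (bern p)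
      (Measure.infinitePi fun _ : ℕ × Fin (2 * N + 1) => p) := by
    refine ⟨by fun_prop, Measure.map_infinitePi_infinitePi_of_inj (P := fun _ : ℤ => p)
      (f := fun a : ℕ × Fin (2 * N + 1) => (-N + a.1 * (2 * N + 1) + (a.2 : ℕ) : ℤ)) ?_⟩
    rintro ⟨a, i⟩ ⟨b, j⟩ h
    simp only at h
    have h2 : a * (2 * N + 1) + i = b * (2 * N + 1) + j := by
      have : ((a * (2 * N + 1) + i : ℕ) : ℤ) = (b * (2 * N + 1) + j : ℕ) := by push_cast; linarith
      exact_mod_cast this
    have h3 := congrArg (· % (2 * N + 1)) h2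
    simp only [Nat.mul_add_mod_self_right, Nat.mod_eq_of_lt i.2, Nat.mod_eq_of_lt j.2] at h3
    have h4 : a = b := by
      rw [h3] at h2
      exact Nat.eq_of_mul_eq_mul_right (by omega) (Nat.add_right_cancel h2)
    exact Prod.ext h4 (Fin.ext h3)
  have h2 : MeasurePreserving (MeasurableEquiv.curry ℕ (Fin (2 * N + 1)) X)
      (Measure.infinitePi fun _ : ℕ × Fin (2 * N + 1) => p) (PP (bP N p)) := by
    refine ⟨MeasurableEquiv.measurable _, ?_⟩
    have := Measure.infinitePi_map_curry (fun (_ : ℕ) (_ : Fin (2 * N + 1)) => p)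
    rw [this]
    simp only [Measure.infinitePi_eq_pi]
  have h3 := (mp_tail (bP N p)).comp (h2.comp h1)
  exact h3

lemma mp_pair (p : Measure X) [IsProbabilityMeasure p] :
    MeasurePreserving (fun x : ℤ → X => (blk N 0 x, blk N 1 x)) (bern p)
      ((bP N p).prod (bP N p)) :=
  ((MeasurePreserving.id (bP N p)).prod
    (measurePreserving_eval_infinitePi (fun _ : ℕ => bP N p) 0)).comp (mp_Φ p)

namespace Cocycle
variable (A : Cocycle X N)

/-- matrix of the iterate -/
noncomputable abbrev it (n : ℕ) (x : ℤ → X) : Mat := (A.iter n x : GL (Fin 2) ℂ)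

lemma it_zero (x : ℤ → X) : A.it 0 x = 1 := rfl
lemma it_succ (n : ℕ) (x : ℤ → X) :
    A.it (n + 1) x = (A.toFun (shift^[n] x) : Mat) * A.it n x := rfl

lemma it_add (a b : ℕ) (x : ℤ → X) : A.it (a + b) x = A.it b (shift^[a] x) * A.it a x := by
  induction b with
  | zero => simp [it_zero]
  | succ b ih =>
    rw [← add_assoc, it_succ, it_succ, ih, ← Function.iterate_add_apply, add_comm b a,
      Matrix.mul_assoc]

lemma it_loc (n : ℕ) {x x' : ℤ → X} (h : ∀ i : ℤ, -(N : ℤ) ≤ i → i < n + N → x i = x' i) :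
    A.it n x = A.it n x' := by
  induction n with
  | zero => rfl
  | succ n ih =>
    rw [it_succ, it_succ, ih fun i h1 h2 => h i h1 (by push_cast; omega),
      A.loc (shift^[n] x) (shift^[n] x')]
    intro i hi
    rw [Cex.shift_iter, Cex.shift_iter]
    have := abs_le.1 hi
    exact h _ (by omega) (by push_cast; omega)

lemma measM_it (n : ℕ) : MeasM (A.it n) := by
  have hs : Measurable (shift (X := X)) := by unfold shift; fun_prop
  induction n with
  | zero => exact measM_const _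
  | succ n ih =>
    have h1 : MeasM fun x => (A.toFun x : Mat) := A.meas
    exact (h1.comp (hs.iterate n)).mul ih

lemma exists_good : ∃ D, 8 ≤ D ∧ ∀ x, Good D (A.toFun x : Mat) := by
  obtain ⟨C, hC⟩ := A.bdd
  have h1 : 1 ≤ Real.exp |C| := Real.one_le_exp (abs_nonneg C)
  refine ⟨16 * Real.exp |C| ^ 2, by nlinarith, fun x => ?_⟩
  have a : ∀ M : Mat, |Real.log (opN M)| ≤ C → en M ≤ 4 * Real.exp |C| := by
    intro M hM
    have := (Real.le_exp_log (opN M)).trans (Real.exp_le_exp.2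
      (((le_abs_self _).trans hM).trans (le_abs_self C)))
    linarith [en_le_opN M]
  have a1 := a _ (hC x).1
  have a2 := a _ (hC x).2
  refine ⟨by nlinarith, ?_⟩
  have a3 := (det_le_en_sq _).trans (pow_le_pow_left₀ (en_nonneg _) a2 2)
  have a4 : ‖((A.toFun x)⁻¹ : GL (Fin 2) ℂ).1.det‖ * ‖(A.toFun x).1.det‖ = 1 := by
    rw [← norm_mul, ← det_mul, ← Units.val_mul]; simp
  have a5 := mul_le_mul_of_nonneg_right a3 (norm_nonneg (A.toFun x).1.det)
  rw [a4] at a5
  linarith

lemma en_le_of_cocDist (B : Cocycle X N) {γ : ℝ} (h : cocDist A B < γ) (x : ℤ → X) :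
    en ((A.toFun x : Mat) - (B.toFun x : Mat)) ≤ 4 * γ := by
  obtain ⟨D, -, hD⟩ := A.exists_good
  obtain ⟨D', -, hD'⟩ := B.exists_good
  have : opN ((A.toFun x : Mat) - (B.toFun x : Mat)) ≤ cocDist A B := by
    refine le_ciSup (f := fun x => opN ((A.toFun x : Mat) - (B.toFun x : Mat))) ⟨2 * (D + D'), ?_⟩ x
    rintro _ ⟨x, rfl⟩
    have h1 := opN_le_en ((A.toFun x : Mat) - (B.toFun x : Mat))
    have h2 := en_add (A.toFun x : Mat) (-(B.toFun x : Mat))
    have h3 : en (-(B.toFun x : Mat)) = en (B.toFun x : Mat) := by simp [en]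
    rw [← sub_eq_add_neg, h3] at h2
    simp only
    linarith [(hD x).1, (hD' x).1]
  linarith [en_le_opN ((A.toFun x : Mat) - (B.toFun x : Mat))]

variable {D : ℝ}

lemma it_good (h : ∀ x, Good D (A.toFun x : Mat)) (n : ℕ) (x : ℤ → X) :
    Good (2 * D ^ n) (A.it n x) := by
  induction n with
  | zero => simpa [it_zero] using good_one
  | succ n ih =>
    have := (h (shift^[n] x)).mul ih
    rwa [show D * (2 * D ^ n) = 2 * D ^ (n + 1) by ring] at this

lemma it_close {B : Cocycle X N} (h : ∀ x, Good D (A.toFun x : Mat))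
    (h' : ∀ x, Good D (B.toFun x : Mat)) {γ : ℝ}
    (hc : ∀ x, en ((A.toFun x : Mat) - (B.toFun x : Mat)) ≤ γ) (n : ℕ) (x : ℤ → X) :
    en (A.it n x - B.it n x) ≤ 2 * n * D ^ n * γ := by
  have hγ : 0 ≤ γ := (en_nonneg _).trans (hc x)
  induction n with
  | zero => simp [it_zero, en]
  | succ n ih =>
    have e : A.it (n + 1) x - B.it (n + 1) x =
        ((A.toFun (shift^[n] x) : Mat) - (B.toFun (shift^[n] x) : Mat)) * A.it n x +
          (B.toFun (shift^[n] x) : Mat) * (A.it n x - B.it n x) := by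
      simp only [it_succ]; noncomm_ring
    rw [e]
    have hC := (h x).one_le
    have h1 := (en_mul ((A.toFun (shift^[n] x) : Mat) - (B.toFun (shift^[n] x) : Mat))
      (A.it n x)).trans (mul_le_mul (hc _) (A.it_good h n x).1 (en_nonneg _) hγ)
    have h2 := (en_mul (B.toFun (shift^[n] x) : Mat) (A.it n x - B.it n x)).trans
      (mul_le_mul (h' _).1 ih (en_nonneg _) (by linarith))
    refine (en_add _ _).trans ?_
    have h3 : 0 ≤ D ^ n * γ := by positivity
    have h4 : D ^ n * γ ≤ D * (D ^ n * γ) := by nlinarith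
    push_cast
    rw [pow_succ]
    nlinarith

/-- the block cocycle -/
noncomputable def toCoc (hD : 1 ≤ D) (h : ∀ x, Good D (A.toFun x : Mat)) :
    Coc (Fin (2 * N + 1) → X) (2 * D ^ (2 * N + 1)) where
  A := fun y y' => A.it (2 * N + 1) (ext2 N y y')
  meas := (A.measM_it _).comp measurable_ext2
  good := fun _ _ => A.it_good h _ _
  one_le := by have := one_le_pow₀ (n := 2 * N + 1) hD; linarith

lemma it_eq_pr (hD : 1 ≤ D) (h : ∀ x, Good D (A.toFun x : Mat)) (n : ℕ) (x : ℤ → X) :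
    A.it (n * (2 * N + 1)) x = (A.toCoc hD h).pr n (Φ N x).1 (Φ N x).2 := by
  induction n with
  | zero => simp [it_zero, Coc.pr]
  | succ n ih =>
    rw [add_mul, one_mul, it_add, ih, Coc.pr]
    congr 1
    have : last n (Φ N x).1 (Φ N x).2 = blk N n x := by cases n <;> rfl
    rw [this]
    exact (A.it_loc _ fun i h1 h2 => ext2_blk n x h1 h2).symm

lemma step_bd (h : ∀ x, Good D (A.toFun x : Mat)) (n : ℕ) (x : ℤ → X) :
    |Real.log (en (A.it (n + 1) x)) - Real.log (en (A.it n x))| ≤ 3 * Real.log D ∧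
    |Real.log (en (A.it (n + 1) x)⁻¹) - Real.log (en (A.it n x)⁻¹)| ≤ 3 * Real.log D := by
  have g := h (shift^[n] x)
  have d0 := (A.it_good h n x).det_ne
  have d1 := (A.it_good h (n + 1) x).det_ne
  have a1 : nf (A.it (n + 1) x) ≤ nf (A.toFun (shift^[n] x) : Mat) + nf (A.it n x) :=
    nf_mul g.det_ne d0
  have a2 : nf (A.it n x) ≤ nf (A.toFun (shift^[n] x) : Mat) + nf (A.it (n + 1) x) := by
    have e : A.it n x = (A.toFun (shift^[n] x) : Mat)⁻¹ * A.it (n + 1) x := by
      rw [it_succ, ← Matrix.mul_assoc, nonsing_inv_mul _ (Ne.isUnit g.det_ne), Matrix.one_mul]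
    rw [← nf_inv g.det_ne]
    conv_lhs => rw [e]
    refine nf_mul ?_ d1
    rw [det_nonsing_inv, Ring.inverse_eq_inv']; exact inv_ne_zero g.det_ne
  have a3 : Real.log ‖(A.it (n + 1) x).det‖ =
      Real.log ‖(A.toFun (shift^[n] x) : Mat).det‖ + Real.log ‖(A.it n x).det‖ := by
    rw [it_succ, det_mul, norm_mul,
      Real.log_mul (norm_ne_zero_iff.2 g.det_ne) (norm_ne_zero_iff.2 d0)]
  have a4 := abs_le.1 g.nf_bd
  have a5 := abs_le.1 g.log_det
  rw [log_en_inv d0, log_en_inv d1]
  generalize nf (A.toFun (shift^[n] x) : Mat) = t at *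
  unfold nf at a1 a2
  constructor <;> rw [abs_le] <;> constructor <;> linarith

end Cocycle

lemma tendsto_opN {M : ℕ → Mat} (hM : ∀ n, (M n).det ≠ 0) {l : ℝ}
    (h : Tendsto (fun n : ℕ => (1 / (n : ℝ)) * Real.log (en (M n))) atTop (𝓝 l)) :
    Tendsto (fun n : ℕ => (1 / (n : ℝ)) * Real.log (opN (M n))) atTop (𝓝 l) := by
  have h1 : Tendsto (fun n : ℕ => (1 / (n : ℝ)) *
      (Real.log (opN (M n)) - Real.log (en (M n)))) atTop (𝓝 0) := by
    refine squeeze_zero_norm (fun n => ?_) (tendsto_const_div_atTop_nhds_zero_nat 4)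
    have e0 := en_pos (hM n)
    have e1 := en_le_opN (M n)
    have e2 := opN_le_en (M n)
    have e3 : 0 < opN (M n) := by linarith
    have b1 := log_sub_le' e0 e3 e1
    have b2 := log_sub_le' e3 e0 e2
    rw [Real.norm_eq_abs, abs_mul, abs_of_nonneg (by positivity), one_div, ← div_eq_inv_mul]
    refine div_le_div_of_nonneg_right ?_ (Nat.cast_nonneg n)
    rw [abs_le]
    constructor <;> linarith
  have h2 := h.add h1
  rw [add_zero] at h2
  exact h2.congr fun n => by ring

lemma Cocycle.exps (A : Cocycle X N) {D : ℝ} (hD : 1 ≤ D) (h : ∀ x, Good D (A.toFun x : Mat))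
    (p : Measure X) [IsProbabilityMeasure p] [Nonempty X] :
    IsTopExp A p (((A.toCoc hD h).toMAF.β (bP N p) + (A.toCoc hD h).δ (bP N p) / 2) /
      (2 * N + 1 : ℕ)) ∧
    IsBotExp A p (-(((A.toCoc hD h).toMAF.β (bP N p) - (A.toCoc hD h).δ (bP N p) / 2) /
      (2 * N + 1 : ℕ))) := by
  have h1 := (mp_Φ (N := N) p).quasiMeasurePreserving.ae ((A.toCoc hD h).ae_exp (bP N p))
  constructor
  · unfold IsTopExp
    filter_upwards [h1] with x hx
    have h2 := hx.1
    simp only [← A.it_eq_pr hD h] at h2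
    exact tendsto_opN (fun n => (A.it_good h n x).det_ne)
      (interp (g := fun n => Real.log (en (A.it n x))) (by omega) (fun n => (A.step_bd h n x).1) h2)
  · unfold IsBotExp
    filter_upwards [h1] with x hx
    have h2 := hx.2
    simp only [← A.it_eq_pr hD h] at h2
    have h3 := tendsto_opN (M := fun n => (A.it n x)⁻¹) (fun n => by
        rw [det_nonsing_inv, Ring.inverse_eq_inv']; exact inv_ne_zero (A.it_good h n x).det_ne)
      (interp (g := fun n => Real.log (en (A.it n x)⁻¹)) (by omega)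
        (fun n => (A.step_bd h n x).2) h2)
    refine h3.neg.congr fun n => ?_
    rw [Real.log_inv, Matrix.coe_units_inv]
    ring

lemma IsTopExp.unique {A : Cocycle X N} {p : Measure X} [IsProbabilityMeasure p] {a b : ℝ}
    (h : IsTopExp A p a) (h' : IsTopExp A p b) : a = b := by
  obtain ⟨x, h1, h2⟩ := (Eventually.and h h').exists
  exact tendsto_nhds_unique h1 h2

lemma IsBotExp.unique {A : Cocycle X N} {p : Measure X} [IsProbabilityMeasure p] {a b : ℝ}
    (h : IsBotExp A p a) (h' : IsBotExp A p b) : a = b := by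
  obtain ⟨x, h1, h2⟩ := (Eventually.and h h').exists
  exact tendsto_nhds_unique h1 h2

theorem exps_exist (A : Cocycle X N) (p : Measure X) [IsProbabilityMeasure p] :
    ∃ a a', IsTopExp A p a ∧ IsBotExp A p a' := by
  have : Nonempty X := nonempty_of_isProbabilityMeasure p
  obtain ⟨D, hD, h⟩ := A.exists_good
  exact ⟨_, _, A.exps (by linarith) h p⟩

theorem cont_main (A : Cocycle X N) (p : Measure X) [IsProbabilityMeasure p] {ε : ℝ} (hε : 0 < ε) :
    ∃ γ > 0, ∃ Z : Set (ℤ → X), MeasurableSet Z ∧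
      (∃ K : ℕ, ∀ x x' : ℤ → X, (∀ i : ℤ, |i| ≤ K → x i = x' i) → (x ∈ Z ↔ x' ∈ Z)) ∧
      bern p Z = 1 ∧
      ∀ (B : Cocycle X N) (q : Measure X) [IsProbabilityMeasure q],
        cocDist A B < γ → tvDist p q < γ → (bern q Z = 1 ∨ q ≪ p) →
        ∀ a b a' b' : ℝ, IsTopExp A p a → IsTopExp B q b → IsBotExp A p a' → IsBotExp B q b' →
          |a - b| < ε ∧ |a' - b'| < ε := by
  have : Nonempty X := nonempty_of_isProbabilityMeasure p
  obtain ⟨D0, hD0, h0⟩ := A.exists_good
  set D := 2 * D0 with hDd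
  have hD : 1 ≤ D := by linarith
  have h : ∀ x, Good D (A.toFun x : Mat) := fun x => (h0 x).mono (by linarith)
  set m := 2 * N + 1 with hm
  have hm1 : (1 : ℝ) ≤ m := by exact_mod_cast (by omega : 1 ≤ m)
  set C := 2 * D ^ m with hC
  have hC16 : 16 ≤ C := by
    have := pow_le_pow_right₀ hD (show 1 ≤ m by omega)
    rw [pow_one] at this
    linarith
  obtain ⟨γ1, hγ1, Z, mZ, hZ, H⟩ := Coc.cont (bP N p) hC16 (A.toCoc hD h) (ε := ε / 3)
    (by positivity)
  have hl : 0 ≤ Real.log C := Real.log_nonneg (by linarith)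
  set K := 2 * C ^ 2 + 4 * Real.log C with hK
  have hK0 : 0 < K := by positivity
  set γ2 := min γ1 (ε / 3 / K) with hγ2
  have hγ20 : 0 < γ2 := lt_min hγ1 (by positivity)
  have hγ21 : K * γ2 ≤ ε / 3 := by
    have := min_le_right γ1 (ε / 3 / K)
    rw [← hγ2, le_div_iff₀ hK0] at this
    linarith
  set γ := min (γ2 / (8 * m * D ^ m)) (1 / (8 * D0 ^ 2) / 4) with hγ
  have hγ0 : 0 < γ := lt_min (by positivity) (by positivity)
  have g1 : 2 * m * D ^ m * (4 * γ) ≤ γ2 := by
    have := min_le_left (γ2 / (8 * m * D ^ m)) (1 / (8 * D0 ^ 2) / 4)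
    rw [← hγ, le_div_iff₀ (by positivity)] at this
    linarith
  have g2 : 4 * γ ≤ 1 / (8 * D0 ^ 2) := by
    have := min_le_right (γ2 / (8 * m * D ^ m)) (1 / (8 * D0 ^ 2) / 4)
    rw [← hγ] at this
    linarith
  have g3 : m * γ ≤ γ2 := by
    have := one_le_pow₀ (n := m) hD
    have : m * γ * 1 ≤ m * γ * D ^ m := mul_le_mul_of_nonneg_left this (by positivity)
    have : 0 ≤ m * γ * D ^ m := by positivity
    linarith
  have mZ' := (mp_pair (N := N) p).measurable mZ
  refine ⟨γ, hγ0, (fun x : ℤ → X => (blk N 0 x, blk N 1 x)) ⁻¹' Z, mZ', ⟨3 * N + 1, ?_⟩, ?_, ?_⟩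
  · intro x x' hx
    have : ∀ k, k ≤ 1 → blk N k x = blk N k x' := by
      intro k hk
      funext j
      refine hx _ ?_
      have := j.2
      rw [abs_le]
      interval_cases k <;> push_cast <;> omega
    simp only [mem_preimage, this 0 (by omega), this 1 le_rfl]
  · exact (prob_compl_eq_zero_iff mZ').1 ((mp_pair p).quasiMeasurePreserving.ae hZ)
  · intro B q _ hc ht hq a b a' b' ha hb ha' hb'
    have c1 := A.en_le_of_cocDist B hc
    have hB : ∀ x, Good D (B.toFun x : Mat) := fun x => (h0 x).pert ((c1 x).trans g2)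
    have c2 : Coc.Close (A.toCoc hD h) (B.toCoc hD hB) γ2 := fun y y' =>
      (A.it_close h hB c1 m _).trans g1
    have t2 : TV (bP N p) (bP N q) γ2 := ((tv_of_tvDist ht).pi m).mono g3
    have hq' : ∀ᵐ z ∂((bP N q).prod (bP N q)), z ∈ Z := by
      rcases hq with hq | hq
      · rw [(mp_pair q).measure_preimage mZ.nullMeasurableSet] at hq
        exact (prob_compl_eq_zero_iff mZ).2 hq
      · exact ((ac_pi hq m).prod (ac_pi hq m)) hZ
    have r1 := abs_le.1 (H (B.toCoc hD hB) (bP N q) hq' (c2.mono (min_le_left _ _))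
      (t2.mono (min_le_left _ _)))
    have r2 := (Coc.δ_close _ _ c2 t2).trans hγ21
    have r3 := (Coc.δ_close _ _ c2.symm t2.symm).trans hγ21
    rw [ha.unique (A.exps hD h p).1, hb.unique (B.exps hD hB q).1, ha'.unique (A.exps hD h p).2,
      hb'.unique (B.exps hD hB q).2]
    have key : ∀ u v : ℝ, |u - v| < ε → |u / m - v / m| < ε := by
      intro u v huv
      rw [← sub_div, abs_div, Nat.abs_cast, div_lt_iff₀ (by linarith)]
      nlinarith [abs_nonneg (u - v)]
    refine ⟨key _ _ ?_, ?_⟩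
    · rw [abs_lt]; constructor <;> linarith
    · rw [neg_sub_neg]
      refine key _ _ ?_
      rw [abs_lt]; constructor <;> linarith

theorem cont_atomic [MeasurableSingletonClass X] (A : Cocycle X N) (p : Measure X)
    [IsProbabilityMeasure p] {S : Set X} (hS : S.Countable) (hp : p S = 1) {ε : ℝ} (hε : 0 < ε) :
    ∃ γ > 0, ∃ Z : Set X, MeasurableSet Z ∧ p Z = 1 ∧
      ∀ (B : Cocycle X N) (q : Measure X) [IsProbabilityMeasure q],
        cocDist A B < γ → q Z = 1 → tvDist p q < γ →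
        ∀ a b a' b' : ℝ, IsTopExp A p a → IsTopExp B q b → IsBotExp A p a' → IsBotExp B q b' →
          |a - b| < ε ∧ |a' - b'| < ε := by
  obtain ⟨γ, hγ, Z0, -, -, -, H⟩ := cont_main A p hε
  have hc : {x | x ∈ S ∧ p {x} ≠ 0}.Countable := hS.mono fun x hx => hx.1
  refine ⟨γ, hγ, {x | x ∈ S ∧ p {x} ≠ 0}, hc.measurableSet, ?_, fun B q _ h1 h2 h3 =>
    H B q h1 h3 (Or.inr ?_)⟩
  · rw [← prob_compl_eq_zero_iff hc.measurableSet]
    have h1 : p Sᶜ = 0 := (prob_compl_eq_zero_iff hS.measurableSet).2 hp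
    have h2 : p (⋃ x ∈ {x | x ∈ S ∧ p {x} = 0}, {x}) = 0 :=
      (measure_biUnion_null_iff (hS.mono fun x hx => hx.1)).2 fun x hx => hx.2
    refine measure_mono_null (fun x hx => ?_) (measure_union_null h1 h2)
    by_cases hxS : x ∈ S
    · right
      simp only [mem_compl_iff, mem_ofPred_eq, not_and, not_not] at hx
      exact mem_biUnion (show x ∈ {x | x ∈ S ∧ p {x} = 0} from ⟨hxS, hx hxS⟩) rfl
    · exact Or.inl hxS
  · intro s hs
    refine measure_mono_null (fun x hx => ?_) ((prob_compl_eq_zero_iff hc.measurableSet).2 h2)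
    intro h
    exact h.2 (measure_mono_null (singleton_subset_iff.2 hx) hs)

end H215LE
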